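import Pool.Agent.Lib.MP_c7fb7b_an_p.Defs

/-!
# A1 (general exponent): basic properties of the gauge

Same as `MP_c7fb7b_an/A1.lean` with the `l_p` norm `np p s x = (∑ |x m|^p)^(1/p)` instead of the
square root (Minkowski: `Real.Lp_add_le`).
-/

open Finset Filter Topology Pool.Agent.WB

namespace Pool.Agent.WBp

variable {p : ℝ} {k : ℕ → ℝ} {s t : Finset ℕ} {x y z : ℕ → ℝ}

theorem A1_sum_nonneg (p : ℝ) (s : Finset ℕ) (x : ℕ → ℝ) : 0 ≤ ∑ m ∈ s, |x m| ^ p :=
  Finset.sum_nonneg fun _ _ => Real.rpow_nonneg (abs_nonneg _) _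

theorem np_nonneg (p : ℝ) (s : Finset ℕ) (x : ℕ → ℝ) : 0 ≤ np p s x := by
  unfold np
  exact Real.rpow_nonneg (A1_sum_nonneg p s x) _

theorem A1_np_mono (hp : 1 < p) (h : ∀ m ∈ s, |z m| ≤ |x m|) : np p s z ≤ np p s x := by
  unfold np
  refine Real.rpow_le_rpow (A1_sum_nonneg p s z) (Finset.sum_le_sum fun m hm => ?_) (by positivity)
  exact Real.rpow_le_rpow (abs_nonneg _) (h m hm) (by linarith)

theorem A1_np_add (hp : 1 < p) (h : ∀ m ∈ s, |z m| ≤ |x m| + |y m|) :
    np p s z ≤ np p s x + np p s y := by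
  have h1 : np p s z ≤ np p s (fun m => |x m| + |y m|) := by
    refine A1_np_mono hp fun m hm => ?_
    rw [abs_of_nonneg (add_nonneg (abs_nonneg (x m)) (abs_nonneg (y m)))]
    exact h m hm
  refine h1.trans ?_
  have h2 := Real.Lp_add_le s (fun m => |x m|) (fun m => |y m|) hp.le
  simp only [abs_abs] at h2
  unfold np
  exact h2

theorem A1_np_smul (hp : 1 < p) {a : ℝ} (ha : 0 ≤ a) (h : ∀ m ∈ s, |z m| ≤ a * |x m|) :
    np p s z ≤ a * np p s x := by
  have hp0 : p ≠ 0 := by linarith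
  have h1 : np p s z ≤ np p s (fun m => a * x m) := by
    refine A1_np_mono hp fun m hm => ?_
    rw [abs_mul, abs_of_nonneg ha]
    exact h m hm
  refine h1.trans (le_of_eq ?_)
  unfold np
  have h2 : ∑ m ∈ s, |a * x m| ^ p = a ^ p * ∑ m ∈ s, |x m| ^ p := by
    rw [Finset.mul_sum]
    refine Finset.sum_congr rfl fun m _ => ?_
    rw [abs_mul, abs_of_nonneg ha, Real.mul_rpow ha (abs_nonneg _)]
  rw [h2, Real.mul_rpow (Real.rpow_nonneg ha _) (A1_sum_nonneg p s x), one_div,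
    Real.rpow_rpow_inv ha hp0]

theorem A1_np_set (hp : 1 < p) (h : s ⊆ t) (x : ℕ → ℝ) : np p s x ≤ np p t x := by
  unfold np
  refine Real.rpow_le_rpow (A1_sum_nonneg p s x) ?_ (by positivity)
  exact Finset.sum_le_sum_of_subset_of_nonneg h fun _ _ _ => Real.rpow_nonneg (abs_nonneg _) _

theorem A1_np_le_sum (hp : 1 < p) (s : Finset ℕ) (x : ℕ → ℝ) : np p s x ≤ ∑ m ∈ s, |x m| := by
  have hp0 : p ≠ 0 := by linarith
  have hS : 0 ≤ ∑ m ∈ s, |x m| := Finset.sum_nonneg fun _ _ => abs_nonneg _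
  set S := ∑ m ∈ s, |x m| with hSdef
  have h1 : ∑ m ∈ s, |x m| ^ p ≤ S ^ p := by
    have h2 : ∀ m ∈ s, |x m| ^ p ≤ |x m| * S ^ (p - 1) := by
      intro m hm
      have h3 : |x m| ≤ S := Finset.single_le_sum (f := fun m => |x m|)
        (fun _ _ => abs_nonneg _) hm
      have h4 : |x m| ^ p = |x m| * |x m| ^ (p - 1) := by
        have h5 : p = 1 + (p - 1) := by ring
        rcases (abs_nonneg (x m)).eq_or_lt with h0 | h0
        · rw [← h0, Real.zero_rpow hp0, zero_mul]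
        · nth_rewrite 1 [h5]
          rw [Real.rpow_add h0, Real.rpow_one]
      rw [h4]
      exact mul_le_mul_of_nonneg_left (Real.rpow_le_rpow (abs_nonneg _) h3 (by linarith))
        (abs_nonneg _)
    refine (Finset.sum_le_sum h2).trans (le_of_eq ?_)
    rw [← Finset.sum_mul, ← hSdef]
    rcases hS.eq_or_lt with h0 | h0
    · rw [← h0, Real.zero_rpow hp0, zero_mul]
    · have h5 : p = 1 + (p - 1) := by ring
      nth_rewrite 2 [h5]
      rw [Real.rpow_add h0, Real.rpow_one]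
  unfold np
  refine (Real.rpow_le_rpow (A1_sum_nonneg p s x) h1 (by positivity)).trans (le_of_eq ?_)
  rw [one_div, Real.rpow_rpow_inv hS hp0]

theorem ga_le {C : ℝ} (h2 : np p s x ≤ C)
    (hV : ∀ V ⊆ s, k V.card * ∑ m ∈ V, |x m| ≤ C) : ga p k s x ≤ C := by
  unfold ga
  exact max_le h2 (Finset.sup'_le _ _ fun V hV' => hV V (mem_powerset.mp hV'))

theorem np_le_ga (p : ℝ) (k : ℕ → ℝ) (s : Finset ℕ) (x : ℕ → ℝ) : np p s x ≤ ga p k s x := by
  exact le_max_left _ _

theorem V_le_ga {V : Finset ℕ} (p : ℝ) (k : ℕ → ℝ) (h : V ⊆ s) (x : ℕ → ℝ) :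
    k V.card * ∑ m ∈ V, |x m| ≤ ga p k s x := by
  unfold ga
  exact le_trans (Finset.le_sup' (f := fun V : Finset ℕ => k V.card * ∑ m ∈ V, |x m|)
    (mem_powerset.mpr h)) (le_max_right _ _)

theorem ga_nonneg (p : ℝ) (k : ℕ → ℝ) (s : Finset ℕ) (x : ℕ → ℝ) : 0 ≤ ga p k s x := by
  exact le_trans (np_nonneg p s x) (np_le_ga p k s x)

theorem abs_le_ga (hp : 1 < p) (k : ℕ → ℝ) {m : ℕ} (h : m ∈ s) (x : ℕ → ℝ) :
    |x m| ≤ ga p k s x := by
  have hp0 : p ≠ 0 := by linarith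
  refine le_trans ?_ (np_le_ga p k s x)
  have h1 : |x m| ^ p ≤ ∑ m ∈ s, |x m| ^ p :=
    Finset.single_le_sum (f := fun m => |x m| ^ p)
      (fun _ _ => Real.rpow_nonneg (abs_nonneg _) _) h
  calc |x m| = (|x m| ^ p) ^ (1 / p) := by rw [one_div, Real.rpow_rpow_inv (abs_nonneg _) hp0]
    _ ≤ _ := Real.rpow_le_rpow (Real.rpow_nonneg (abs_nonneg _) _) h1 (by positivity)

theorem ga_k0 (p : ℝ) (s : Finset ℕ) (x : ℕ → ℝ) : ga p k0 s x = np p s x := by
  refine le_antisymm (ga_le le_rfl fun V _ => ?_) (np_le_ga p k0 s x)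
  unfold k0
  rw [zero_mul]
  exact np_nonneg p s x

theorem ga_add (hp : 1 < p) (hk : ∀ v, 0 ≤ k v) (h : ∀ m ∈ s, |z m| ≤ |x m| + |y m|) :
    ga p k s z ≤ ga p k s x + ga p k s y := by
  refine ga_le ?_ fun V hV => ?_
  · exact (A1_np_add hp h).trans (add_le_add (np_le_ga p k s x) (np_le_ga p k s y))
  · refine le_trans ?_ (add_le_add (V_le_ga p k hV x) (V_le_ga p k hV y))
    rw [← mul_add, ← Finset.sum_add_distrib]
    exact mul_le_mul_of_nonneg_left (Finset.sum_le_sum fun m hm => h m (hV hm)) (hk _)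

theorem ga_mono (hp : 1 < p) (hk : ∀ v, 0 ≤ k v) (h : ∀ m ∈ s, |z m| ≤ |x m|) :
    ga p k s z ≤ ga p k s x := by
  refine ga_le ?_ fun V hV => ?_
  · exact (A1_np_mono hp h).trans (np_le_ga p k s x)
  · exact le_trans (mul_le_mul_of_nonneg_left (Finset.sum_le_sum fun m hm => h m (hV hm)) (hk _))
      (V_le_ga p k hV x)

theorem ga_smul (hp : 1 < p) (hk : ∀ v, 0 ≤ k v) {a : ℝ} (ha : 0 ≤ a)
    (h : ∀ m ∈ s, |z m| ≤ a * |x m|) : ga p k s z ≤ a * ga p k s x := by
  refine ga_le ?_ fun V hV => ?_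
  · exact (A1_np_smul hp ha h).trans (mul_le_mul_of_nonneg_left (np_le_ga p k s x) ha)
  · refine le_trans ?_ (mul_le_mul_of_nonneg_left (V_le_ga p k hV x) ha)
    have e1 : a * (k V.card * ∑ m ∈ V, |x m|) = k V.card * ∑ m ∈ V, a * |x m| := by
      rw [← Finset.mul_sum]; ring
    rw [e1]
    exact mul_le_mul_of_nonneg_left (Finset.sum_le_sum fun m hm => h m (hV hm)) (hk _)

theorem ga_smul_eq (hp : 1 < p) (hk : ∀ v, 0 ≤ k v) (a : ℝ) (x : ℕ → ℝ) :
    ga p k s (a • x) = |a| * ga p k s x := by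
  refine le_antisymm (ga_smul hp hk (abs_nonneg a) fun m _ => ?_) ?_
  · rw [Pi.smul_apply, smul_eq_mul, abs_mul]
  · by_cases ha : a = 0
    · rw [ha, abs_zero, zero_mul]
      exact ga_nonneg _ _ _ _
    · have ha' : 0 < |a| := abs_pos.mpr ha
      have h1 : ga p k s x ≤ |a|⁻¹ * ga p k s (a • x) := by
        refine ga_smul hp hk (inv_nonneg.mpr (abs_nonneg a)) fun m _ => ?_
        rw [Pi.smul_apply, smul_eq_mul, abs_mul, ← mul_assoc, inv_mul_cancel₀ ha'.ne', one_mul]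
      calc |a| * ga p k s x ≤ |a| * (|a|⁻¹ * ga p k s (a • x)) :=
            mul_le_mul_of_nonneg_left h1 ha'.le
        _ = ga p k s (a • x) := by rw [← mul_assoc, mul_inv_cancel₀ ha'.ne', one_mul]

theorem ga_set (hp : 1 < p) (hk : ∀ v, 0 ≤ k v) (h : s ⊆ t) (x : ℕ → ℝ) :
    ga p k s x ≤ ga p k t x := by
  refine ga_le ?_ fun V hV => V_le_ga p k (hV.trans h) x
  exact le_trans (A1_np_set hp h x) (np_le_ga p k t x)

theorem ga_restrict (hp : 1 < p) (hk : ∀ v, 0 ≤ k v)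
    (hk' : ∀ v w, 1 ≤ w → w ≤ v → k v ≤ k w)
    (h : ∀ m ∈ s, m ∉ t → x m = 0) : ga p k s x ≤ ga p k t x := by
  have hp0 : p ≠ 0 := by linarith
  refine ga_le ?_ fun V hV => ?_
  · have e1 : np p s x = np p (s.filter (· ∈ t)) x := by
      unfold np
      congr 1
      refine (Finset.sum_subset (Finset.filter_subset _ _) fun m hm hm2 => ?_).symm
      have h1 : m ∉ t := fun h2 => hm2 (Finset.mem_filter.mpr ⟨hm, h2⟩)
      rw [h m hm h1, abs_zero, Real.zero_rpow hp0]
    rw [e1]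
    exact (A1_np_set hp (fun m hm => (Finset.mem_filter.mp hm).2) x).trans (np_le_ga p k t x)
  · have e1 : ∑ m ∈ V, |x m| = ∑ m ∈ V.filter (· ∈ t), |x m| := by
      refine (Finset.sum_subset (Finset.filter_subset _ _) fun m hm hm2 => ?_).symm
      have h1 : m ∉ t := fun h2 => hm2 (Finset.mem_filter.mpr ⟨hm, h2⟩)
      rw [h m (hV hm) h1, abs_zero]
    rw [e1]
    by_cases hW : (V.filter (· ∈ t)).card = 0
    · rw [Finset.card_eq_zero.mp hW, Finset.sum_empty, mul_zero]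
      exact ga_nonneg _ _ _ _
    · refine le_trans (mul_le_mul_of_nonneg_right (hk' _ _ (Nat.one_le_iff_ne_zero.mpr hW)
        (Finset.card_le_card (Finset.filter_subset _ _)))
        (Finset.sum_nonneg fun i _ => abs_nonneg _)) ?_
      exact V_le_ga p k (fun m hm => (Finset.mem_filter.mp hm).2) x

theorem ga_le_sum (hp : 1 < p) (hk : ∀ v, 0 ≤ k v) (hk2 : ∀ v, k v ≤ 2) (s : Finset ℕ)
    (x : ℕ → ℝ) : ga p k s x ≤ 2 * ∑ m ∈ s, |x m| := by
  have hS : 0 ≤ ∑ m ∈ s, |x m| := Finset.sum_nonneg fun i _ => abs_nonneg _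
  refine ga_le ?_ fun V hV => ?_
  · have h1 := A1_np_le_sum hp s x
    linarith
  · have h1 : ∑ m ∈ V, |x m| ≤ ∑ m ∈ s, |x m| :=
      Finset.sum_le_sum_of_subset_of_nonneg hV fun i _ _ => abs_nonneg _
    exact mul_le_mul (hk2 _) h1 (Finset.sum_nonneg fun i _ => abs_nonneg _) (by norm_num)

theorem ga_congr (p : ℝ) (k : ℕ → ℝ) (h : ∀ m ∈ s, x m = y m) : ga p k s x = ga p k s y := by
  have h1 : np p s x = np p s y := by
    unfold np
    rw [Finset.sum_congr rfl fun m hm => by rw [h m hm]]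
  refine le_antisymm ?_ ?_
  · refine ga_le ?_ fun V hV => ?_
    · rw [h1]
      exact np_le_ga p k s y
    · rw [Finset.sum_congr rfl fun m hm => by rw [h m (hV hm)]]
      exact V_le_ga p k hV y
  · refine ga_le ?_ fun V hV => ?_
    · rw [← h1]
      exact np_le_ga p k s x
    · rw [Finset.sum_congr rfl fun m hm => by rw [← h m (hV hm)]]
      exact V_le_ga p k hV x

theorem A1_continuous_np (hp : 1 < p) (s : Finset ℕ) :
    Continuous (fun x : ℕ → ℝ => np p s x) := by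
  unfold np
  refine Continuous.rpow_const (continuous_finsetSum _ fun m _ => ?_) fun _ => Or.inr (by positivity)
  exact (continuous_apply m).abs.rpow_const fun _ => Or.inr (by linarith)

theorem continuous_ga (hp : 1 < p) (k : ℕ → ℝ) (s : Finset ℕ) :
    Continuous (fun x : ℕ → ℝ => ga p k s x) := by
  unfold ga
  refine Continuous.max (A1_continuous_np hp s) ?_
  refine Continuous.finset_sup'_apply _ fun V _ => ?_
  exact continuous_const.mul (continuous_finsetSum _ fun m _ => (continuous_apply m).abs)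

theorem continuous_hh (hp : 1 < p) (k : ℕ → ℝ) (n : ℕ) :
    Continuous (fun x : ℕ → ℝ => hh p k x n) := by
  exact continuous_ga hp k (range (n + 1))

theorem hh_mono (hp : 1 < p) (hk : ∀ v, 0 ≤ k v) (x : ℕ → ℝ) {n m : ℕ} (h : n ≤ m) :
    hh p k x n ≤ hh p k x m := by
  exact ga_set hp hk (Finset.range_mono (by omega)) x

theorem abs_hh_sub_le (hp : 1 < p) (hk : ∀ v, 0 ≤ k v) (x y : ℕ → ℝ) (n : ℕ) :
    |hh p k x n - hh p k y n| ≤ hh p k (x - y) n := by
  unfold hh
  rw [abs_sub_le_iff]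
  constructor
  · have h1 : ga p k (range (n + 1)) x ≤
        ga p k (range (n + 1)) (x - y) + ga p k (range (n + 1)) y :=
      ga_add hp hk fun m _ => by
        have : x m = (x - y) m + y m := by simp
        calc |x m| = |(x - y) m + y m| := by rw [← this]
          _ ≤ _ := abs_add_le _ _
    linarith
  · have h1 : ga p k (range (n + 1)) y ≤
        ga p k (range (n + 1)) (x - y) + ga p k (range (n + 1)) x :=
      ga_add hp hk fun m _ => by
        have : y m = -(x - y) m + x m := by simp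
        calc |y m| = |-(x - y) m + x m| := by rw [← this]
          _ ≤ |-(x - y) m| + |x m| := abs_add_le _ _
          _ = _ := by rw [abs_neg]
    linarith

end Pool.Agent.WBp
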