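import Pool.Agent.Lib.MP_c7fb7b_an_p.Defs
import Pool.Agent.Lib.MP_c7fb7b_an_p.A1

/-!
# A2 (general exponent): numerics of harmonic sums

Same as `MP_c7fb7b_an/A2.lean`.  `1/q = 1 - 1/p ∈ (0,1)`, `Hm p v = 1 + (1/q) H0 v`.
`kap_anti`: for consecutive `v ≥ 1`: `(q + H0 v + 1/(v+1)) ≤ (q + H0 v) ((v+1)/v)^(1/q)` since
`((v+1)/v)^(1/q) ≥ 1 + (1/q)/(v+1)` (e.g. `x ^ a ≥ 1 + a (1 - 1/x)`: from
`Real.add_one_le_exp (log)` and `log x ≥ 1 - 1/x`), and `q + H0 v ≥ q`; for `v ≥ g` the numerator is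
constant.  `kap p g 1 ≤ 1 + 1/q ≤ 2`, so `kap ≤ 2`, `Hm p v ≤ 2 v^(1/q)`.
`Hg_double`: `H0 (2a) ≤ 2 H0 a` for all `a`.  `sq_double`: `2^(1/p) ≤ 2`.
`gauge_le_np`: Hoelder `∑_V |x| ≤ |V|^(1/q) (∑_V |x|^p)^(1/p)` (`Real.inner_le_Lp_mul_Lq` with `1`),
`kap p g v * v^(1/q) ≤ Hg p g v ≤ Hm p g`.
-/

open Finset Filter Topology Pool.Agent.WB

namespace Pool.Agent.WBp

theorem H0_nonneg (v : ℕ) : 0 ≤ H0 v := by
  unfold H0
  exact Finset.sum_nonneg fun i _ => by positivity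

theorem H0_mono {v w : ℕ} (h : v ≤ w) : H0 v ≤ H0 w := by
  unfold H0
  exact Finset.sum_le_sum_of_subset_of_nonneg (Finset.range_mono h) fun i _ _ => by positivity

theorem H0_succ (v : ℕ) : H0 (v + 1) = H0 v + 1 / ((v : ℝ) + 1) := by
  unfold H0
  rw [Finset.sum_range_succ]

theorem one_le_H0 {v : ℕ} (h : 1 ≤ v) : 1 ≤ H0 v := by
  refine le_trans ?_ (H0_mono h)
  simp [H0]

/-- `1 - 1/p` is the inverse of `qq p`. -/
theorem inv_qq {p : ℝ} (hp : 1 < p) : 1 - 1 / p = (qq p)⁻¹ := by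
  unfold qq
  have h1 : p ≠ 0 := by linarith
  have h2 : p - 1 ≠ 0 := by linarith
  field_simp

theorem one_le_qq {p : ℝ} (hp : 1 < p) : 1 ≤ qq p := by
  unfold qq
  rw [le_div_iff₀ (by linarith)]
  linarith

theorem A2_pos {p : ℝ} (hp : 1 < p) : 0 < 1 - 1 / p := by
  have h1 : 1 / p < 1 := by
    rw [div_lt_one (by linarith)]
    exact hp
  linarith

theorem A2_lt {p : ℝ} (hp : 1 < p) : 1 - 1 / p < 1 := by
  have h1 : 0 < 1 / p := by positivity
  linarith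

theorem one_le_Hm {p : ℝ} (hp : 1 < p) (v : ℕ) : 1 ≤ Hm p v := by
  unfold Hm
  have := mul_nonneg (A2_pos hp).le (H0_nonneg v)
  linarith

theorem Hm_mono {p : ℝ} (hp : 1 < p) {v w : ℕ} (h : v ≤ w) : Hm p v ≤ Hm p w := by
  unfold Hm
  have := mul_le_mul_of_nonneg_left (H0_mono h) (A2_pos hp).le
  linarith

theorem Hm_succ (p : ℝ) (v : ℕ) :
    Hm p (v + 1) = Hm p v + (1 - 1 / p) * (1 / ((v : ℝ) + 1)) := by
  unfold Hm
  rw [H0_succ]
  ring

theorem H0_le_Hm {p : ℝ} (hp : 1 < p) (v : ℕ) : (1 - 1 / p) * H0 v ≤ Hm p v := by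
  have := hp
  unfold Hm
  linarith

theorem one_le_Hg {p : ℝ} (hp : 1 < p) (g v : ℕ) : 1 ≤ Hg p g v := by
  exact one_le_Hm hp _

theorem Hg_mono {p : ℝ} (hp : 1 < p) (g : ℕ) {v w : ℕ} (h : v ≤ w) : Hg p g v ≤ Hg p g w := by
  exact Hm_mono hp (min_le_min_right g h)

theorem Hg_le_Hm {p : ℝ} (hp : 1 < p) (g v : ℕ) : Hg p g v ≤ Hm p g := by
  exact Hm_mono hp (min_le_right _ _)

theorem Hg_le_Hm' {p : ℝ} (hp : 1 < p) (g v : ℕ) : Hg p g v ≤ Hm p v := by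
  exact Hm_mono hp (min_le_left _ _)

theorem Hg_one_le {p : ℝ} (hp : 1 < p) (g : ℕ) : Hg p g 1 ≤ 2 := by
  refine (Hg_le_Hm' hp g 1).trans ?_
  have h1 := A2_lt hp
  have h2 : H0 1 = 1 := by simp [H0]
  unfold Hm
  rw [h2]
  linarith

theorem Hg_double {p : ℝ} (hp : 1 < p) (g : ℕ) {v w : ℕ} (h : v ≤ 2 * w) :
    Hg p g v ≤ 2 * Hg p g w := by
  have h1 : ∀ a : ℕ, H0 (2 * a) ≤ 2 * H0 a := by
    intro a
    induction a with
    | zero => simp [H0]
    | succ a ih =>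
      have e1 : 2 * (a + 1) = 2 * a + 1 + 1 := by ring
      rw [e1, H0_succ, H0_succ, H0_succ]
      have ha : (0 : ℝ) ≤ a := Nat.cast_nonneg a
      have e2 : 1 / (((2 * a : ℕ) : ℝ) + 1) ≤ 1 / ((a : ℝ) + 1) := by
        apply one_div_le_one_div_of_le (by positivity)
        push_cast
        linarith
      have e3 : 1 / (((2 * a + 1 : ℕ) : ℝ) + 1) ≤ 1 / ((a : ℝ) + 1) := by
        apply one_div_le_one_div_of_le (by positivity)
        push_cast
        linarith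
      linarith
  have h2 : ∀ a : ℕ, Hm p (2 * a) ≤ 2 * Hm p a := by
    intro a
    unfold Hm
    have := mul_le_mul_of_nonneg_left (h1 a) (A2_pos hp).le
    linarith
  refine le_trans (Hm_mono hp ?_) (h2 _)
  omega

theorem kap_nonneg {p : ℝ} (hp : 1 < p) (g v : ℕ) : 0 ≤ kap p g v := by
  unfold kap
  exact div_nonneg (zero_le_one.trans (one_le_Hg hp g v)) (Real.rpow_nonneg (Nat.cast_nonneg v) _)

theorem A2_key {a : ℝ} (ha : 0 < a) {v : ℝ} (hv : 0 < v) :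
    v ^ a * (1 + a / (v + 1)) ≤ (v + 1) ^ a := by
  have hx : 0 < (v + 1) / v := by positivity
  have h1 : (v + 1) ^ a = v ^ a * ((v + 1) / v) ^ a := by
    rw [← Real.mul_rpow hv.le hx.le]
    congr 1
    field_simp
  rw [h1]
  refine mul_le_mul_of_nonneg_left ?_ (Real.rpow_nonneg hv.le _)
  have h2 : 1 - ((v + 1) / v)⁻¹ ≤ Real.log ((v + 1) / v) := Real.one_sub_inv_le_log_of_pos hx
  have h3 : 1 - ((v + 1) / v)⁻¹ = 1 / (v + 1) := by
    field_simp
    ring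
  rw [h3] at h2
  have h4 : ((v + 1) / v) ^ a = Real.exp (Real.log ((v + 1) / v) * a) := by
    rw [Real.rpow_def_of_pos hx]
  rw [h4]
  have h5 := Real.add_one_le_exp (Real.log ((v + 1) / v) * a)
  have h6 : a / (v + 1) ≤ Real.log ((v + 1) / v) * a := by
    calc a / (v + 1) = 1 / (v + 1) * a := by ring
      _ ≤ _ := mul_le_mul_of_nonneg_right h2 ha.le
  linarith

theorem kap_anti {p : ℝ} (hp : 1 < p) (g : ℕ) :
    ∀ v w : ℕ, 1 ≤ w → w ≤ v → kap p g v ≤ kap p g w := by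
  have step : ∀ v : ℕ, 1 ≤ v → kap p g (v + 1) ≤ kap p g v := by
    intro v hv
    have hv0 : (1 : ℝ) ≤ v := by exact_mod_cast hv
    have hq := A2_pos hp
    have hv' : 0 < (v : ℝ) ^ (1 - 1 / p) := Real.rpow_pos_of_pos (by linarith) _
    have hv1' : 0 < ((v : ℝ) + 1) ^ (1 - 1 / p) := Real.rpow_pos_of_pos (by linarith) _
    unfold kap
    push_cast
    rw [div_le_div_iff₀ hv1' hv']
    by_cases hg : g ≤ v
    · have e1 : Hg p g (v + 1) = Hg p g v := by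
        unfold Hg
        rw [min_eq_right hg, min_eq_right (by omega)]
      rw [e1]
      exact mul_le_mul_of_nonneg_left
        (Real.rpow_le_rpow (by linarith) (by linarith) hq.le)
        (zero_le_one.trans (one_le_Hg hp g v))
    · have e1 : Hg p g (v + 1) = Hm p v + (1 - 1 / p) * (1 / ((v : ℝ) + 1)) := by
        unfold Hg
        rw [min_eq_left (by omega), Hm_succ]
      have e2 : Hg p g v = Hm p v := by
        unfold Hg
        rw [min_eq_left (by omega)]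
      rw [e1, e2]
      have h2 := one_le_Hm hp v
      have h3 := A2_key hq (v := (v : ℝ)) (by linarith)
      have h4 : 0 ≤ (1 - 1 / p) * (1 / ((v : ℝ) + 1)) := by positivity
      have h5 : Hm p v + (1 - 1 / p) * (1 / ((v : ℝ) + 1)) ≤
          Hm p v * (1 + (1 - 1 / p) / ((v : ℝ) + 1)) := by
        have h6 : (1 - 1 / p) / ((v : ℝ) + 1) = (1 - 1 / p) * (1 / ((v : ℝ) + 1)) := by ring
        rw [h6]
        nlinarith
      calc (Hm p v + (1 - 1 / p) * (1 / ((v : ℝ) + 1))) * (v : ℝ) ^ (1 - 1 / p)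
          ≤ (Hm p v * (1 + (1 - 1 / p) / ((v : ℝ) + 1))) * (v : ℝ) ^ (1 - 1 / p) :=
            mul_le_mul_of_nonneg_right h5 hv'.le
        _ = Hm p v * ((v : ℝ) ^ (1 - 1 / p) * (1 + (1 - 1 / p) / ((v : ℝ) + 1))) := by ring
        _ ≤ Hm p v * ((v : ℝ) + 1) ^ (1 - 1 / p) :=
            mul_le_mul_of_nonneg_left h3 (by linarith)
  intro v w hw h
  induction v, h using Nat.le_induction with
  | base => exact le_rfl
  | succ v hv ih => exact le_trans (step v (le_trans hw hv)) ih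

theorem kap_le_two {p : ℝ} (hp : 1 < p) (g v : ℕ) : kap p g v ≤ 2 := by
  rcases Nat.eq_zero_or_pos v with rfl | hv
  · unfold kap
    rw [Nat.cast_zero, Real.zero_rpow (A2_pos hp).ne', div_zero]
    norm_num
  · refine (kap_anti hp g v 1 le_rfl hv).trans ?_
    unfold kap
    rw [Nat.cast_one, Real.one_rpow, div_one]
    exact Hg_one_le hp g

theorem Hm_le_rpow {p : ℝ} (hp : 1 < p) {v : ℕ} (h : 1 ≤ v) :
    Hm p v ≤ 2 * (v : ℝ) ^ (1 - 1 / p) := by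
  have h1 := kap_le_two hp v v
  have hv0 : (0 : ℝ) < v := by exact_mod_cast h
  have hv' : 0 < (v : ℝ) ^ (1 - 1 / p) := Real.rpow_pos_of_pos hv0 _
  unfold kap at h1
  rw [div_le_iff₀ hv'] at h1
  have h2 : Hg p v v = Hm p v := by
    unfold Hg
    rw [min_self]
  rwa [h2] at h1

theorem kap_mul_self {p : ℝ} (hp : 1 < p) (g v : ℕ) :
    kap p g v * (v : ℝ) = (v : ℝ) ^ (1 / p) * Hg p g v := by
  have hp0 : 0 < 1 / p := by positivity
  rcases Nat.eq_zero_or_pos v with rfl | hv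
  · rw [Nat.cast_zero, Real.zero_rpow hp0.ne', mul_zero, zero_mul]
  · have hv0 : (0 : ℝ) < v := by exact_mod_cast hv
    have hv' : 0 < (v : ℝ) ^ (1 - 1 / p) := Real.rpow_pos_of_pos hv0 _
    have h2 : (v : ℝ) = (v : ℝ) ^ (1 - 1 / p) * (v : ℝ) ^ (1 / p) := by
      rw [← Real.rpow_add hv0]
      have h3 : 1 - 1 / p + 1 / p = 1 := by ring
      rw [h3, Real.rpow_one]
    unfold kap
    calc Hg p g v / (v : ℝ) ^ (1 - 1 / p) * (v : ℝ)
        = Hg p g v / (v : ℝ) ^ (1 - 1 / p) * ((v : ℝ) ^ (1 - 1 / p) * (v : ℝ) ^ (1 / p)) := by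
          rw [← h2]
      _ = (v : ℝ) ^ (1 / p) * Hg p g v := by field_simp

theorem A2_kap_mul {p : ℝ} (hp : 1 < p) (g v : ℕ) :
    kap p g v * (v : ℝ) ^ (1 - 1 / p) ≤ Hg p g v := by
  unfold kap
  rcases Nat.eq_zero_or_pos v with rfl | hv
  · rw [Nat.cast_zero, Real.zero_rpow (A2_pos hp).ne', mul_zero]
    exact zero_le_one.trans (one_le_Hg hp g 0)
  · have hv0 : (0 : ℝ) < v := by exact_mod_cast hv
    have h1 : 0 < (v : ℝ) ^ (1 - 1 / p) := Real.rpow_pos_of_pos hv0 _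
    rw [div_mul_cancel₀ _ h1.ne']

theorem sq_double {p : ℝ} (hp : 1 < p) (g : ℕ) {v w : ℕ} (h : v ≤ 2 * w) :
    (v : ℝ) ^ (1 / p) * Hg p g v ≤ 4 * ((w : ℝ) ^ (1 / p) * Hg p g w) := by
  have hp0 : 0 < 1 / p := by positivity
  have hp1 : 1 / p ≤ 1 := by
    rw [div_le_one (by linarith)]
    exact hp.le
  have hw : (0 : ℝ) ≤ w := Nat.cast_nonneg w
  have h1 : (v : ℝ) ^ (1 / p) ≤ 2 * (w : ℝ) ^ (1 / p) := by
    have h2 : (v : ℝ) ≤ 2 * w := by exact_mod_cast h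
    calc (v : ℝ) ^ (1 / p) ≤ (2 * (w : ℝ)) ^ (1 / p) :=
          Real.rpow_le_rpow (Nat.cast_nonneg v) h2 hp0.le
      _ = 2 ^ (1 / p) * (w : ℝ) ^ (1 / p) := Real.mul_rpow (by norm_num) hw
      _ ≤ 2 * (w : ℝ) ^ (1 / p) := by
          refine mul_le_mul_of_nonneg_right ?_ (Real.rpow_nonneg hw _)
          calc (2 : ℝ) ^ (1 / p) ≤ 2 ^ (1 : ℝ) :=
                Real.rpow_le_rpow_of_exponent_le (by norm_num) hp1
            _ = 2 := Real.rpow_one 2
  have h3 : 0 ≤ (w : ℝ) ^ (1 / p) := Real.rpow_nonneg hw _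
  calc (v : ℝ) ^ (1 / p) * Hg p g v ≤ (2 * (w : ℝ) ^ (1 / p)) * (2 * Hg p g w) :=
        mul_le_mul h1 (Hg_double hp g h) (zero_le_one.trans (one_le_Hg hp g v)) (by positivity)
    _ = 4 * ((w : ℝ) ^ (1 / p) * Hg p g w) := by ring

theorem sq_quad {p : ℝ} (hp : 1 < p) (g : ℕ) {v w : ℕ} (h : v ≤ 4 * w) :
    (v : ℝ) ^ (1 / p) * Hg p g v ≤ 16 * ((w : ℝ) ^ (1 / p) * Hg p g w) := by
  refine le_trans (sq_double hp g (w := 2 * w) (by omega)) ?_
  have h1 := sq_double hp g (v := 2 * w) (w := w) le_rfl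
  linarith

theorem inj_sum {α : Type} (s : Finset α) (f : α → ℕ) (v : ℕ) (h1 : ∀ n ∈ s, 1 ≤ f n)
    (hv : ∀ n ∈ s, f n ≤ v) (hinj : Set.InjOn f (s : Set α)) :
    ∑ n ∈ s, 1 / (f n : ℝ) ≤ H0 v := by
  classical
  have h0 : ∑ n ∈ s, 1 / (f n : ℝ) = ∑ n ∈ s, (fun d : ℕ => 1 / ((d : ℝ) + 1)) (f n - 1) := by
    refine Finset.sum_congr rfl fun n hn => ?_
    have h2 := h1 n hn
    simp only
    rw [Nat.cast_sub h2]
    simp
  have hinj' : Set.InjOn (fun n => f n - 1) (s : Set α) := by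
    intro a ha b hb hab
    apply hinj ha hb
    have h3 := h1 a ha
    have h4 := h1 b hb
    simp only at hab
    omega
  rw [h0, ← Finset.sum_image (f := fun d : ℕ => 1 / ((d : ℝ) + 1)) hinj']
  unfold H0
  refine Finset.sum_le_sum_of_subset_of_nonneg ?_ fun i _ _ => by positivity
  intro d hd
  obtain ⟨n, hn, rfl⟩ := Finset.mem_image.mp hd
  rw [Finset.mem_range]
  have h3 := h1 n hn
  have h4 := hv n hn
  omega

/-- The gauge of a vector which is at least `ζ` on `J`. -/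
theorem gauge_lower {p : ℝ} (hp : 1 < p) (g : ℕ) (J s : Finset ℕ) (hJ : J ⊆ s) (x : ℕ → ℝ)
    (ζ : ℝ) (h : ∀ n ∈ J, ζ ≤ |x n|) :
    ζ * ((J.card : ℝ) ^ (1 / p) * Hg p g J.card) ≤ ga p (kap p g) s x := by
  refine le_trans ?_ (V_le_ga p (kap p g) hJ x)
  rw [← kap_mul_self hp]
  have h1 : ζ * (J.card : ℝ) ≤ ∑ m ∈ J, |x m| := by
    calc ζ * (J.card : ℝ) = ∑ m ∈ J, ζ := by rw [Finset.sum_const, nsmul_eq_mul, mul_comm]
      _ ≤ _ := Finset.sum_le_sum h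
  calc ζ * (kap p g J.card * (J.card : ℝ)) = kap p g J.card * (ζ * (J.card : ℝ)) := by ring
    _ ≤ _ := mul_le_mul_of_nonneg_left h1 (kap_nonneg hp g _)

/-- The gauge is at most `Hm p g` times the `l_p` norm. -/
theorem gauge_le_np {p : ℝ} (hp : 1 < p) (g : ℕ) (s : Finset ℕ) (x : ℕ → ℝ) :
    ga p (kap p g) s x ≤ Hm p g * np p s x := by
  have hH : 1 ≤ Hm p g := one_le_Hm hp g
  refine ga_le ?_ fun V hV => ?_
  · exact le_mul_of_one_le_left (np_nonneg p s x) hH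
  · have hpq : p.HolderConjugate (qq p) := Real.HolderConjugate.conjExponent hp
    have h1 : ∑ m ∈ V, |x m| ≤ (V.card : ℝ) ^ (1 - 1 / p) * np p V x := by
      have h2 := Real.inner_le_Lp_mul_Lq V (fun m => |x m|) (fun _ => (1 : ℝ)) hpq
      have h3 : (∑ i ∈ V, |(1 : ℝ)| ^ qq p) ^ (1 / qq p) = (V.card : ℝ) ^ (1 - 1 / p) := by
        rw [inv_qq hp, one_div]
        congr 1
        rw [abs_one, Real.one_rpow, Finset.sum_const, nsmul_eq_mul, mul_one]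
      rw [h3] at h2
      simp only [mul_one, abs_abs] at h2
      rw [mul_comm]
      exact h2
    have h3 : np p V x ≤ np p s x := A1_np_set hp hV x
    calc kap p g V.card * ∑ m ∈ V, |x m|
        ≤ kap p g V.card * ((V.card : ℝ) ^ (1 - 1 / p) * np p V x) :=
          mul_le_mul_of_nonneg_left h1 (kap_nonneg hp g _)
      _ = (kap p g V.card * (V.card : ℝ) ^ (1 - 1 / p)) * np p V x := by ring
      _ ≤ Hm p g * np p s x :=
          mul_le_mul (le_trans (A2_kap_mul hp g _) (Hg_le_Hm hp g _)) h3 (np_nonneg p V x)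
            (by linarith)

end Pool.Agent.WBp
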