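import Pool.Agent.Lib.MP_c7fb7b_an_p.A1

/-!
# B2 (general exponent): the truncation lemma

Same as `MP_c7fb7b_an/B2.lean` (only the properties of the gauge from A1 are used).
-/

open Finset Filter Topology Pool.Agent.WB

namespace Pool.Agent.WBp

theorem lemT {p : ℝ} (hp : 1 < p) {k : ℕ → ℝ} (hk : ∀ v, 0 ≤ k v)
    (hk' : ∀ v w, 1 ≤ w → w ≤ v → k v ≤ k w) {c : ℝ → ℝ} {A : ℝ} (hA : 0 < A)
    (h0 : ∀ s, 0 ≤ c s) (h1 : ∀ s, c s ≤ 1) (hL : ∀ s t, |c s - c t| ≤ |s - t| / A)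
    (hc : ∀ s t, 2 * A ≤ s → 2 * A ≤ t → c s = c t) {x y : ℕ → ℝ} {δ : ℝ}
    (hδ : Bd (ga p k) (x - y) δ) :
    Bd (ga p k) (fun n => |c (hh p k x n) - c (hh p k y n)| * y n) (3 * δ) := by
  intro s
  have hδ0 : 0 ≤ δ := le_trans (ga_nonneg p k ∅ (x - y)) (hδ ∅)
  have hdiff : ∀ n, |hh p k x n - hh p k y n| ≤ δ := fun n =>
    le_trans (abs_hh_sub_le hp hk x y n) (hδ _)
  obtain ⟨z, hz⟩ : ∃ z : ℕ → ℝ, z = fun n => |c (hh p k x n) - c (hh p k y n)| * y n := ⟨_, rfl⟩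
  rw [← hz]
  have hzn : ∀ n, z n = |c (hh p k x n) - c (hh p k y n)| * y n := fun n => by rw [hz]
  have hne : ∀ n, z n ≠ 0 → hh p k y n < 2 * A + δ := by
    intro n hn
    by_contra hcon
    push Not at hcon
    apply hn
    have h2 := abs_le.mp (hdiff n)
    rw [hzn, hc (hh p k x n) (hh p k y n) (by linarith) (by linarith), sub_self, abs_zero, zero_mul]
  have he : ∀ n, |z n| ≤ min 1 (δ / A) * |y n| := by
    intro n
    rw [hzn, abs_mul, abs_abs]
    refine mul_le_mul_of_nonneg_right (le_min ?_ ?_) (abs_nonneg _)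
    · rw [abs_le]
      constructor <;> linarith [h0 (hh p k x n), h1 (hh p k x n), h0 (hh p k y n), h1 (hh p k y n)]
    · exact le_trans (hL _ _) (div_le_div_of_nonneg_right (hdiff n) hA.le)
  by_cases hs : (s.filter (fun n => z n ≠ 0)).Nonempty
  · obtain ⟨N, hN⟩ : ∃ N, N = (s.filter (fun n => z n ≠ 0)).max' hs := ⟨_, rfl⟩
    have hNm : N ∈ s.filter (fun n => z n ≠ 0) := by rw [hN]; exact Finset.max'_mem _ _
    have hzN : z N ≠ 0 := (Finset.mem_filter.mp hNm).2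
    have h3 : ga p k s z ≤ ga p k (range (N + 1)) z := by
      refine ga_restrict hp hk hk' fun m hm hm2 => ?_
      by_contra hzm
      apply hm2
      rw [Finset.mem_range]
      have : m ≤ N := by
        rw [hN]
        exact Finset.le_max' _ _ (Finset.mem_filter.mpr ⟨hm, hzm⟩)
      omega
    have h4 : ga p k (range (N + 1)) z ≤ min 1 (δ / A) * ga p k (range (N + 1)) y :=
      ga_smul hp hk (le_min zero_le_one (div_nonneg hδ0 hA.le)) fun m _ => he m
    have h5 : ga p k (range (N + 1)) y < 2 * A + δ := hne N hzN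
    have h6 : min 1 (δ / A) * ga p k (range (N + 1)) y ≤ 3 * δ := by
      have hg0 := ga_nonneg p k (range (N + 1)) y
      by_cases hδA : δ ≤ A
      · have h7 : min 1 (δ / A) * ga p k (range (N + 1)) y ≤ δ / A * (2 * A + δ) :=
          mul_le_mul (min_le_right _ _) h5.le hg0 (div_nonneg hδ0 hA.le)
        have h8 : δ / A * (2 * A + δ) ≤ 3 * δ := by
          rw [div_mul_eq_mul_div, div_le_iff₀ hA]
          nlinarith
        linarith
      · push Not at hδA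
        have h7 : min 1 (δ / A) * ga p k (range (N + 1)) y ≤ 1 * (2 * A + δ) :=
          mul_le_mul (min_le_left _ _) h5.le hg0 zero_le_one
        linarith
    linarith
  · rw [Finset.not_nonempty_iff_eq_empty, Finset.filter_eq_empty_iff] at hs
    have h3 : ga p k s z ≤ ga p k ∅ z := ga_restrict hp hk hk' fun m hm _ => by
      by_contra h4
      exact hs hm h4
    have h4 : ga p k ∅ z ≤ 3 * δ := by
      refine ga_le ?_ fun V hV => ?_
      · have hp0 : (1 / p : ℝ) ≠ 0 := by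
          have : 0 < p := by linarith
          positivity
        simp only [np, Finset.sum_empty]
        rw [Real.zero_rpow hp0]
        linarith
      · rw [Finset.subset_empty.mp hV, Finset.sum_empty, mul_zero]
        linarith
    linarith

theorem pb2_mul {p : ℝ} (hp : 1 < p) {k : ℕ → ℝ} (hk : ∀ v, 0 ≤ k v)
    (hk' : ∀ v w, 1 ≤ w → w ≤ v → k v ≤ k w) {c : ℝ → ℝ} {A : ℝ} (hA : 0 < A)
    (h0 : ∀ s, 0 ≤ c s) (h1 : ∀ s, c s ≤ 1) (hL : ∀ s t, |c s - c t| ≤ |s - t| / A)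
    (hc : ∀ s t, 2 * A ≤ s → 2 * A ≤ t → c s = c t) {x y : ℕ → ℝ} {δ : ℝ}
    (hδ : Bd (ga p k) (x - y) δ) :
    Bd (ga p k) (fun n => c (hh p k x n) * x n - c (hh p k y n) * y n) (4 * δ) := by
  intro s
  have h3 := lemT hp hk hk' hA h0 h1 hL hc hδ s
  have h4 := hδ s
  have h5 : ga p k s (fun n => c (hh p k x n) * x n - c (hh p k y n) * y n) ≤
      ga p k s (x - y) + ga p k s (fun n => |c (hh p k x n) - c (hh p k y n)| * y n) := by
    refine ga_add hp hk fun m _ => ?_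
    have e1 : c (hh p k x m) * x m - c (hh p k y m) * y m =
        c (hh p k x m) * (x - y) m + (c (hh p k x m) - c (hh p k y m)) * y m := by
      rw [Pi.sub_apply]; ring
    rw [e1]
    refine le_trans (abs_add_le _ _) (add_le_add ?_ ?_)
    · rw [abs_mul, abs_of_nonneg (h0 _)]
      exact mul_le_of_le_one_left (abs_nonneg _) (h1 _)
    · rw [abs_mul, abs_mul, abs_abs]
  linarith

theorem lemT_up {p : ℝ} (hp : 1 < p) {k : ℕ → ℝ} (hk : ∀ v, 0 ≤ k v)
    (hk' : ∀ v w, 1 ≤ w → w ≤ v → k v ≤ k w) {A : ℝ} (hA : 0 < A) {x y : ℕ → ℝ} {δ : ℝ}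
    (hδ : Bd (ga p k) (x - y) δ) :
    Bd (ga p k) (fun n => up A (hh p k x n) * x n - up A (hh p k y n) * y n) (4 * δ) := by
  exact pb2_mul hp hk hk' hA (up_nonneg A) (up_le_one A) (up_lip hA)
    (fun s t hs ht => by rw [up_of_ge hA hs, up_of_ge hA ht]) hδ

theorem lemT_dn {p : ℝ} (hp : 1 < p) {k : ℕ → ℝ} (hk : ∀ v, 0 ≤ k v)
    (hk' : ∀ v w, 1 ≤ w → w ≤ v → k v ≤ k w) {A : ℝ} (hA : 0 < A) {x y : ℕ → ℝ} {δ : ℝ}
    (hδ : Bd (ga p k) (x - y) δ) :
    Bd (ga p k) (fun n => dn A (hh p k x n) * x n - dn A (hh p k y n) * y n) (4 * δ) := by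
  exact pb2_mul hp hk hk' hA (dn_nonneg A) (dn_le_one A) (dn_lip hA)
    (fun s t hs ht => by rw [dn_of_ge hA hs, dn_of_ge hA ht]) hδ

/-- The window functions. -/
theorem lemT_chi {p : ℝ} (hp : 1 < p) {k : ℕ → ℝ} (hk : ∀ v, 0 ≤ k v)
    (hk' : ∀ v w, 1 ≤ w → w ≤ v → k v ≤ k w) {S S' : ℝ} (hS : 0 < S) (hS' : 0 < S')
    {x y : ℕ → ℝ} {δ : ℝ} (hδ : Bd (ga p k) (x - y) δ) :
    Bd (ga p k) (fun n => |chi S S' (hh p k x n) - chi S S' (hh p k y n)| * y n) (6 * δ) := by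
  intro s
  have hS2 : 0 < S / 2 := by linarith
  have h3 := lemT hp hk hk' hS2 (up_nonneg (S / 2)) (up_le_one (S / 2)) (up_lip hS2)
    (fun s t hs ht => by rw [up_of_ge hS2 hs, up_of_ge hS2 ht]) hδ s
  have h4 := lemT hp hk hk' hS' (dn_nonneg S') (dn_le_one S') (dn_lip hS')
    (fun s t hs ht => by rw [dn_of_ge hS' hs, dn_of_ge hS' ht]) hδ s
  have h5 : ga p k s (fun n => |chi S S' (hh p k x n) - chi S S' (hh p k y n)| * y n) ≤
      ga p k s (fun n => |up (S / 2) (hh p k x n) - up (S / 2) (hh p k y n)| * y n) +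
      ga p k s (fun n => |dn S' (hh p k x n) - dn S' (hh p k y n)| * y n) := by
    refine ga_add hp hk fun m _ => ?_
    rw [abs_mul, abs_mul, abs_mul, abs_abs, abs_abs, abs_abs, ← add_mul]
    exact mul_le_mul_of_nonneg_right (chi_diff _ _ _ _) (abs_nonneg _)
  linarith

end Pool.Agent.WBp
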