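import Pool.Agent.Lib.MP_c7fb7b_an_p.A1
import Pool.Agent.Lib.MP_c7fb7b_an_p.A2
import Pool.Agent.Lib.MP_c7fb7b_an.B3

/-!
# B3 (general exponent): star sums

Same as `MP_c7fb7b_an/B3.lean` (`dV_pos`, `dV_le_card`, `dV_mono` are taken from there).  Row and
column sums of `1/dV` are `≤ H0 (min V.card g)`, and `(1 - 1/p) * H0 (min V.card g) ≤ Hg p g V.card`.
-/

open Finset Filter Topology Pool.Agent.WB

namespace Pool.Agent.WBp

theorem pb3_c0 {p : ℝ} (hp : 1 < p) : 0 ≤ 1 - 1 / p := by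
  have h : 1 / p ≤ 1 := by
    rw [div_le_one (by linarith)]
    exact hp.le
  linarith

theorem pb3_c1 {p : ℝ} (hp : 1 < p) : 1 - 1 / p ≤ 1 := by
  have h : 0 < 1 / p := by
    have : 0 < p := by linarith
    positivity
  linarith

theorem row_sum_le {p : ℝ} (hp : 1 < p) (g : ℕ) (V : Finset ℕ) (b : ℕ) :
    (1 - 1 / p) * ∑ n ∈ V, (if b < n ∧ dV V b n ≤ g then 1 / (dV V b n : ℝ) else 0) ≤
      Hg p g V.card := by
  refine le_trans (mul_le_mul_of_nonneg_left ?_ (pb3_c0 hp)) (H0_le_Hm hp (min V.card g))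
  rw [← Finset.sum_filter]
  refine inj_sum _ (fun n => dV V b n) _ ?_ ?_ ?_
  · intro n hn
    obtain ⟨h1, h2, h3⟩ := Finset.mem_filter.mp hn
    exact dV_pos h1 h2
  · intro n hn
    obtain ⟨h1, h2, h3⟩ := Finset.mem_filter.mp hn
    exact le_min (dV_le_card V b n) h3
  · have key : ∀ n ∈ V, ∀ n' ∈ V, b < n → n < n' → dV V b n < dV V b n' := by
      intro n hn n' hn' hb hnn'
      refine Finset.card_lt_card ?_
      rw [Finset.ssubset_iff_of_subset]
      · exact ⟨n', Finset.mem_filter.mpr ⟨hn', by omega, le_rfl⟩, fun h =>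
          absurd (Finset.mem_filter.mp h).2.2 (by omega)⟩
      · intro m hm
        obtain ⟨h1, h2, h3⟩ := Finset.mem_filter.mp hm
        exact Finset.mem_filter.mpr ⟨h1, h2, by omega⟩
    intro n hn n' hn' hnn'
    obtain ⟨h1, h2, h3⟩ := Finset.mem_filter.mp (Finset.mem_coe.mp hn)
    obtain ⟨h4, h5, h6⟩ := Finset.mem_filter.mp (Finset.mem_coe.mp hn')
    simp only at hnn'
    rcases lt_trichotomy n n' with h7 | h7 | h7
    · have := key n h1 n' h4 h2 h7
      omega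
    · exact h7
    · have := key n' h4 n h1 h5 h7
      omega

theorem col_sum_le {p : ℝ} (hp : 1 < p) (g : ℕ) (V : Finset ℕ) (n : ℕ) (hn : n ∈ V) :
    (1 - 1 / p) * ∑ b ∈ V, (if b < n ∧ dV V b n ≤ g then 1 / (dV V b n : ℝ) else 0) ≤
      Hg p g V.card := by
  refine le_trans (mul_le_mul_of_nonneg_left ?_ (pb3_c0 hp)) (H0_le_Hm hp (min V.card g))
  rw [← Finset.sum_filter]
  refine inj_sum _ (fun b => dV V b n) _ ?_ ?_ ?_
  · intro b hb
    obtain ⟨h1, h2, h3⟩ := Finset.mem_filter.mp hb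
    exact dV_pos hn h2
  · intro b hb
    obtain ⟨h1, h2, h3⟩ := Finset.mem_filter.mp hb
    exact le_min (dV_le_card V b n) h3
  · have key : ∀ b ∈ V, ∀ b' ∈ V, b' < n → b < b' → dV V b' n < dV V b n := by
      intro b hb b' hb' hb'n hbb'
      refine Finset.card_lt_card ?_
      rw [Finset.ssubset_iff_of_subset]
      · exact ⟨b', Finset.mem_filter.mpr ⟨hb', hbb', by omega⟩, fun h =>
          absurd (Finset.mem_filter.mp h).2.1 (by omega)⟩
      · intro m hm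
        obtain ⟨h1, h2, h3⟩ := Finset.mem_filter.mp hm
        exact Finset.mem_filter.mpr ⟨h1, by omega, h3⟩
    intro b hb b' hb' hbb'
    obtain ⟨h1, h2, h3⟩ := Finset.mem_filter.mp (Finset.mem_coe.mp hb)
    obtain ⟨h4, h5, h6⟩ := Finset.mem_filter.mp (Finset.mem_coe.mp hb')
    simp only at hbb'
    rcases lt_trichotomy b b' with h7 | h7 | h7
    · have := key b h1 b' h4 h5 h7
      omega
    · exact h7
    · have := key b' h4 b h1 h2 h7
      omega

theorem NV_star {p : ℝ} (hp : 1 < p) (g : ℕ) (V : Finset ℕ) (y : ℕ × ℕ → ℝ) (u u' : ℕ → ℝ)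
    {C C' : ℝ} (h : ∀ b n, b < n → |y (b, n)| ≤ |u b| + |u' n|)
    (hu : Bd (ga p (kap p g)) u C) (hu' : Bd (ga p (kap p g)) u' C') :
    NV p g V y ≤ C + C' := by
  have hC : 0 ≤ C := le_trans (ga_nonneg p _ ∅ _) (hu ∅)
  have hC' : 0 ≤ C' := le_trans (ga_nonneg p _ ∅ _) (hu' ∅)
  have hc := pb3_c0 hp
  obtain ⟨c, hcdef⟩ : ∃ c, c = 1 - 1 / p := ⟨_, rfl⟩
  obtain ⟨W, hW⟩ : ∃ W, W = ((V.card : ℝ) ^ (1 - 1 / p))⁻¹ := ⟨_, rfl⟩
  have h6 : 0 ≤ W := by
    rw [hW]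
    exact inv_nonneg.mpr (Real.rpow_nonneg (Nat.cast_nonneg _) _)
  have h1 : ∑ b ∈ V, ∑ n ∈ V, (if b < n ∧ dV V b n ≤ g then |y (b, n)| / (dV V b n : ℝ) else 0) ≤
      ∑ b ∈ V, ∑ n ∈ V, (|u b| * (if b < n ∧ dV V b n ≤ g then 1 / (dV V b n : ℝ) else 0) +
        |u' n| * (if b < n ∧ dV V b n ≤ g then 1 / (dV V b n : ℝ) else 0)) := by
    refine Finset.sum_le_sum fun b _ => Finset.sum_le_sum fun n _ => ?_
    split_ifs with h2
    · rw [← add_mul, mul_one_div]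
      exact div_le_div_of_nonneg_right (h b n h2.1) (Nat.cast_nonneg _)
    · simp
  have h2 : (1 - 1 / p) * ∑ b ∈ V, ∑ n ∈ V, |u b| *
      (if b < n ∧ dV V b n ≤ g then 1 / (dV V b n : ℝ) else 0) ≤
      Hg p g V.card * ∑ b ∈ V, |u b| := by
    rw [Finset.mul_sum, Finset.mul_sum]
    refine Finset.sum_le_sum fun b _ => ?_
    rw [← Finset.mul_sum, mul_left_comm, mul_comm (Hg p g V.card)]
    exact mul_le_mul_of_nonneg_left (row_sum_le hp g V b) (abs_nonneg _)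
  have h3 : (1 - 1 / p) * ∑ b ∈ V, ∑ n ∈ V, |u' n| *
      (if b < n ∧ dV V b n ≤ g then 1 / (dV V b n : ℝ) else 0) ≤
      Hg p g V.card * ∑ n ∈ V, |u' n| := by
    rw [Finset.sum_comm, Finset.mul_sum, Finset.mul_sum]
    refine Finset.sum_le_sum fun n hn => ?_
    rw [← Finset.mul_sum, mul_left_comm, mul_comm (Hg p g V.card)]
    exact mul_le_mul_of_nonneg_left (col_sum_le hp g V n hn) (abs_nonneg _)
  have h4 : kap p g V.card * ∑ b ∈ V, |u b| ≤ C :=
    le_trans (V_le_ga p _ (le_refl V) u) (hu V)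
  have h5 : kap p g V.card * ∑ n ∈ V, |u' n| ≤ C' :=
    le_trans (V_le_ga p _ (le_refl V) u') (hu' V)
  simp only [Finset.sum_add_distrib] at h1
  have h7 := mul_le_mul_of_nonneg_left h1 hc
  rw [mul_add] at h7
  unfold NV
  rw [mul_comm (1 - 1 / p), mul_assoc, ← hW]
  calc W * ((1 - 1 / p) * ∑ b ∈ V, ∑ n ∈ V,
        (if b < n ∧ dV V b n ≤ g then |y (b, n)| / (dV V b n : ℝ) else 0))
      ≤ W * (Hg p g V.card * ∑ b ∈ V, |u b| + Hg p g V.card * ∑ n ∈ V, |u' n|) :=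
        mul_le_mul_of_nonneg_left (by linarith) h6
    _ = kap p g V.card * ∑ b ∈ V, |u b| + kap p g V.card * ∑ n ∈ V, |u' n| := by
        unfold kap
        rw [hW]
        ring
    _ ≤ C + C' := add_le_add h4 h5

theorem NV_row {p : ℝ} (hp : 1 < p) (g : ℕ) (V R : Finset ℕ) (y : ℕ × ℕ → ℝ) (r : ℕ → ℝ)
    (hr : ∀ b, 0 ≤ r b) (h : ∀ b n, b < n → b ∈ R → |y (b, n)| ≤ r b)
    (h0 : ∀ b n, b ∉ R → y (b, n) = 0) : NV p g V y ≤ 2 * ∑ b ∈ R, r b := by
  have hc := pb3_c0 hp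
  obtain ⟨W, hW⟩ : ∃ W, W = ((V.card : ℝ) ^ (1 - 1 / p))⁻¹ := ⟨_, rfl⟩
  have h6 : 0 ≤ W := by
    rw [hW]
    exact inv_nonneg.mpr (Real.rpow_nonneg (Nat.cast_nonneg _) _)
  have h1 : ∀ b ∈ V, (1 - 1 / p) *
      ∑ n ∈ V, (if b < n ∧ dV V b n ≤ g then |y (b, n)| / (dV V b n : ℝ) else 0) ≤
      if b ∈ R then r b * Hg p g V.card else 0 := by
    intro b _
    by_cases hb : b ∈ R
    · rw [if_pos hb]
      calc (1 - 1 / p) *
          ∑ n ∈ V, (if b < n ∧ dV V b n ≤ g then |y (b, n)| / (dV V b n : ℝ) else 0)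
          ≤ (1 - 1 / p) *
            ∑ n ∈ V, r b * (if b < n ∧ dV V b n ≤ g then 1 / (dV V b n : ℝ) else 0) := by
            refine mul_le_mul_of_nonneg_left (Finset.sum_le_sum fun n _ => ?_) hc
            split_ifs with h2
            · rw [mul_one_div]
              exact div_le_div_of_nonneg_right (h b n h2.1 hb) (Nat.cast_nonneg _)
            · simp
        _ ≤ r b * Hg p g V.card := by
            rw [← Finset.mul_sum, mul_left_comm]
            exact mul_le_mul_of_nonneg_left (row_sum_le hp g V b) (hr b)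
    · rw [if_neg hb]
      refine le_of_eq ?_
      rw [Finset.sum_eq_zero, mul_zero]
      intro n _
      rw [h0 b n hb]
      simp
  unfold NV
  rw [mul_comm (1 - 1 / p), mul_assoc, ← hW, Finset.mul_sum]
  calc W * ∑ b ∈ V, (1 - 1 / p) * ∑ n ∈ V,
        (if b < n ∧ dV V b n ≤ g then |y (b, n)| / (dV V b n : ℝ) else 0)
      ≤ W * ∑ b ∈ V, (if b ∈ R then r b * Hg p g V.card else 0) :=
        mul_le_mul_of_nonneg_left (Finset.sum_le_sum h1) h6
    _ = ∑ b ∈ V, (if b ∈ R then r b * kap p g V.card else 0) := by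
        rw [Finset.mul_sum]
        refine Finset.sum_congr rfl fun b _ => ?_
        split_ifs
        · unfold kap
          rw [hW]
          ring
        · simp
    _ ≤ ∑ b ∈ V, (if b ∈ R then 2 * r b else 0) := by
        refine Finset.sum_le_sum fun b _ => ?_
        split_ifs
        · have := mul_le_mul_of_nonneg_left (kap_le_two hp g V.card) (hr b)
          linarith
        · exact le_rfl
    _ = ∑ b ∈ V.filter (· ∈ R), 2 * r b := by rw [Finset.sum_filter]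
    _ ≤ ∑ b ∈ R, 2 * r b := Finset.sum_le_sum_of_subset_of_nonneg
        (fun m hm => (Finset.mem_filter.mp hm).2) fun i _ _ => by have := hr i; linarith
    _ = 2 * ∑ b ∈ R, r b := by rw [Finset.mul_sum]

theorem NV_le_sum {p : ℝ} (hp : 1 < p) (g : ℕ) (V : Finset ℕ) (y : ℕ × ℕ → ℝ)
    (F : Finset (ℕ × ℕ)) (h : ∀ e, e ∉ F → y e = 0) : NV p g V y ≤ ∑ e ∈ F, |y e| := by
  unfold NV
  rcases V.eq_empty_or_nonempty with rfl | hV
  · simp
    exact Finset.sum_nonneg fun e _ => abs_nonneg _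
  have hc := pb3_c0 hp
  have hc1 := pb3_c1 hp
  have hcard : (1 : ℝ) ≤ (V.card : ℝ) := by exact_mod_cast Finset.card_pos.mpr hV
  have h6 : 0 ≤ ((V.card : ℝ) ^ (1 - 1 / p))⁻¹ :=
    inv_nonneg.mpr (Real.rpow_nonneg (Nat.cast_nonneg _) _)
  have h7' : ((V.card : ℝ) ^ (1 - 1 / p))⁻¹ ≤ 1 :=
    inv_le_one_of_one_le₀ (Real.one_le_rpow hcard hc)
  have h7 : (1 - 1 / p) * ((V.card : ℝ) ^ (1 - 1 / p))⁻¹ ≤ 1 := by
    calc (1 - 1 / p) * ((V.card : ℝ) ^ (1 - 1 / p))⁻¹ ≤ 1 * 1 :=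
          mul_le_mul hc1 h7' h6 zero_le_one
      _ = 1 := one_mul 1
  have h1 : ∑ b ∈ V, ∑ n ∈ V, (if b < n ∧ dV V b n ≤ g then |y (b, n)| / (dV V b n : ℝ) else 0) ≤
      ∑ e ∈ F, |y e| := by
    rw [← Finset.sum_product']
    calc ∑ e ∈ V ×ˢ V, (if e.1 < e.2 ∧ dV V e.1 e.2 ≤ g then |y (e.1, e.2)| / (dV V e.1 e.2 : ℝ)
          else 0) ≤ ∑ e ∈ V ×ˢ V, (if e ∈ F then |y e| else 0) := by
          refine Finset.sum_le_sum fun e he => ?_
          have hee : (e.1, e.2) = e := rfl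
          by_cases heF : e ∈ F
          · rw [if_pos heF]
            split_ifs with h2
            · have h3 : 1 ≤ dV V e.1 e.2 := dV_pos (Finset.mem_product.mp he).2 h2.1
              exact div_le_self (abs_nonneg _) (by exact_mod_cast h3)
            · exact abs_nonneg _
          · rw [if_neg heF, hee, h e heF]
            simp
      _ = ∑ e ∈ (V ×ˢ V).filter (· ∈ F), |y e| := by rw [Finset.sum_filter]
      _ ≤ ∑ e ∈ F, |y e| := Finset.sum_le_sum_of_subset_of_nonneg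
          (fun m hm => (Finset.mem_filter.mp hm).2) fun i _ _ => abs_nonneg _
  have h8 : 0 ≤ ∑ b ∈ V, ∑ n ∈ V,
      (if b < n ∧ dV V b n ≤ g then |y (b, n)| / (dV V b n : ℝ) else 0) := by
    refine Finset.sum_nonneg fun b _ => Finset.sum_nonneg fun n _ => ?_
    split_ifs
    · positivity
    · exact le_rfl
  calc ((1 - 1 / p) * ((V.card : ℝ) ^ (1 - 1 / p))⁻¹) * ∑ b ∈ V, ∑ n ∈ V,
        (if b < n ∧ dV V b n ≤ g then |y (b, n)| / (dV V b n : ℝ) else 0)
      ≤ 1 * ∑ b ∈ V, ∑ n ∈ V,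
        (if b < n ∧ dV V b n ≤ g then |y (b, n)| / (dV V b n : ℝ) else 0) :=
        mul_le_mul_of_nonneg_right h7 h8
    _ ≤ _ := by rw [one_mul]; exact h1

end Pool.Agent.WBp
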