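import Pool.Agent.Lib.MP_c7fb7b_an_p.B2
import Pool.Agent.Lib.MP_c7fb7b_an_p.B3

/-!
# B4 (general exponent): the edge components are Lipschitz

Same as `MP_c7fb7b_an/B4.lean`.  Active rows: `card A_u * τ^p ≤ ∑_{b ∈ range m} (u b)^p ≤ (2S')^p`,
so `card A_u ≤ (2S'/τ)^p = (2 * 2^i)^p = 2^(p (i+1))`; at most `GG p i` terms, each `≤ 8δ`.
-/

open Finset Filter Topology Pool.Agent.WB

namespace Pool.Agent.WBp

theorem pb4_Hm {p : ℝ} (hp : 1 < p) (g : ℕ) : 0 < Hm p g := by
  have := one_le_Hm hp g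
  linarith

theorem pb4_Lam {p : ℝ} (hp : 1 < p) (g : ℕ) : 0 < Lam p g := by
  unfold Lam
  have := pb4_Hm hp g
  linarith

theorem pb4_tau {p : ℝ} (hp : 1 < p) (g t i : ℕ) : 0 < tau p g t i := by
  unfold tau
  have := pb4_Lam hp g
  positivity

theorem pb4_Bc {p : ℝ} (hp : 1 < p) (g t : ℕ) : 0 ≤ Bc p g t := by
  unfold Bc
  have h1 := pb4_Lam hp g
  have h2 := pb4_Hm hp g
  positivity

theorem pb4_entry {p : ℝ} (hp : 1 < p) (g t i : ℕ) (u v : ℕ → ℝ) (hv : ∀ n, 0 ≤ v n) (b n : ℕ)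
    (hbn : b < n) :
    |(Kmap p g t i u - Kmap p g t i v) (b, n)| ≤ |(u - v) b| + (|(u - v) n| +
      |chi (Lam p g ^ t) (Lam p g ^ (t + 2)) (hh p (kap p g) u n) -
        chi (Lam p g ^ t) (Lam p g ^ (t + 2)) (hh p (kap p g) v n)| * v n) := by
  have hτ := pb4_tau hp g t i
  have hB := pb4_Bc hp g t
  rw [Pi.sub_apply]
  unfold Kmap
  simp only [if_pos hbn]
  set a := chi (Lam p g ^ t) (Lam p g ^ (t + 2)) (hh p (kap p g) u n) with ha
  set a' := chi (Lam p g ^ t) (Lam p g ^ (t + 2)) (hh p (kap p g) v n) with ha'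
  have e1 : a * min (bet (tau p g t i) (Bc p g t) (u b)) (bet (tau p g t i) (Bc p g t) (u n)) -
      a' * min (bet (tau p g t i) (Bc p g t) (v b)) (bet (tau p g t i) (Bc p g t) (v n)) =
      a * (min (bet (tau p g t i) (Bc p g t) (u b)) (bet (tau p g t i) (Bc p g t) (u n)) -
        min (bet (tau p g t i) (Bc p g t) (v b)) (bet (tau p g t i) (Bc p g t) (v n))) +
      (a - a') * min (bet (tau p g t i) (Bc p g t) (v b)) (bet (tau p g t i) (Bc p g t) (v n)) := by
    ring
  rw [e1]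
  have h1 : |min (bet (tau p g t i) (Bc p g t) (u b)) (bet (tau p g t i) (Bc p g t) (u n)) -
        min (bet (tau p g t i) (Bc p g t) (v b)) (bet (tau p g t i) (Bc p g t) (v n))| ≤
        |(u - v) b| + |(u - v) n| := by
    refine le_trans (abs_min_sub_min_le_max _ _ _ _) (max_le ?_ ?_)
    · refine le_trans (bet_lip _ _ _ _) ?_
      rw [Pi.sub_apply]
      exact le_add_of_nonneg_right (abs_nonneg _)
    · refine le_trans (bet_lip _ _ _ _) ?_
      rw [Pi.sub_apply, Pi.sub_apply]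
      exact le_add_of_nonneg_left (abs_nonneg _)
  have h2 : 0 ≤ min (bet (tau p g t i) (Bc p g t) (v b)) (bet (tau p g t i) (Bc p g t) (v n)) :=
    le_min (bet_nonneg (mul_nonneg hB hτ.le) _) (bet_nonneg (mul_nonneg hB hτ.le) _)
  have h3 : min (bet (tau p g t i) (Bc p g t) (v b)) (bet (tau p g t i) (Bc p g t) (v n)) ≤ v n :=
    le_trans (min_le_right _ _) (bet_le hτ.le (hv n))
  have ha0 : 0 ≤ a := chi_nonneg _ _ _
  have ha1 : a ≤ 1 := chi_le_one _ _ _
  refine le_trans (abs_add_le _ _) ?_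
  rw [abs_mul, abs_mul, abs_of_nonneg ha0, abs_of_nonneg h2, ← add_assoc]
  refine add_le_add ?_ (mul_le_mul_of_nonneg_left h3 (abs_nonneg _))
  exact le_trans (mul_le_of_le_one_left (abs_nonneg _) ha1) h1

theorem pb4_card {p : ℝ} (hp : 1 < p) (g t i : ℕ) (w : ℕ → ℝ) (m : ℕ) (nn : ℕ → ℕ) :
    (((range m).filter (fun b => Kmap p g t i w (b, max m (nn b)) ≠ 0)).card : ℝ) ≤
      (2 : ℝ) ^ (p * ((i : ℝ) + 1)) := by
  have hp0 : 0 < p := by linarith
  have hτ := pb4_tau hp g t i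
  have hB := pb4_Bc hp g t
  have hL := pb4_Lam hp g
  have hS' : 0 < Lam p g ^ (t + 2) := pow_pos hL _
  obtain ⟨A, hA⟩ : ∃ A, A = (range m).filter (fun b => Kmap p g t i w (b, max m (nn b)) ≠ 0) :=
    ⟨_, rfl⟩
  rw [← hA]
  have hact : ∀ b ∈ A, b < m ∧ tau p g t i < w b ∧
      hh p (kap p g) w (max m (nn b)) < 2 * Lam p g ^ (t + 2) := by
    intro b hb
    rw [hA, Finset.mem_filter, Finset.mem_range] at hb
    obtain ⟨hbm, hne⟩ := hb
    have hbn : b < max m (nn b) := lt_of_lt_of_le hbm (le_max_left _ _)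
    refine ⟨hbm, ?_, ?_⟩
    · by_contra hcon
      push Not at hcon
      apply hne
      unfold Kmap
      simp only [if_pos hbn]
      rw [bet_of_le (mul_nonneg hB hτ.le) hcon,
        min_eq_left (bet_nonneg (mul_nonneg hB hτ.le) _), mul_zero]
    · by_contra hcon
      push Not at hcon
      apply hne
      unfold Kmap
      simp only [if_pos hbn]
      rw [chi_of_ge hS' hcon, zero_mul]
  rcases A.eq_empty_or_nonempty with hAe | ⟨b0, hb0⟩
  · rw [hAe, Finset.card_empty, Nat.cast_zero]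
    positivity
  · obtain ⟨h1, _, h3⟩ := hact b0 hb0
    obtain ⟨m', rfl⟩ : ∃ m', m = m' + 1 := ⟨m - 1, by omega⟩
    have h4 : hh p (kap p g) w m' < 2 * Lam p g ^ (t + 2) :=
      lt_of_le_of_lt (hh_mono hp (kap_nonneg hp g) w
        (le_trans (Nat.le_succ m') (le_max_left _ _))) h3
    have h5 : np p (range (m' + 1)) w ≤ 2 * Lam p g ^ (t + 2) :=
      le_trans (np_le_ga p (kap p g) (range (m' + 1)) w) h4.le
    have hs0 : 0 ≤ ∑ b ∈ range (m' + 1), |w b| ^ p :=
      Finset.sum_nonneg (fun b _ => Real.rpow_nonneg (abs_nonneg _) _)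
    have h6 : ∑ b ∈ range (m' + 1), |w b| ^ p ≤ (2 * Lam p g ^ (t + 2)) ^ p := by
      have h6' := Real.rpow_le_rpow (np_nonneg p _ _) h5 hp0.le
      unfold np at h6'
      rw [← Real.rpow_mul hs0, one_div, inv_mul_cancel₀ hp0.ne', Real.rpow_one] at h6'
      exact h6'
    have h7 : (A.card : ℝ) * tau p g t i ^ p ≤ ∑ b ∈ range (m' + 1), |w b| ^ p := by
      calc (A.card : ℝ) * tau p g t i ^ p = ∑ b ∈ A, tau p g t i ^ p := by
            rw [Finset.sum_const, nsmul_eq_mul]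
        _ ≤ ∑ b ∈ A, |w b| ^ p := Finset.sum_le_sum fun b hb =>
            Real.rpow_le_rpow hτ.le ((hact b hb).2.1.le.trans (le_abs_self _)) hp0.le
        _ ≤ ∑ b ∈ range (m' + 1), |w b| ^ p := Finset.sum_le_sum_of_subset_of_nonneg
            (by rw [hA]; exact Finset.filter_subset _ _)
            fun _ _ _ => Real.rpow_nonneg (abs_nonneg _) _
    have h8 : (2 * Lam p g ^ (t + 2)) ^ p = (2 : ℝ) ^ (p * ((i : ℝ) + 1)) * tau p g t i ^ p := by
      have h9 : 2 * Lam p g ^ (t + 2) = (2 : ℝ) ^ ((i : ℝ) + 1) * tau p g t i := by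
        have h10 : (2 : ℝ) ^ ((i : ℝ) + 1) = 2 ^ (i + 1) := by
          rw [← Real.rpow_natCast]
          push_cast
          rfl
        rw [h10]
        unfold tau
        have h11 : ((1 : ℝ) / 2) ^ i * 2 ^ i = 1 := by
          rw [← mul_pow]; norm_num
        rw [pow_succ]
        linear_combination (-2 * Lam p g ^ (t + 2)) * h11
      rw [h9, Real.mul_rpow (by positivity) hτ.le, ← Real.rpow_mul (by norm_num), mul_comm p]
    have h10 : (A.card : ℝ) * tau p g t i ^ p ≤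
        (2 : ℝ) ^ (p * ((i : ℝ) + 1)) * tau p g t i ^ p := by linarith
    exact le_of_mul_le_mul_right h10 (by positivity)

theorem K_lip {p : ℝ} (hp : 1 < p) (g t i : ℕ) (u v : ℕ → ℝ) (hu : ∀ n, 0 ≤ u n)
    (hv : ∀ n, 0 ≤ v n) {δ : ℝ} (hδ : Bd (ga p (kap p g)) (u - v) δ) :
    Bd (EN p g (GG p i)) (Kmap p g t i u - Kmap p g t i v) (8 * δ) := by
  have hδ0 : 0 ≤ δ := le_trans (ga_nonneg p (kap p g) ∅ (u - v)) (hδ ∅)
  have hL := pb4_Lam hp g
  have hT := lemT_chi hp (kap_nonneg hp g) (kap_anti hp g) (S := Lam p g ^ t) (S' := Lam p g ^ (t + 2))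
    (pow_pos hL _) (pow_pos hL _) hδ
  obtain ⟨T, hTd⟩ : ∃ T : ℕ → ℝ, T = fun n => |chi (Lam p g ^ t) (Lam p g ^ (t + 2)) (hh p (kap p g) u n) -
        chi (Lam p g ^ t) (Lam p g ^ (t + 2)) (hh p (kap p g) v n)| * v n := ⟨_, rfl⟩
  rw [← hTd] at hT
  have hT0 : ∀ n, 0 ≤ T n := fun n => by
    rw [hTd]
    exact mul_nonneg (abs_nonneg _) (hv n)
  have hent : ∀ b n, b < n → |(Kmap p g t i u - Kmap p g t i v) (b, n)| ≤
      |(u - v) b| + (|(u - v) n| + T n) := by
    intro b n hbn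
    rw [hTd]
    exact pb4_entry hp g t i u v hv b n hbn
  have hent8 : ∀ b n, |(Kmap p g t i u - Kmap p g t i v) (b, n)| ≤ 8 * δ := by
    intro b n
    by_cases hbn : b < n
    · have h1 := hent b n hbn
      have h2 : |(u - v) b| ≤ δ := le_trans (abs_le_ga hp (kap p g) (mem_singleton_self b) (u - v)) (hδ _)
      have h3 : |(u - v) n| ≤ δ := le_trans (abs_le_ga hp (kap p g) (mem_singleton_self n) (u - v)) (hδ _)
      have h4 : |T n| ≤ 6 * δ := le_trans (abs_le_ga hp (kap p g) (mem_singleton_self n) T) (hT _)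
      have h5 := le_abs_self (T n)
      linarith
    · rw [Pi.sub_apply]
      unfold Kmap
      simp only [if_neg hbn, sub_self, abs_zero]
      linarith
  intro j
  unfold EN
  split_ifs with hj
  · have h7 : Bd (ga p (kap p g)) (fun n => |(u - v) n| + T n) (7 * δ) := by
      intro s
      have h8 : ga p (kap p g) s (fun n => |(u - v) n| + T n) ≤ ga p (kap p g) s (u - v) +
          ga p (kap p g) s T := by
        refine ga_add hp (kap_nonneg hp g) fun m _ => ?_
        refine le_trans (abs_add_le _ _) ?_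
        rw [abs_abs]
      have h9 := hδ s
      have h10 := hT s
      linarith
    have h8 := NV_star hp g j.2.1 (Kmap p g t i u - Kmap p g t i v) (u - v)
      (fun n => |(u - v) n| + T n) (fun b n hbn => by
        have h9 := hent b n hbn
        refine le_trans h9 (add_le_add le_rfl (le_abs_self _))) hδ h7
    linarith
  · unfold N1
    have hG : (0 : ℝ) < GG p i := by unfold GG; positivity
    obtain ⟨m, hm⟩ : ∃ m, m = j.2.2.1 := ⟨_, rfl⟩
    obtain ⟨nn, hnn⟩ : ∃ nn, nn = j.2.2.2 := ⟨_, rfl⟩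
    rw [← hm, ← hnn]
    rw [inv_mul_le_iff₀ hG]
    obtain ⟨P, hP⟩ : ∃ P : Finset ℕ, P = (range m).filter
      (fun b => Kmap p g t i u (b, max m (nn b)) ≠ 0) := ⟨_, rfl⟩
    obtain ⟨R, hR⟩ : ∃ R : Finset ℕ, R = (range m).filter
      (fun b => Kmap p g t i v (b, max m (nn b)) ≠ 0) := ⟨_, rfl⟩
    have c1' : (P.card : ℝ) ≤ (2 : ℝ) ^ (p * ((i : ℝ) + 1)) := by
      rw [hP]; exact pb4_card hp g t i u m nn
    have c2' : (R.card : ℝ) ≤ (2 : ℝ) ^ (p * ((i : ℝ) + 1)) := by
      rw [hR]; exact pb4_card hp g t i v m nn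
    have h1 : ∑ b ∈ range m, |(Kmap p g t i u - Kmap p g t i v) (b, max m (nn b))| ≤
        ∑ b ∈ range m, ((if b ∈ P then 8 * δ else 0) + (if b ∈ R then 8 * δ else 0)) := by
      refine Finset.sum_le_sum fun b hb => ?_
      by_cases hbP : b ∈ P
      · rw [if_pos hbP]
        refine le_trans (hent8 _ _) (le_add_of_nonneg_right ?_)
        split_ifs
        · linarith
        · exact le_rfl
      · by_cases hbR : b ∈ R
        · rw [if_neg hbP, if_pos hbR, zero_add]
          exact hent8 _ _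
        · rw [if_neg hbP, if_neg hbR, add_zero]
          rw [hP, Finset.mem_filter] at hbP
          rw [hR, Finset.mem_filter] at hbR
          push Not at hbP hbR
          rw [Pi.sub_apply, hbP hb, hbR hb, sub_zero, abs_zero]
    have h2 : ∑ b ∈ range m, ((if b ∈ P then 8 * δ else 0) + (if b ∈ R then 8 * δ else 0)) =
        (P.card : ℝ) * (8 * δ) + (R.card : ℝ) * (8 * δ) := by
      rw [Finset.sum_add_distrib, ← Finset.sum_filter, ← Finset.sum_filter, Finset.sum_const,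
        Finset.sum_const, nsmul_eq_mul, nsmul_eq_mul]
      have e1 : (range m).filter (· ∈ P) = P := by
        rw [Finset.filter_mem_eq_inter]
        exact Finset.inter_eq_right.mpr (by rw [hP]; exact Finset.filter_subset _ _)
      have e2 : (range m).filter (· ∈ R) = R := by
        rw [Finset.filter_mem_eq_inter]
        exact Finset.inter_eq_right.mpr (by rw [hR]; exact Finset.filter_subset _ _)
      rw [e1, e2]
    have h3 : (P.card : ℝ) * (8 * δ) ≤ (2 : ℝ) ^ (p * ((i : ℝ) + 1)) * (8 * δ) :=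
      mul_le_mul_of_nonneg_right c1' (by linarith)
    have h4 : (R.card : ℝ) * (8 * δ) ≤ (2 : ℝ) ^ (p * ((i : ℝ) + 1)) * (8 * δ) :=
      mul_le_mul_of_nonneg_right c2' (by linarith)
    have h5 : GG p i * (8 * δ) = (2 : ℝ) ^ (p * ((i : ℝ) + 1)) * (8 * δ) +
        (2 : ℝ) ^ (p * ((i : ℝ) + 1)) * (8 * δ) := by
      unfold GG; ring
    linarith

end Pool.Agent.WBp
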