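import Pool.Agent.Lib.MP_c7fb7b_an_p.A2
import Pool.Agent.Lib.MP_c7fb7b_an.C1

/-!
# C1 (general exponent): lower bound for the full kernel sum

From `MP_c7fb7b_an/C1.lean` (there `c1_total`; here with `H0`): `∑∑ 1/dV ≥ (v/4) H0 (min v g)` for
`v = V.card ≥ 2`; and `(1-1/p) H0 (1 + qq) ≥ 1 + (1-1/p) H0 = Hg` because `H0 (min v g) ≥ 1` and
`(1-1/p) qq = 1`.
-/

open Finset Filter Topology Pool.Agent.WB

namespace Pool.Agent.WBp

theorem kernel_lower {p : ℝ} (hp : 1 < p) (g : ℕ) (hg : 1 ≤ g) (V : Finset ℕ)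
    (hV : 2 ≤ V.card) :
    (V.card : ℝ) / (4 * (1 + qq p)) * Hg p g V.card ≤
      (1 - 1 / p) *
        ∑ b ∈ V, ∑ n ∈ V, (if b < n ∧ dV V b n ≤ g then 1 / (dV V b n : ℝ) else 0) := by
  have hq : 0 < qq p := lt_of_lt_of_le one_pos (one_le_qq hp)
  have he : 1 - 1 / p = (qq p)⁻¹ := inv_qq hp
  have hH : 1 ≤ H0 (min V.card g) := one_le_H0 (le_min (by omega) hg)
  have h4 : Hg p g V.card = 1 + (qq p)⁻¹ * H0 (min V.card g) := by
    unfold Hg Hm
    rw [he]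
  have h1 : (V.card : ℝ) / 4 * H0 (min V.card g) ≤
      ∑ b ∈ V, ∑ n ∈ V, (if b < n ∧ dV V b n ≤ g then 1 / (dV V b n : ℝ) else 0) :=
    c1_lower g V hV
  rw [he]
  have hv0 : (0 : ℝ) ≤ (V.card : ℝ) := Nat.cast_nonneg _
  calc (V.card : ℝ) / (4 * (1 + qq p)) * Hg p g V.card
      ≤ (V.card : ℝ) / (4 * (1 + qq p)) * ((1 + qq p) * ((qq p)⁻¹ * H0 (min V.card g))) := by
        refine mul_le_mul_of_nonneg_left ?_ (by positivity)
        rw [h4]
        have : (1 + qq p) * ((qq p)⁻¹ * H0 (min V.card g)) =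
            (qq p)⁻¹ * H0 (min V.card g) + (qq p * (qq p)⁻¹) * H0 (min V.card g) := by ring
        rw [this, mul_inv_cancel₀ hq.ne', one_mul]
        linarith
    _ = (qq p)⁻¹ * ((V.card : ℝ) / 4 * H0 (min V.card g)) := by
        field_simp
    _ ≤ _ := mul_le_mul_of_nonneg_left h1 (by positivity)

end Pool.Agent.WBp
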