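import Pool.Agent.Lib.MP_c7fb7b_an_p.A1
import Pool.Agent.Lib.MP_c7fb7b_an_p.C1

/-!
# C2 (general exponent): detection by the edge components

Same as `MP_c7fb7b_an/C2.lean`.  `D A = ζ * (|A|^(1/p) * Hg p g |A|)`.  `|M| ≤ 2|M'|`: otherwise
`L = M \ M'` has `|L| ≥ |M|/2` and `B ζ |L|^(1/p) ≤ np p L u ≤ hh u N < S'`, but
`B ζ |L|^(1/p) ≥ B ζ |M|^(1/p) / 2 ≥ B/(2 Hm p g) = S'` (`D M ≥ 1`, `Hg ≤ Hm`).
`|M'| = 1`: `D M' = ζ Hg p g 1 ≤ 2 ζ ≤ 2 C'`.
`|M'| ≥ 2`: `C' ≥ (|M'|^(1-1/p))⁻¹ (ζ/2) (|M'|/(4(1+qq))) Hg = D M' / (8 (1+qq p))`.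
-/

open Finset Filter Topology Pool.Agent.WB

namespace Pool.Agent.WBp

theorem K_detect {p : ℝ} (hp : 1 < p) (g : ℕ) (hg : 1 ≤ g) (t : ℕ) (u v : ℕ → ℝ)
    (hu : ∀ n, 0 ≤ u n) (hv : ∀ n, 0 ≤ v n) (M : Finset ℕ) (ζ : ℝ) (hζ : 0 < ζ)
    (hM : ∀ n ∈ M, v n + ζ ≤ u n)
    (hw : ∀ n ∈ M, Lam p g ^ t ≤ hh p (kap p g) u n ∧ hh p (kap p g) u n < Lam p g ^ (t + 2))
    (C' : ℝ) (hbase : ∀ n, |u n - v n| ≤ C')
    (hK : ∀ i, Bd (EN p g (GG p i)) (Kmap p g t i u - Kmap p g t i v) C') :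
    ζ * ((M.card : ℝ) ^ (1 / p) * Hg p g M.card) ≤ 32 * (1 + qq p) * C' + 1 := by
  classical
  have hp0 : 0 < p := by linarith
  have hpi : 0 < 1 / p := by positivity
  have hqq := one_le_qq hp
  have hC' : 0 ≤ C' := (abs_nonneg _).trans (hbase 0)
  by_cases hD : ζ * ((M.card : ℝ) ^ (1 / p) * Hg p g M.card) < 1
  · have h0 : 0 ≤ 32 * (1 + qq p) * C' := by positivity
    linarith
  push Not at hD
  have hHm1 : 1 ≤ Hm p g := one_le_Hm hp g
  have hLam : 0 < Lam p g := by
    unfold Lam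
    linarith
  set S' : ℝ := Lam p g ^ (t + 2) with hS'
  have hS'pos : 0 < S' := pow_pos hLam _
  set B : ℝ := Bc p g t with hB
  have hBeq : B = 2 * S' * Hm p g := rfl
  have hBpos : 0 < B := by rw [hBeq]; positivity
  have hMne : M.Nonempty := by
    rw [nonempty_iff_ne_empty]
    rintro rfl
    rw [card_empty, Nat.cast_zero, Real.zero_rpow hpi.ne', zero_mul, mul_zero] at hD
    linarith
  have hMc : 1 ≤ M.card := card_pos.2 hMne
  -- the large values
  set M' := M.filter (fun n => u n ≤ B * ζ) with hM'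
  have hcard : M.card ≤ 2 * M'.card := by
    by_contra hcon
    push Not at hcon
    set L := M.filter (fun n => ¬ u n ≤ B * ζ) with hL
    have hsum : M'.card + L.card = M.card := card_filter_add_card_filter_not _
    have hLc : M.card ≤ 2 * L.card := by omega
    obtain ⟨N, hNM, hNmax⟩ := M.exists_max_image id hMne
    have hLsub : L ⊆ range (N + 1) := by
      intro m hm
      have := hNmax m (mem_filter.1 hm).1
      simp only [id] at this
      exact mem_range.2 (by omega)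
    have h1 : np p (range (N + 1)) u < S' :=
      lt_of_le_of_lt (np_le_ga p (kap p g) _ _) (hw N hNM).2
    have h3 : (L.card : ℝ) * (B * ζ) ^ p ≤ ∑ m ∈ range (N + 1), |u m| ^ p := by
      calc (L.card : ℝ) * (B * ζ) ^ p = ∑ _m ∈ L, (B * ζ) ^ p := by
            rw [sum_const, nsmul_eq_mul]
        _ ≤ ∑ m ∈ L, |u m| ^ p := by
            refine sum_le_sum (fun m hm => ?_)
            have := (mem_filter.1 hm).2
            push Not at this
            have h0 : 0 ≤ B * ζ := by positivity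
            exact Real.rpow_le_rpow h0 (this.le.trans (le_abs_self _)) hp0.le
        _ ≤ _ := sum_le_sum_of_subset_of_nonneg hLsub
            (fun m _ _ => Real.rpow_nonneg (abs_nonneg _) _)
    have h2 : (L.card : ℝ) ^ (1 / p) * (B * ζ) ≤ np p (range (N + 1)) u := by
      have h2' := Real.rpow_le_rpow (by positivity) h3 hpi.le
      rw [Real.mul_rpow (Nat.cast_nonneg _) (by positivity),
        ← Real.rpow_mul (by positivity), mul_one_div_cancel hp0.ne', Real.rpow_one] at h2'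
      exact h2'
    have h4 : 1 ≤ ζ * (M.card : ℝ) ^ (1 / p) * Hm p g := by
      refine hD.trans ?_
      rw [← mul_assoc]
      gcongr
      exact Hg_le_Hm hp g _
    have h7 : (M.card : ℝ) ≤ 2 * (L.card : ℝ) := by exact_mod_cast hLc
    have h7' : (M.card : ℝ) ^ (1 / p) ≤ 2 * (L.card : ℝ) ^ (1 / p) := by
      calc (M.card : ℝ) ^ (1 / p) ≤ (2 * (L.card : ℝ)) ^ (1 / p) :=
            Real.rpow_le_rpow (Nat.cast_nonneg _) h7 hpi.le
        _ = (2 : ℝ) ^ (1 / p) * (L.card : ℝ) ^ (1 / p) :=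
            Real.mul_rpow (by norm_num) (Nat.cast_nonneg _)
        _ ≤ 2 * (L.card : ℝ) ^ (1 / p) := by
            refine mul_le_mul_of_nonneg_right ?_ (by positivity)
            have h8 : (2 : ℝ) ^ (1 / p) ≤ (2 : ℝ) ^ (1 : ℝ) :=
              Real.rpow_le_rpow_of_exponent_le (by norm_num) ((div_le_one hp0).2 hp.le)
            rwa [Real.rpow_one] at h8
    have h8 : S' ≤ (L.card : ℝ) ^ (1 / p) * (B * ζ) := by
      rw [hBeq]
      calc S' = S' * 1 := (mul_one _).symm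
        _ ≤ S' * (ζ * (M.card : ℝ) ^ (1 / p) * Hm p g) :=
            mul_le_mul_of_nonneg_left h4 hS'pos.le
        _ ≤ S' * (ζ * (2 * (L.card : ℝ) ^ (1 / p)) * Hm p g) := by gcongr
        _ = _ := by ring
    linarith
  have hDM : ζ * ((M.card : ℝ) ^ (1 / p) * Hg p g M.card) ≤
      4 * (ζ * ((M'.card : ℝ) ^ (1 / p) * Hg p g M'.card)) := by
    have := mul_le_mul_of_nonneg_left (sq_double hp g hcard) hζ.le
    linarith
  have hM'1 : 1 ≤ M'.card := by omega
  have hsub : ∀ n ∈ M', n ∈ M := fun n hn => (mem_filter.1 hn).1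
  rcases Nat.lt_or_ge M'.card 2 with hlt | hge
  · -- one element
    have hc1 : M'.card = 1 := by omega
    obtain ⟨n, hn⟩ := card_eq_one.1 hc1
    have hnM' : n ∈ M' := by rw [hn]; exact mem_singleton_self n
    have h1 := hM n (hsub n hnM')
    have h2 := (abs_le.1 (hbase n)).2
    have h3 : Hg p g 1 ≤ 2 := Hg_one_le hp g
    rw [hc1, Nat.cast_one, Real.one_rpow, one_mul] at hDM
    have h4 : ζ * Hg p g 1 ≤ C' * 2 := mul_le_mul (by linarith) h3
      (le_trans zero_le_one (one_le_Hg hp g 1)) hC'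
    have h5 : 32 * (1 + 1) * C' ≤ 32 * (1 + qq p) * C' := by gcongr
    linarith
  · -- at least two elements
    obtain ⟨n₀, hn₀⟩ := card_pos.1 hM'1
    have hz : ζ < S' := by
      have h1 := hM n₀ (hsub n₀ hn₀)
      have h2 := hv n₀
      have h3 : |u n₀| ≤ hh p (kap p g) u n₀ :=
        abs_le_ga hp (kap p g) (mem_range.2 (Nat.lt_succ_self n₀)) u
      have h4 := (hw n₀ (hsub n₀ hn₀)).2
      have h5 := le_abs_self (u n₀)
      linarith
    obtain ⟨n, hn1, hn2⟩ := exists_nat_pow_near_of_lt_one (x := ζ / S') (y := (1 / 2 : ℝ))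
      (div_pos hζ hS'pos) ((div_le_one hS'pos).2 hz.le) (by norm_num) (by norm_num)
    rw [lt_div_iff₀ hS'pos] at hn1
    rw [div_le_iff₀ hS'pos] at hn2
    set τ : ℝ := tau p g t (n + 2) with hτ
    have hτeq : τ = S' * (1 / 2) ^ (n + 2) := rfl
    have hτpos : 0 < τ := by rw [hτeq]; positivity
    have hτ2 : 2 * τ ≤ ζ := by
      rw [hτeq, pow_succ]
      linarith
    have hτ4 : ζ ≤ 4 * τ := by
      rw [hτeq, pow_succ, pow_succ]
      linarith
    have hgap : ∀ m ∈ M', bet τ B (v m) + ζ / 2 ≤ bet τ B (u m) := by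
      intro m hm
      have h1 : u m ≤ B * ζ := (mem_filter.1 hm).2
      refine bet_gap hτpos (hv m) (hM m (hsub m hm)) hτ2 ?_
      calc u m ≤ B * ζ := h1
        _ ≤ B * (4 * τ) := by gcongr
        _ = 4 * B * τ := by ring
    have hdiff : ∀ b ∈ M', ∀ m ∈ M', b < m →
        ζ / 2 ≤ |(Kmap p g t (n + 2) u - Kmap p g t (n + 2) v) (b, m)| := by
      intro b hb m hm hbm
      refine le_trans ?_ (le_abs_self _)
      have e1 : Kmap p g t (n + 2) u (b, m) = min (bet τ B (u b)) (bet τ B (u m)) := by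
        unfold Kmap
        rw [if_pos hbm]
        have h1 := hw m (hsub m hm)
        rw [chi_eq_one (pow_pos hLam t) hS'pos h1.1 h1.2.le, one_mul]
      have e2 : Kmap p g t (n + 2) v (b, m) ≤ min (bet τ B (v b)) (bet τ B (v m)) := by
        unfold Kmap
        rw [if_pos hbm]
        have h1 := chi_le_one (Lam p g ^ t) (Lam p g ^ (t + 2)) (hh p (kap p g) v m)
        have hBτ : 0 ≤ B * τ := by positivity
        have h2 : 0 ≤ min (bet τ B (v b)) (bet τ B (v m)) :=
          le_min (bet_nonneg hBτ _) (bet_nonneg hBτ _)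
        exact mul_le_of_le_one_left h2 h1
      have e3 : min (bet τ B (v b)) (bet τ B (v m)) + ζ / 2 ≤ min (bet τ B (u b)) (bet τ B (u m)) := by
        refine le_min ?_ ?_
        · exact (add_le_add_left (min_le_left _ _) _).trans (hgap b hb)
        · exact (add_le_add_left (min_le_right _ _) _).trans (hgap m hm)
      rw [Pi.sub_apply, e1]
      linarith
    have hNV := hK (n + 2) (true, M', 0, fun _ => 0)
    have hNV' : NV p g M' (Kmap p g t (n + 2) u - Kmap p g t (n + 2) v) ≤ C' := hNV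
    have hq0 : 0 ≤ 1 - 1 / p := by
      rw [sub_nonneg, div_le_one hp0]
      exact hp.le
    have hlow : (((M'.card : ℝ) ^ (1 - 1 / p))⁻¹) *
        (ζ / 2 * ((M'.card : ℝ) / (4 * (1 + qq p)) * Hg p g M'.card)) ≤
        NV p g M' (Kmap p g t (n + 2) u - Kmap p g t (n + 2) v) := by
      unfold NV
      rw [mul_comm (1 - 1 / p), mul_assoc]
      refine mul_le_mul_of_nonneg_left ?_ (by positivity)
      refine (mul_le_mul_of_nonneg_left (kernel_lower hp g hg M' hge) (by positivity)).trans ?_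
      rw [mul_left_comm]
      refine mul_le_mul_of_nonneg_left ?_ hq0
      rw [mul_sum]
      refine sum_le_sum (fun b hb => ?_)
      rw [mul_sum]
      refine sum_le_sum (fun m hm => ?_)
      by_cases hbm : b < m ∧ dV M' b m ≤ g
      · rw [if_pos hbm, if_pos hbm, mul_one_div]
        exact div_le_div_of_nonneg_right (hdiff b hb m hm hbm.1) (Nat.cast_nonneg _)
      · rw [if_neg hbm, if_neg hbm, mul_zero]
    have hc0 : (0 : ℝ) < (M'.card : ℝ) := by exact_mod_cast hM'1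
    have hsq : (((M'.card : ℝ) ^ (1 - 1 / p))⁻¹) *
        (ζ / 2 * ((M'.card : ℝ) / (4 * (1 + qq p)) * Hg p g M'.card)) =
        (ζ * ((M'.card : ℝ) ^ (1 / p) * Hg p g M'.card)) / (8 * (1 + qq p)) := by
      have h1 : (M'.card : ℝ) ^ (1 - 1 / p) * (M'.card : ℝ) ^ (1 / p) = (M'.card : ℝ) := by
        rw [← Real.rpow_add hc0, sub_add_cancel, Real.rpow_one]
      have h2 : (0 : ℝ) < (M'.card : ℝ) ^ (1 - 1 / p) := Real.rpow_pos_of_pos hc0 _
      have h3 : 0 < 1 + qq p := by linarith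
      have h4 : (((M'.card : ℝ) ^ (1 - 1 / p))⁻¹) * (M'.card : ℝ) = (M'.card : ℝ) ^ (1 / p) := by
        rw [inv_mul_eq_div, div_eq_iff h2.ne', mul_comm, h1]
      calc (((M'.card : ℝ) ^ (1 - 1 / p))⁻¹) *
          (ζ / 2 * ((M'.card : ℝ) / (4 * (1 + qq p)) * Hg p g M'.card))
          = ((((M'.card : ℝ) ^ (1 - 1 / p))⁻¹) * (M'.card : ℝ)) *
            (ζ / 2 * (Hg p g M'.card / (4 * (1 + qq p)))) := by ring
        _ = _ := by rw [h4]; field_simp; ring
    rw [hsq, ] at hlow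
    have h8 : 0 < 8 * (1 + qq p) := by linarith
    have h9 := (div_le_iff₀ h8).1 (hlow.trans hNV')
    calc ζ * ((M.card : ℝ) ^ (1 / p) * Hg p g M.card)
        ≤ 4 * (ζ * ((M'.card : ℝ) ^ (1 / p) * Hg p g M'.card)) := hDM
      _ ≤ 4 * (C' * (8 * (1 + qq p))) := by linarith
      _ ≤ 32 * (1 + qq p) * C' + 1 := by linarith

end Pool.Agent.WBp
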