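import Pool.Agent.Lib.MP_c7fb7b_an_p.A1

/-!
# D1 (general exponent): density of the centres

Same as `cc_dense` in `MP_c7fb7b_an/D1.lean` (all bump lemmas are there).
-/

open Finset Filter Topology Pool.Agent.WB

namespace Pool.Agent.WBp

theorem cc_dense {p : ℝ} (hp : 1 < p) {k : ℕ → ℝ} (hk : ∀ v, 0 ≤ k v) (hk2 : ∀ v, k v ≤ 2)
    (x : ℕ → ℝ) (n : ℕ) {ε : ℝ} (hε : 0 < ε) :
    ∃ i, hh p k (fun m => x m - cc i m) n ≤ ε := by
  classical
  have hpos : 0 < ε / (2 * ((n : ℝ) + 1)) := by positivity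
  have hq : ∀ m : ℕ, ∃ q : ℚ, |x m - (q : ℝ)| ≤ ε / (2 * ((n : ℝ) + 1)) := by
    intro m
    obtain ⟨q, h1, h2⟩ := exists_rat_btwn (show x m - ε / (2 * ((n : ℝ) + 1)) < x m by linarith)
    refine ⟨q, ?_⟩
    rw [abs_le]
    constructor <;> linarith
  choose q hq using hq
  let fs : ℕ →₀ ℚ := Finsupp.onFinset (range (n + 1)) (fun m => if m ∈ range (n + 1) then q m else 0)
    (by
      intro m hm
      by_contra hc
      exact hm (if_neg hc))
  obtain ⟨i, hi⟩ := (exists_surjective_nat (ℕ →₀ ℚ)).choose_spec fs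
  refine ⟨i, ?_⟩
  unfold hh
  refine (ga_le_sum hp hk hk2 _ _).trans ?_
  have h1 : ∀ m ∈ range (n + 1), |x m - cc i m| ≤ ε / (2 * ((n : ℝ) + 1)) := by
    intro m hm
    have : cc i m = ((q m : ℚ) : ℝ) := by
      unfold cc
      rw [hi]
      show (((if m ∈ range (n + 1) then q m else 0 : ℚ)) : ℝ) = _
      rw [if_pos hm]
    rw [this]
    exact hq m
  calc 2 * ∑ m ∈ range (n + 1), |x m - cc i m|
      ≤ 2 * ∑ m ∈ range (n + 1), ε / (2 * ((n : ℝ) + 1)) := by
        have := Finset.sum_le_sum h1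
        linarith
    _ = ε := by
        rw [Finset.sum_const, card_range, nsmul_eq_mul]
        push_cast
        field_simp

end Pool.Agent.WBp
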