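import Pool.Agent.Lib.MP_c7fb7b_an_p.B2

/-!
# D2 (general exponent): the carrier is Lipschitz and bounded

Same as `MP_c7fb7b_an/D2.lean`.
-/

open Finset Filter Topology Pool.Agent.WB

namespace Pool.Agent.WBp

theorem pd2_k0_nonneg (v : ℕ) : 0 ≤ k0 v := le_refl _

theorem qs_lip {p : ℝ} (hp : 1 < p) {k : ℕ → ℝ} (hk : ∀ v, 0 ≤ k v)
    (hk' : ∀ v w, 1 ≤ w → w ≤ v → k v ≤ k w) {σ : ℝ} (hσ : 0 < σ) {u v : ℕ → ℝ} {δ : ℝ}
    (hδ : Bd (ga p k) (u - v) δ) : Bd (ga p k) (qs p k σ u - qs p k σ v) (4 * δ) :=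
  lemT_dn hp hk hk' hσ hδ

theorem xb_lip {p : ℝ} (hp : 1 < p) {k : ℕ → ℝ} (hk : ∀ v, 0 ≤ k v)
    (hk' : ∀ v w, 1 ≤ w → w ≤ v → k v ≤ k w) {σ : ℝ} (hσ : 0 < σ) {u v : ℕ → ℝ} {δ : ℝ}
    (hδ : Bd (ga p k) (u - v) δ) : Bd (ga p k0) (xb p k σ u - xb p k σ v) (4 * δ) := by
  intro s
  have h1 : Bd (ga p k)
      (fun n => up (4 * σ) (hh p k u n) * u n - up (4 * σ) (hh p k v n) * v n)
      (4 * δ) := lemT_up hp hk hk' (by linarith) hδ
  refine le_trans ?_ (h1 s)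
  rw [ga_k0]
  refine le_trans ?_ (np_le_ga p k s _)
  have h0 := ga_mono (k := k0) (s := s) hp pd2_k0_nonneg
    (z := xb p k σ u - xb p k σ v) (x := fun n => up (4 * σ) (hh p k u n) * u n -
      up (4 * σ) (hh p k v n) * v n) (fun m _ => by
      show |min (xt p k σ u m) σ - min (xt p k σ v m) σ| ≤ |xt p k σ u m - xt p k σ v m|
      refine (abs_min_sub_min_le_max _ _ _ _).trans (max_le le_rfl ?_)
      rw [sub_self, abs_zero]
      exact abs_nonneg _)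
  rw [ga_k0, ga_k0] at h0
  exact h0

theorem wr_bdd {p : ℝ} (hp : 1 < p) {k : ℕ → ℝ} {σ : ℝ} (hσ : 0 < σ) (u : ℕ → ℝ) :
    Bd (ga p k0) (wr p k σ u) 4 := by
  classical
  intro s
  set s' := s.filter (fun n => wr p k σ u n ≠ 0) with hs'
  have h1 : ga p k0 s (wr p k σ u) ≤ ga p k0 s' (wr p k σ u) := by
    refine ga_restrict hp pd2_k0_nonneg (fun _ _ _ _ => le_refl _) fun m hm hm' => ?_
    by_contra hc
    exact hm' (Finset.mem_filter.2 ⟨hm, hc⟩)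
  refine h1.trans ?_
  rcases s'.eq_empty_or_nonempty with he | hne
  · rw [he]
    have h := ga_le_sum (k := k0) hp pd2_k0_nonneg
      (fun v => by show (0 : ℝ) ≤ 2; norm_num) (∅ : Finset ℕ) (wr p k σ u)
    refine h.trans ?_
    simp
  · have hN := s'.max'_mem hne
    set N := s'.max' hne with hNd
    have hN2 : wr p k σ u N ≠ 0 := (Finset.mem_filter.1 hN).2
    have hlt : hh p k0 (xb p k σ u) N < 4 * σ := by
      by_contra hc
      rw [not_lt] at hc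
      apply hN2
      unfold wr
      rw [dn_of_ge (by linarith) (by linarith), zero_mul, mul_zero]
    have h2 : ga p k0 s' (wr p k σ u) ≤ σ⁻¹ * ga p k0 s' (xb p k σ u) := by
      refine ga_smul hp pd2_k0_nonneg (inv_nonneg.2 hσ.le) fun m _ => ?_
      unfold wr
      rw [abs_mul, abs_mul, abs_of_nonneg (inv_nonneg.2 hσ.le), abs_of_nonneg (dn_nonneg _ _)]
      refine mul_le_mul_of_nonneg_left ?_ (inv_nonneg.2 hσ.le)
      exact mul_le_of_le_one_left (abs_nonneg _) (dn_le_one _ _)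
    have h3 : ga p k0 s' (xb p k σ u) ≤ hh p k0 (xb p k σ u) N := by
      refine ga_set hp pd2_k0_nonneg ?_ _
      intro m hm
      have := s'.le_max' m hm
      rw [Finset.mem_range]
      omega
    calc ga p k0 s' (wr p k σ u) ≤ σ⁻¹ * ga p k0 s' (xb p k σ u) := h2
      _ ≤ σ⁻¹ * (4 * σ) := mul_le_mul_of_nonneg_left (h3.trans hlt.le) (inv_nonneg.2 hσ.le)
      _ = 4 := by field_simp

theorem wr_lip {p : ℝ} (hp : 1 < p) {k : ℕ → ℝ} (hk : ∀ v, 0 ≤ k v)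
    (hk' : ∀ v w, 1 ≤ w → w ≤ v → k v ≤ k w) {σ : ℝ} (hσ : 0 < σ) {u v : ℕ → ℝ} {δ : ℝ}
    (hδ : Bd (ga p k) (u - v) δ) : Bd (ga p k0) (wr p k σ u - wr p k σ v) (16 * δ / σ) := by
  intro s
  have h1 := lemT_dn hp pd2_k0_nonneg (fun _ _ _ _ => le_refl _)
    (show (0 : ℝ) < 2 * σ by linarith) (xb_lip hp hk hk' hσ hδ)
  have h2 := h1 s
  have h3 : ga p k0 s (wr p k σ u - wr p k σ v) ≤ σ⁻¹ * ga p k0 s (fun n =>
      dn (2 * σ) (hh p k0 (xb p k σ u) n) * xb p k σ u n -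
        dn (2 * σ) (hh p k0 (xb p k σ v) n) * xb p k σ v n) := by
    refine ga_smul hp pd2_k0_nonneg (inv_nonneg.2 hσ.le) fun m _ => ?_
    have e : (wr p k σ u - wr p k σ v) m =
        σ⁻¹ * (dn (2 * σ) (hh p k0 (xb p k σ u) m) * xb p k σ u m -
        dn (2 * σ) (hh p k0 (xb p k σ v) m) * xb p k σ v m) := by
      rw [Pi.sub_apply]
      unfold wr
      ring
    rw [e, abs_mul, abs_of_nonneg (inv_nonneg.2 hσ.le)]
  refine h3.trans ((mul_le_mul_of_nonneg_left h2 (inv_nonneg.2 hσ.le)).trans (le_of_eq ?_))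
  field_simp
  ring

end Pool.Agent.WBp
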