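import Pool.Agent.Lib.MP_c7fb7b_an_p.A2
import Pool.Agent.Lib.MP_c7fb7b_an_p.D1
import Pool.Agent.Lib.MP_c7fb7b_an_p.D2

/-!
# D3 (general exponent): the recorder is Lipschitz

Same as `MP_c7fb7b_an/D3.lean`: Minkowski for `np p` (`ga_add`, `ga_smul` with `k0`, `ga_k0`).
-/

open Finset Filter Topology Pool.Agent.WB

namespace Pool.Agent.WBp

theorem pd3_Lam_pos {p : ℝ} (hp : 1 < p) (g : ℕ) : 0 < Lam p g := by
  unfold Lam
  have := one_le_Hm hp g
  linarith

theorem pd3_entry {p : ℝ} (hp : 1 < p) (g t : ℕ) (u v : ℕ → ℝ) {δ : ℝ}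
    (hδ : Bd (ga p (kap p g)) (u - v) δ) (n e : ℕ) :
    |Rmap p g t u (n, e) - Rmap p g t v (n, e)| ≤
      4 * Lam p g ^ t *
        |(wr p (kap p g) (Lam p g ^ t) u - wr p (kap p g) (Lam p g ^ t) v) n| +
        4 * δ * |wr p (kap p g) (Lam p g ^ t) v n| := by
  have hL : 0 < Lam p g := pd3_Lam_pos hp g
  have hσ : 0 < Lam p g ^ t := pow_pos hL t
  have hδ0 : 0 ≤ δ := (ga_nonneg _ _ _ _).trans (hδ ∅)
  unfold Rmap
  simp only
  by_cases hr : (2 : ℝ) ^ (Nat.unpair e).1 ≤ 4 * Lam p g ^ t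
  · rw [if_pos hr, if_pos hr]
    have hr0 : (0 : ℝ) < 2 ^ (Nat.unpair e).1 := by positivity
    have hnn : ∀ (x : ℕ → ℝ) (m : ℕ), 0 ≤ hh p (kap p g) x m := fun x m => ga_nonneg _ _ _ _
    have hb0 := bump_nonneg (2 ^ (Nat.unpair e).1)
      (fun i => hh p (kap p g) (fun m => qs p (kap p g) (Lam p g ^ t) u m - cc i m) n)
      (Nat.unpair e).2
    have hb1 := bump_le hr0
      (a := fun i => hh p (kap p g) (fun m => qs p (kap p g) (Lam p g ^ t) u m - cc i m) n)
      (fun i => hnn _ _) (Nat.unpair e).2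
    have hbl := bump_lip (r := 2 ^ (Nat.unpair e).1) (δ := 4 * δ) (by linarith)
      (a := fun i => hh p (kap p g) (fun m => qs p (kap p g) (Lam p g ^ t) u m - cc i m) n)
      (a' := fun i => hh p (kap p g) (fun m => qs p (kap p g) (Lam p g ^ t) v m - cc i m) n)
      (by
        intro i
        refine (abs_hh_sub_le hp (kap_nonneg hp g) _ _ n).trans ?_
        have e1 : ((fun m => qs p (kap p g) (Lam p g ^ t) u m - cc i m) -
            fun m => qs p (kap p g) (Lam p g ^ t) v m - cc i m) =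
            qs p (kap p g) (Lam p g ^ t) u - qs p (kap p g) (Lam p g ^ t) v := by
          ext m
          simp
        rw [e1]
        exact qs_lip hp (kap_nonneg hp g) (kap_anti hp g) hσ hδ _) (Nat.unpair e).2
    rw [Pi.sub_apply]
    generalize bump (2 ^ (Nat.unpair e).1)
      (fun i => hh p (kap p g) (fun m => qs p (kap p g) (Lam p g ^ t) u m - cc i m) n)
      (Nat.unpair e).2 = b at *
    generalize bump (2 ^ (Nat.unpair e).1)
      (fun i => hh p (kap p g) (fun m => qs p (kap p g) (Lam p g ^ t) v m - cc i m) n)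
      (Nat.unpair e).2 = b' at *
    generalize wr p (kap p g) (Lam p g ^ t) u n = w at *
    generalize wr p (kap p g) (Lam p g ^ t) v n = w' at *
    have e2 : w * b - w' * b' = (w - w') * b + w' * (b - b') := by ring
    rw [e2]
    refine (abs_add_le _ _).trans ?_
    rw [abs_mul, abs_mul, abs_of_nonneg hb0]
    have h1 : |w - w'| * b ≤ |w - w'| * (4 * Lam p g ^ t) :=
      mul_le_mul_of_nonneg_left (hb1.trans hr) (abs_nonneg _)
    have h2 : |w'| * |b - b'| ≤ |w'| * (4 * δ) := mul_le_mul_of_nonneg_left hbl (abs_nonneg _)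
    linarith
  · rw [if_neg hr, if_neg hr, sub_self, abs_zero]
    positivity

theorem R_lip {p : ℝ} (hp : 1 < p) (g t : ℕ) (u v : ℕ → ℝ) {δ : ℝ}
    (hδ : Bd (ga p (kap p g)) (u - v) δ) :
    Bd (LN p) (Rmap p g t u - Rmap p g t v) (80 * δ) := by
  intro j
  have hL : 0 < Lam p g := pd3_Lam_pos hp g
  have hσ : 0 < Lam p g ^ t := pow_pos hL t
  have hδ0 : 0 ≤ δ := (ga_nonneg _ _ _ _).trans (hδ ∅)
  unfold LN
  have e1 : (∑ n ∈ j.2.1, |(Rmap p g t u - Rmap p g t v) (n, j.2.2.2 n)| ^ p) ^ (1 / p) =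
      ga p k0 j.2.1 (fun n => (Rmap p g t u - Rmap p g t v) (n, j.2.2.2 n)) := (ga_k0 _ _ _).symm
  rw [e1]
  have h1 : ga p k0 j.2.1 (fun n => (Rmap p g t u - Rmap p g t v) (n, j.2.2.2 n)) ≤
      ga p k0 j.2.1 (fun n => 4 * Lam p g ^ t *
        (wr p (kap p g) (Lam p g ^ t) u - wr p (kap p g) (Lam p g ^ t) v) n) +
      ga p k0 j.2.1 (fun n => 4 * δ * wr p (kap p g) (Lam p g ^ t) v n) := by
    refine ga_add hp pd2_k0_nonneg fun m _ => ?_
    have h := pd3_entry hp g t u v hδ m (j.2.2.2 m)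
    have a1 : (0 : ℝ) ≤ 4 * Lam p g ^ t := by positivity
    have a2 : (0 : ℝ) ≤ 4 * δ := by positivity
    rw [abs_mul (4 * Lam p g ^ t), abs_mul (4 * δ), abs_of_nonneg a1, abs_of_nonneg a2]
    exact h
  have h2 : ga p k0 j.2.1 (fun n => 4 * Lam p g ^ t *
      (wr p (kap p g) (Lam p g ^ t) u - wr p (kap p g) (Lam p g ^ t) v) n) ≤
      4 * Lam p g ^ t * ga p k0 j.2.1
        (wr p (kap p g) (Lam p g ^ t) u - wr p (kap p g) (Lam p g ^ t) v) := by
    refine ga_smul hp pd2_k0_nonneg (by positivity) fun m _ => ?_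
    have a1 : (0 : ℝ) ≤ 4 * Lam p g ^ t := by positivity
    rw [abs_mul, abs_of_nonneg a1]
  have h3 : ga p k0 j.2.1 (fun n => 4 * δ * wr p (kap p g) (Lam p g ^ t) v n) ≤
      4 * δ * ga p k0 j.2.1 (wr p (kap p g) (Lam p g ^ t) v) := by
    refine ga_smul hp pd2_k0_nonneg (by positivity) fun m _ => ?_
    have a2 : (0 : ℝ) ≤ 4 * δ := by positivity
    rw [abs_mul, abs_of_nonneg a2]
  have h4 := wr_lip hp (kap_nonneg hp g) (kap_anti hp g) hσ hδ j.2.1
  have h5 := wr_bdd (k := kap p g) hp hσ v j.2.1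
  have h6 : 4 * Lam p g ^ t * (16 * δ / Lam p g ^ t) = 64 * δ := by
    field_simp
    ring
  have h7 : 4 * Lam p g ^ t * ga p k0 j.2.1
      (wr p (kap p g) (Lam p g ^ t) u - wr p (kap p g) (Lam p g ^ t) v) ≤
      4 * Lam p g ^ t * (16 * δ / Lam p g ^ t) := mul_le_mul_of_nonneg_left h4 (by positivity)
  have h8 : 4 * δ * ga p k0 j.2.1 (wr p (kap p g) (Lam p g ^ t) v) ≤ 4 * δ * 4 :=
    mul_le_mul_of_nonneg_left h5 (by positivity)
  linarith

end Pool.Agent.WBp
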