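import Pool.Agent.Lib.MP_c7fb7b_an_p.A1
import Pool.Agent.Lib.MP_c7fb7b_an_p.A2

/-!
# D4 (general exponent): capacity of the carrier
-/

open Finset Filter Topology Pool.Agent.WB

namespace Pool.Agent.WBp

theorem pd4_xt_nonneg (p : ℝ) (k : ℕ → ℝ) (σ : ℝ) (u : ℕ → ℝ) (hu : ∀ n, 0 ≤ u n) (n : ℕ) :
    0 ≤ xt p k σ u n := mul_nonneg (up_nonneg _ _) (hu n)

theorem pd4_xb_nonneg (p : ℝ) (k : ℕ → ℝ) {σ : ℝ} (hσ : 0 < σ) (u : ℕ → ℝ) (hu : ∀ n, 0 ≤ u n)
    (n : ℕ) : 0 ≤ xb p k σ u n := le_min (pd4_xt_nonneg p k σ u hu n) hσ.le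

theorem wr_nonneg (p : ℝ) (k : ℕ → ℝ) {σ : ℝ} (hσ : 0 < σ) (u : ℕ → ℝ) (hu : ∀ n, 0 ≤ u n)
    (n : ℕ) : 0 ≤ wr p k σ u n := by
  unfold wr
  exact mul_nonneg (by positivity) (mul_nonneg (dn_nonneg _ _) (pd4_xb_nonneg p k hσ u hu n))

/-- The carrier is nonzero only where the initial gauge is above `4σ`. -/
theorem hh_gt_of_wr (p : ℝ) (k : ℕ → ℝ) {σ : ℝ} (hσ : 0 < σ) (u : ℕ → ℝ) (n : ℕ)
    (h : wr p k σ u n ≠ 0) : 4 * σ < hh p k u n := by
  by_contra hle
  push Not at hle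
  apply h
  have h1 : xt p k σ u n = 0 := by
    unfold xt
    rw [up_of_le (by linarith) hle, zero_mul]
  have h2 : xb p k σ u n = 0 := by
    unfold xb
    rw [h1]
    exact min_eq_left hσ.le
  unfold wr
  rw [h2, mul_zero, mul_zero]

theorem pd4_le_of_np {p : ℝ} (hp : 1 < p) (s : Finset ℕ) (x : ℕ → ℝ) {σ : ℝ} (hσ : 0 ≤ σ)
    (h : σ ≤ np p s x) : σ ^ p ≤ ∑ m ∈ s, |x m| ^ p := by
  have h0 : 0 ≤ ∑ m ∈ s, |x m| ^ p := Finset.sum_nonneg (fun m _ => Real.rpow_nonneg (abs_nonneg _) p)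
  have hp0 : 0 < p := by linarith
  have h1 := Real.rpow_le_rpow hσ h hp0.le
  unfold np at h1
  rw [← Real.rpow_mul h0, one_div_mul_cancel hp0.ne', Real.rpow_one] at h1
  exact h1

theorem pd4_np_le {p : ℝ} (hp : 1 < p) (s : Finset ℕ) (x : ℕ → ℝ) {σ : ℝ} (hσ : 0 ≤ σ)
    (h : ∑ m ∈ s, |x m| ^ p ≤ σ ^ p) : np p s x ≤ σ := by
  have h0 : 0 ≤ ∑ m ∈ s, |x m| ^ p := Finset.sum_nonneg (fun m _ => Real.rpow_nonneg (abs_nonneg _) p)
  have hp0 : 0 < p := by linarith
  have h1 := Real.rpow_le_rpow h0 h (show 0 ≤ 1 / p by positivity)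
  rw [← Real.rpow_mul hσ, mul_one_div_cancel hp0.ne', Real.rpow_one] at h1
  exact h1

theorem pd4_le_np {p : ℝ} (hp : 1 < p) (s : Finset ℕ) (x : ℕ → ℝ) {σ : ℝ} (hσ : 0 ≤ σ)
    (h : σ ^ p ≤ ∑ m ∈ s, |x m| ^ p) : σ ≤ np p s x := by
  have hp0 : 0 < p := by linarith
  have h1 := Real.rpow_le_rpow (Real.rpow_nonneg hσ p) h (show 0 ≤ 1 / p by positivity)
  rw [← Real.rpow_mul hσ, mul_one_div_cancel hp0.ne', Real.rpow_one] at h1
  exact h1

theorem pd4_step1 {p : ℝ} (hp : 1 < p) (g : ℕ) (σ : ℝ) (hσ : 0 < σ) (u : ℕ → ℝ) (hu : ∀ n, 0 ≤ u n)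
    (N : ℕ) (h : Lam p g * σ ≤ hh p (kap p g) u N) :
    σ ^ p ≤ ∑ n ∈ range (N + 1), |xb p (kap p g) σ u n| ^ p := by
  by_cases hA : ∃ n ∈ range (N + 1), σ ≤ xt p (kap p g) σ u n
  · obtain ⟨n, hn, hle⟩ := hA
    have h1 : xb p (kap p g) σ u n = σ := min_eq_right hle
    have h2 := Finset.single_le_sum (f := fun n => |xb p (kap p g) σ u n| ^ p)
      (fun i _ => Real.rpow_nonneg (abs_nonneg _) p) hn
    simp only [h1, abs_of_pos hσ] at h2
    exact h2
  · push Not at hA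
    have hxb : ∀ n ∈ range (N + 1), xb p (kap p g) σ u n = xt p (kap p g) σ u n := fun n hn =>
      min_eq_left (hA n hn).le
    have hk := kap_nonneg hp g
    -- the difference `u - xt`
    have hdiff : ga p (kap p g) (range (N + 1)) (fun n => u n - xt p (kap p g) σ u n) ≤ 8 * σ := by
      have hbig : ∀ n, 8 * σ ≤ hh p (kap p g) u n → u n - xt p (kap p g) σ u n = 0 := by
        intro n hn
        unfold xt
        rw [up_of_ge (by linarith) (by linarith)]
        ring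
      have habs : ∀ n, |u n - xt p (kap p g) σ u n| ≤ |u n| := by
        intro n
        have h1 : xt p (kap p g) σ u n ≤ u n := mul_le_of_le_one_left (hu n) (up_le_one _ _)
        have h2 := pd4_xt_nonneg p (kap p g) σ u hu n
        rw [abs_of_nonneg (by linarith), abs_of_nonneg (hu n)]
        linarith
      by_cases hZ : ((range (N + 1)).filter (fun n => hh p (kap p g) u n < 8 * σ)).Nonempty
      · set Z := (range (N + 1)).filter (fun n => hh p (kap p g) u n < 8 * σ) with hZd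
        set n0 := Z.max' hZ with hn0
        have hmem : n0 ∈ Z := Z.max'_mem hZ
        have hlt : hh p (kap p g) u n0 < 8 * σ := (mem_filter.1 hmem).2
        have h1 : ga p (kap p g) (range (N + 1)) (fun n => u n - xt p (kap p g) σ u n) ≤
            ga p (kap p g) (range (n0 + 1)) (fun n => u n - xt p (kap p g) σ u n) := by
          apply ga_restrict hp hk (kap_anti hp g)
          intro m hm hm'
          apply hbig
          by_contra hcon
          push Not at hcon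
          have : m ∈ Z := mem_filter.2 ⟨hm, hcon⟩
          have h3 := Z.le_max' m this
          apply hm'
          rw [mem_range]
          omega
        have h2 : ga p (kap p g) (range (n0 + 1)) (fun n => u n - xt p (kap p g) σ u n) ≤
            ga p (kap p g) (range (n0 + 1)) u := ga_mono hp hk (fun m _ => habs m)
        exact h1.trans (h2.trans hlt.le)
      · have h0 : ∀ m ∈ range (N + 1), |u m - xt p (kap p g) σ u m| ≤ 0 * |u m| := by
          intro m hm
          rw [hbig m ?_]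
          · simp
          · by_contra hcon
            push Not at hcon
            exact hZ ⟨m, mem_filter.2 ⟨hm, hcon⟩⟩
        have h1 := ga_smul (s := range (N + 1)) hp hk (le_refl (0 : ℝ)) h0
        rw [zero_mul] at h1
        linarith
    have htri : hh p (kap p g) u N ≤
        ga p (kap p g) (range (N + 1)) (fun n => u n - xt p (kap p g) σ u n)
        + ga p (kap p g) (range (N + 1)) (xt p (kap p g) σ u) := by
      apply ga_add hp hk
      intro m _
      have e : u m = (u m - xt p (kap p g) σ u m) + xt p (kap p g) σ u m := by ring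
      calc |u m| = |(u m - xt p (kap p g) σ u m) + xt p (kap p g) σ u m| := by rw [← e]
        _ ≤ _ := abs_add_le _ _
    have hl2 := gauge_le_np hp g (range (N + 1)) (xt p (kap p g) σ u)
    have hHm : 1 ≤ Hm p g := one_le_Hm hp g
    have hLam : Lam p g = 8 + Hm p g := rfl
    rw [hLam] at h
    have h5 : Hm p g * σ ≤ Hm p g * np p (range (N + 1)) (xt p (kap p g) σ u) := by
      have : (8 + Hm p g) * σ = 8 * σ + Hm p g * σ := by ring
      linarith
    have h6 : σ ≤ np p (range (N + 1)) (xt p (kap p g) σ u) :=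
      le_of_mul_le_mul_left h5 (by linarith)
    have h7 : ∑ n ∈ range (N + 1), |xb p (kap p g) σ u n| ^ p
        = ∑ n ∈ range (N + 1), |xt p (kap p g) σ u n| ^ p :=
      Finset.sum_congr rfl (fun n hn => by rw [hxb n hn])
    rw [h7]
    exact pd4_le_of_np hp _ _ hσ.le h6

theorem pd4_step2 {p : ℝ} (hp : 1 < p) (x : ℕ → ℝ) (hx : ∀ n, 0 ≤ x n) (σ : ℝ) (hσ : 0 < σ)
    (hxσ : ∀ n, x n ≤ σ) (N : ℕ) (h : σ ^ p ≤ ∑ n ∈ range (N + 1), |x n| ^ p) :
    ∃ n0 ≤ N + 1, (∀ n < n0, ∑ m ∈ range (n + 1), |x m| ^ p ≤ (2 * σ) ^ p) ∧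
      σ ^ p ≤ ∑ n ∈ range n0, |x n| ^ p := by
  classical
  by_cases hb : ∃ n, (2 * σ) ^ p < ∑ m ∈ range (n + 1), |x m| ^ p
  · by_cases hle : N < Nat.find hb
    · refine ⟨N + 1, le_rfl, fun n hn => ?_, h⟩
      have := Nat.find_min hb (m := n) (by omega)
      push Not at this
      exact this
    · push Not at hle
      refine ⟨Nat.find hb, by omega, fun n hn => ?_, ?_⟩
      · have := Nat.find_min hb (m := n) hn
        push Not at this
        exact this
      · have h1 := Nat.find_spec hb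
        rw [Finset.sum_range_succ] at h1
        have h2 := hxσ (Nat.find hb)
        have h3 := hx (Nat.find hb)
        have h4 : |x (Nat.find hb)| ^ p ≤ σ ^ p := by
          rw [abs_of_nonneg h3]
          exact Real.rpow_le_rpow h3 h2 (by linarith)
        have h5 : 2 * σ ^ p ≤ (2 * σ) ^ p := by
          rw [Real.mul_rpow (by norm_num) hσ.le]
          refine mul_le_mul_of_nonneg_right ?_ (Real.rpow_nonneg hσ.le p)
          exact Real.self_le_rpow_of_one_le (by norm_num) hp.le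
        linarith
  · push Not at hb
    exact ⟨N + 1, le_rfl, fun n _ => hb n, h⟩

theorem wr_capacity {p : ℝ} (hp : 1 < p) (g : ℕ) (t : ℕ) (u : ℕ → ℝ) (hu : ∀ n, 0 ≤ u n)
    (N : ℕ) (h : Lam p g ^ (t + 1) ≤ hh p (kap p g) u N) :
    1 ≤ np p (range (N + 1)) (wr p (kap p g) (Lam p g ^ t) u) := by
  have hLam : 0 < Lam p g := by
    unfold Lam
    have := one_le_Hm hp g
    linarith
  have hσ : 0 < Lam p g ^ t := pow_pos hLam t
  set σ := Lam p g ^ t with hσd
  have h1 : Lam p g * σ ≤ hh p (kap p g) u N := by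
    rw [pow_succ, mul_comm] at h
    exact h
  have h2 := pd4_step1 hp g σ hσ u hu N h1
  obtain ⟨n0, hn0, h3, h4⟩ := pd4_step2 hp (xb p (kap p g) σ u) (pd4_xb_nonneg p (kap p g) hσ u hu)
    σ hσ (fun n => min_le_right _ _) N h2
  have h5 : ∀ n ∈ range n0, |wr p (kap p g) σ u n| ^ p
      = (σ⁻¹) ^ p * |xb p (kap p g) σ u n| ^ p := by
    intro n hn
    have hn' := h3 n (mem_range.1 hn)
    have h6 : hh p k0 (xb p (kap p g) σ u) n ≤ 2 * σ := by
      show ga p k0 (range (n + 1)) (xb p (kap p g) σ u) ≤ 2 * σ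
      rw [ga_k0]
      exact pd4_np_le hp _ _ (by linarith) hn'
    unfold wr
    rw [dn_of_le (by linarith) h6, one_mul, abs_mul, abs_of_pos (inv_pos.2 hσ),
      Real.mul_rpow (inv_pos.2 hσ).le (abs_nonneg _)]
  have hsub : range n0 ⊆ range (N + 1) := Finset.range_subset_range.2 hn0
  apply pd4_le_np hp _ _ zero_le_one
  rw [Real.one_rpow]
  calc (1 : ℝ) = (σ⁻¹) ^ p * σ ^ p := by
        rw [← Real.mul_rpow (inv_pos.2 hσ).le hσ.le, inv_mul_cancel₀ hσ.ne', Real.one_rpow]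
    _ ≤ (σ⁻¹) ^ p * ∑ n ∈ range n0, |xb p (kap p g) σ u n| ^ p :=
        mul_le_mul_of_nonneg_left h4 (Real.rpow_nonneg (inv_pos.2 hσ).le p)
    _ = ∑ n ∈ range n0, |wr p (kap p g) σ u n| ^ p := by
        rw [Finset.mul_sum]
        exact Finset.sum_congr rfl (fun n hn => (h5 n hn).symm)
    _ ≤ ∑ n ∈ range (N + 1), |wr p (kap p g) σ u n| ^ p :=
        Finset.sum_le_sum_of_subset_of_nonneg hsub
          (fun i _ _ => Real.rpow_nonneg (abs_nonneg _) p)

end Pool.Agent.WBp
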