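import Pool.Agent.Lib.MP_c7fb7b_an_p.D1
import Pool.Agent.Lib.MP_c7fb7b_an_p.D4

/-!
# D5 (general exponent): detection by the recorder

Same as `MP_c7fb7b_an/D5.lean`.
-/

open Finset Filter Topology Pool.Agent.WB

namespace Pool.Agent.WBp

theorem d5_Lam_pos {p : ℝ} (hp : 1 < p) (g : ℕ) : 0 < Lam p g := by
  unfold Lam
  have := one_le_Hm hp g
  linarith

/-- One entry of the recorder separates `u` and `v`. -/
theorem d5_entry {p : ℝ} (hp : 1 < p) (g t : ℕ) (u v : ℕ → ℝ) (hu : ∀ n, 0 ≤ u n) (E : Finset ℕ)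
    (ζ : ℝ)
    (hq : ∀ m ∈ E, ζ ≤ |qs p (kap p g) (Lam p g ^ t) u m - qs p (kap p g) (Lam p g ^ t) v m|)
    (l : ℕ) (hl : (2 : ℝ) ^ l ≤ 4 * Lam p g ^ t)
    (hD : 2 * (2 : ℝ) ^ l ≤ ζ * ((E.card : ℝ) ^ (1 / p) * Hg p g E.card)) (n : ℕ)
    (hEn : ∀ e ∈ E, e < n + 1) :
    ∃ i : ℕ, wr p (kap p g) (Lam p g ^ t) u n * ((2 : ℝ) ^ l / 8) ≤
      (Rmap p g t u - Rmap p g t v) (n, Nat.pair l i) := by
  have hk : ∀ v, 0 ≤ kap p g v := fun v => kap_nonneg hp g v
  have hσ : 0 < Lam p g ^ t := pow_pos (d5_Lam_pos hp g) t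
  have hr : (0 : ℝ) < (2 : ℝ) ^ l := by positivity
  set q : ℕ → ℝ := qs p (kap p g) (Lam p g ^ t) u with hqdef
  set q' : ℕ → ℝ := qs p (kap p g) (Lam p g ^ t) v with hq'def
  have hsub : E ⊆ range (n + 1) := fun e he => mem_range.2 (hEn e he)
  obtain ⟨j, hj⟩ := Pool.Agent.WBp.cc_dense hp hk (kap_le_two hp g) q n (half_pos hr)
  obtain ⟨i, hi⟩ := bump_exists hr (a := fun i => hh p (kap p g) (fun m => q m - cc i m) n) ⟨j, hj⟩
  refine ⟨i, ?_⟩
  have hpos : 0 < bump ((2 : ℝ) ^ l) (fun i => hh p (kap p g) (fun m => q m - cc i m) n) i := by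
    have : 0 < (2 : ℝ) ^ l / 8 := by positivity
    linarith
  have ha : hh p (kap p g) (fun m => q m - cc i m) n < (2 : ℝ) ^ l :=
    lt_of_bump_pos (a := fun i => hh p (kap p g) (fun m => q m - cc i m) n) hpos
  have hsum : ζ * ((E.card : ℝ) ^ (1 / p) * Hg p g E.card) ≤
      hh p (kap p g) (fun m => q m - cc i m) n + hh p (kap p g) (fun m => q' m - cc i m) n := by
    refine (gauge_lower hp g E (range (n + 1)) hsub (fun m => q m - q' m) ζ hq).trans ?_
    refine ga_add hp hk (fun m _ => ?_)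
    have : q m - q' m = (q m - cc i m) - (q' m - cc i m) := by ring
    rw [this]
    exact abs_sub _ _
  have hzero : bump ((2 : ℝ) ^ l) (fun i => hh p (kap p g) (fun m => q' m - cc i m) n) i = 0 := by
    by_contra hne
    have h0 := bump_nonneg ((2 : ℝ) ^ l) (fun i => hh p (kap p g) (fun m => q' m - cc i m) n) i
    have h1 : hh p (kap p g) (fun m => q' m - cc i m) n < (2 : ℝ) ^ l :=
      lt_of_bump_pos (a := fun i => hh p (kap p g) (fun m => q' m - cc i m) n)
        (lt_of_le_of_ne h0 (Ne.symm hne))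
    linarith
  have e1 : Rmap p g t u (n, Nat.pair l i) = wr p (kap p g) (Lam p g ^ t) u n *
      bump ((2 : ℝ) ^ l) (fun i => hh p (kap p g) (fun m => q m - cc i m) n) i := by
    unfold Rmap
    simp only [Nat.unpair_pair]
    rw [if_pos hl]
  have e2 : Rmap p g t v (n, Nat.pair l i) = 0 := by
    unfold Rmap
    simp only [Nat.unpair_pair]
    rw [if_pos hl]
    have : bump ((2 : ℝ) ^ l)
      (fun i => hh p (kap p g) (fun m => qs p (kap p g) (Lam p g ^ t) v m - cc i m) n) i = 0 :=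
      hzero
    rw [this, mul_zero]
  rw [Pi.sub_apply, e1, e2, sub_zero]
  exact mul_le_mul_of_nonneg_left hi (wr_nonneg p (kap p g) hσ u hu n)

theorem R_detect {p : ℝ} (hp : 1 < p) (g : ℕ) (t : ℕ) (u v : ℕ → ℝ) (hu : ∀ n, 0 ≤ u n)
    (hv : ∀ n, 0 ≤ v n) (E : Finset ℕ) (ζ : ℝ) (hζ : 0 < ζ)
    (hE : ∀ n ∈ E, v n + ζ ≤ u n) (hE' : ∀ n ∈ E, hh p (kap p g) u n < Lam p g ^ t) (N : ℕ)
    (hN : Lam p g ^ (t + 1) ≤ hh p (kap p g) u N) (C' : ℝ)
    (hR : Bd (LN p) (Rmap p g t u - Rmap p g t v) C') :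
    ζ * ((E.card : ℝ) ^ (1 / p) * Hg p g E.card) ≤ 32 * C' + 2 := by
  have hp0 : 0 < p := by linarith
  have hk : ∀ v, 0 ≤ kap p g v := fun v => kap_nonneg hp g v
  have hσ : 0 < Lam p g ^ t := pow_pos (d5_Lam_pos hp g) t
  have hC : 0 ≤ C' := by
    refine le_trans ?_ (hR (true, ∅, 0, fun _ => 0))
    unfold LN
    exact Real.rpow_nonneg (Finset.sum_nonneg fun n _ => Real.rpow_nonneg (abs_nonneg _) _) _
  rcases lt_or_ge (ζ * ((E.card : ℝ) ^ (1 / p) * Hg p g E.card)) 2 with hlt | hge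
  · linarith
  have hne : E.Nonempty := by
    rw [Finset.nonempty_iff_ne_empty]
    rintro rfl
    have h0 : ((∅ : Finset ℕ).card : ℝ) ^ (1 / p) = 0 := by
      rw [Finset.card_empty, Nat.cast_zero, Real.zero_rpow (by positivity)]
    rw [h0] at hge
    linarith
  -- the size of `D`
  have hDσ : ζ * ((E.card : ℝ) ^ (1 / p) * Hg p g E.card) < Lam p g ^ t := by
    refine lt_of_le_of_lt ?_ (hE' _ (E.max'_mem hne))
    refine gauge_lower hp g E (range (E.max' hne + 1))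
      (fun e he => mem_range.2 (Nat.lt_succ_of_le (E.le_max' e he))) u ζ (fun n hn => ?_)
    have h1 := hE n hn
    have h2 := hv n
    exact (by linarith : ζ ≤ u n).trans (le_abs_self _)
  obtain ⟨l, hl1, hl2⟩ := exists_nat_pow_near
    (x := ζ * ((E.card : ℝ) ^ (1 / p) * Hg p g E.card) / 2)
    (y := (2 : ℝ)) (by linarith) (by norm_num)
  have hl2' : ζ * ((E.card : ℝ) ^ (1 / p) * Hg p g E.card) < 4 * (2 : ℝ) ^ l := by
    rw [pow_succ] at hl2
    linarith
  have hl1' : 2 * (2 : ℝ) ^ l ≤ ζ * ((E.card : ℝ) ^ (1 / p) * Hg p g E.card) := by linarith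
  have hr : (0 : ℝ) < (2 : ℝ) ^ l := by positivity
  have hl4 : (2 : ℝ) ^ l ≤ 4 * Lam p g ^ t := by linarith
  -- the early parts differ by at least `ζ` on `E`
  have hq : ∀ m ∈ E,
      ζ ≤ |qs p (kap p g) (Lam p g ^ t) u m - qs p (kap p g) (Lam p g ^ t) v m| := by
    intro m hm
    have h1 : qs p (kap p g) (Lam p g ^ t) u m = u m := by
      unfold qs
      rw [dn_of_le hσ (hE' m hm).le, one_mul]
    have h2 : qs p (kap p g) (Lam p g ^ t) v m ≤ v m := by
      unfold qs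
      calc dn (Lam p g ^ t) (hh p (kap p g) v m) * v m ≤ 1 * v m :=
            mul_le_mul_of_nonneg_right (dn_le_one _ _) (hv m)
        _ = v m := one_mul _
    have h3 := hE m hm
    rw [h1]
    exact (by linarith : ζ ≤ u m - qs p (kap p g) (Lam p g ^ t) v m).trans (le_abs_self _)
  -- choice of the entries
  have hchoice : ∀ n : ℕ, ∃ i : ℕ,
      (|wr p (kap p g) (Lam p g ^ t) u n| * ((2 : ℝ) ^ l / 8)) ^ p ≤
      |(Rmap p g t u - Rmap p g t v) (n, i)| ^ p := by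
    intro n
    by_cases hw : wr p (kap p g) (Lam p g ^ t) u n = 0
    · refine ⟨0, ?_⟩
      rw [hw, abs_zero, zero_mul, Real.zero_rpow hp0.ne']
      exact Real.rpow_nonneg (abs_nonneg _) _
    · have h4 := hh_gt_of_wr p (kap p g) hσ u n hw
      have hEn : ∀ e ∈ E, e < n + 1 := by
        intro e he
        by_contra hcon
        have h5 : hh p (kap p g) u n ≤ hh p (kap p g) u e := hh_mono hp hk u (by omega)
        have h6 := hE' e he
        linarith
      obtain ⟨i, hi⟩ := d5_entry hp g t u v hu E ζ hq l hl4 hl1' n hEn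
      refine ⟨Nat.pair l i, ?_⟩
      have h8 := wr_nonneg p (kap p g) hσ u hu n
      rw [abs_of_nonneg h8]
      have h7 : 0 ≤ wr p (kap p g) (Lam p g ^ t) u n * ((2 : ℝ) ^ l / 8) :=
        mul_nonneg h8 (by positivity)
      exact Real.rpow_le_rpow h7 (hi.trans (le_abs_self _)) hp0.le
  choose ι hι using hchoice
  have hfun := hR (true, range (N + 1), 0, ι)
  have hlow : (2 : ℝ) ^ l / 8 * np p (range (N + 1)) (wr p (kap p g) (Lam p g ^ t) u) ≤
      LN p (true, range (N + 1), 0, ι) (Rmap p g t u - Rmap p g t v) := by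
    unfold LN np
    have hc : (0 : ℝ) ≤ (2 : ℝ) ^ l / 8 := by positivity
    have h8 : (2 : ℝ) ^ l / 8 *
        (∑ n ∈ range (N + 1), |wr p (kap p g) (Lam p g ^ t) u n| ^ p) ^ (1 / p) =
        (∑ n ∈ range (N + 1),
          (|wr p (kap p g) (Lam p g ^ t) u n| * ((2 : ℝ) ^ l / 8)) ^ p) ^ (1 / p) := by
      have h9 : ∑ n ∈ range (N + 1),
          (|wr p (kap p g) (Lam p g ^ t) u n| * ((2 : ℝ) ^ l / 8)) ^ p =
          ((2 : ℝ) ^ l / 8) ^ p * ∑ n ∈ range (N + 1), |wr p (kap p g) (Lam p g ^ t) u n| ^ p := by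
        rw [Finset.mul_sum]
        refine Finset.sum_congr rfl (fun n _ => ?_)
        rw [Real.mul_rpow (abs_nonneg _) hc, mul_comm]
      rw [h9, Real.mul_rpow (Real.rpow_nonneg hc _)
        (Finset.sum_nonneg fun n _ => Real.rpow_nonneg (abs_nonneg _) _),
        ← Real.rpow_mul hc, mul_one_div_cancel hp0.ne', Real.rpow_one]
    rw [h8]
    exact Real.rpow_le_rpow (Finset.sum_nonneg fun n _ => Real.rpow_nonneg (by positivity) _)
      (Finset.sum_le_sum (fun n _ => hι n)) (by positivity)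
  have hcap := wr_capacity hp g t u hu N hN
  have h10 : (2 : ℝ) ^ l / 8 * 1 ≤
      (2 : ℝ) ^ l / 8 * np p (range (N + 1)) (wr p (kap p g) (Lam p g ^ t) u) :=
    mul_le_mul_of_nonneg_left hcap (by positivity)
  linarith

end Pool.Agent.WBp
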