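import Pool.Agent.Lib.MP_c7fb7b_an.S3
import Pool.Agent.Lib.MP_c7fb7b_an.B1
import Pool.Agent.Lib.MP_c7fb7b_an.D1

/-!
# MP_c7fb7b_an, general exponent: definitions

The weak `p`-Banach-Saks property is not preserved by weakly sequentially continuous coarse
Lipschitz embeddings, for every `1 < p < ∞`.  The case `p = 2` is in `MP_c7fb7b_an/`; everything which
does not depend on the exponent is reused (`Bd`, `LatFam`, `Sp`, `sumN`, the clamps, the bumps, `dV`,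
`N1`, `JJ`, `Cp`, `YI`, `sgn`, `k0`, `cc`).
-/

open Finset Filter Topology Pool.Agent.WB

namespace Pool.Agent.WBp

variable {ι J Γ : Type}

/-- The subsequence property with exponent `p`. -/
def PP (p : ℝ) (N : J → (Γ → ℝ) → ℝ) (C : ℝ) : Prop :=
  ∀ y : ℕ → Γ → ℝ, (∀ q, (Function.support (y q)).Finite) → (∀ q, Bd N (y q) 1) →
    (∀ γ, Tendsto (fun q => y q γ) atTop (𝓝 0)) → ∀ k : ℕ, ∀ M₀ : Set ℕ, M₀.Infinite →
      ∃ M : Set ℕ, M ⊆ M₀ ∧ M.Infinite ∧ ∀ F : Finset ℕ, (F : Set ℕ) ⊆ M → F.card ≤ k →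
        Bd N (∑ q ∈ F, y q) (C * (k : ℝ) ^ (1 / p))

/-! ## Harmonic sums and gauges -/

/-- The conjugate exponent. -/
noncomputable def qq (p : ℝ) : ℝ := p / (p - 1)

/-- Harmonic sums. -/
noncomputable def H0 (v : ℕ) : ℝ := ∑ d ∈ range v, 1 / ((d : ℝ) + 1)

/-- One plus the harmonic sum divided by `q` (`1 / q = 1 - 1 / p`); then `Hm p v / v ^ (1 / q)` is
nonincreasing for `v ≥ 1`. -/
noncomputable def Hm (p : ℝ) (v : ℕ) : ℝ := 1 + (1 - 1 / p) * H0 v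

/-- Truncated version. -/
noncomputable def Hg (p : ℝ) (g v : ℕ) : ℝ := Hm p (min v g)

/-- The coefficient `H_g(v) / v ^ (1 / q)`. -/
noncomputable def kap (p : ℝ) (g v : ℕ) : ℝ := Hg p g v / (v : ℝ) ^ (1 - 1 / p)

/-- The `ℓ_p` norm on a finite set. -/
noncomputable def np (p : ℝ) (s : Finset ℕ) (x : ℕ → ℝ) : ℝ := (∑ m ∈ s, |x m| ^ p) ^ (1 / p)

/-- The gauge of the restriction of `x` to the finite set `s`. -/
noncomputable def ga (p : ℝ) (k : ℕ → ℝ) (s : Finset ℕ) (x : ℕ → ℝ) : ℝ :=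
  max (np p s x)
    (s.powerset.sup' ⟨∅, empty_mem_powerset s⟩ (fun V => k V.card * ∑ m ∈ V, |x m|))

/-- The gauge of the initial segment `{0, …, n}`. -/
noncomputable def hh (p : ℝ) (k : ℕ → ℝ) (x : ℕ → ℝ) (n : ℕ) : ℝ := ga p k (range (n + 1)) x

/-! ## The edge components -/

/-- The ratio of the windows. -/
noncomputable def Lam (p : ℝ) (g : ℕ) : ℝ := 8 + Hm p g

/-- The band threshold `τ`. -/
noncomputable def tau (p : ℝ) (g t i : ℕ) : ℝ := Lam p g ^ (t + 2) * (1 / 2) ^ i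

/-- The band cap `B`. -/
noncomputable def Bc (p : ℝ) (g t : ℕ) : ℝ := 2 * Lam p g ^ (t + 2) * Hm p g

/-- The edge component. -/
noncomputable def Kmap (p : ℝ) (g t i : ℕ) (u : ℕ → ℝ) : ℕ × ℕ → ℝ := fun e =>
  if e.1 < e.2 then chi (Lam p g ^ t) (Lam p g ^ (t + 2)) (hh p (kap p g) u e.2) *
    min (bet (tau p g t i) (Bc p g t) (u e.1)) (bet (tau p g t i) (Bc p g t) (u e.2)) else 0

/-- The main edge functional. -/
noncomputable def NV (p : ℝ) (g : ℕ) (V : Finset ℕ) (y : ℕ × ℕ → ℝ) : ℝ :=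
  ((1 - 1 / p) * ((V.card : ℝ) ^ (1 - 1 / p))⁻¹) *
    ∑ b ∈ V, ∑ n ∈ V, if b < n ∧ dV V b n ≤ g then |y (b, n)| / (dV V b n : ℝ) else 0

/-- The edge family. -/
noncomputable def EN (p : ℝ) (g : ℕ) (G : ℝ) : JJ → (ℕ × ℕ → ℝ) → ℝ := fun j y =>
  if j.1 = true then NV p g j.2.1 y else N1 G j.2.2.1 j.2.2.2 y

/-- The bound for the number of active rows. -/
noncomputable def GG (p : ℝ) (i : ℕ) : ℝ := 2 * (2 : ℝ) ^ (p * ((i : ℝ) + 1))

/-! ## The recorder -/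

/-- The family of `ℓ_p(c₀)`. -/
noncomputable def LN (p : ℝ) : JJ → (ℕ × ℕ → ℝ) → ℝ := fun j y =>
  (∑ n ∈ j.2.1, |y (n, j.2.2.2 n)| ^ p) ^ (1 / p)

/-- The early part of `u`. -/
noncomputable def qs (p : ℝ) (k : ℕ → ℝ) (σ : ℝ) (u : ℕ → ℝ) (m : ℕ) : ℝ :=
  dn σ (hh p k u m) * u m

/-- The late part of `u`. -/
noncomputable def xt (p : ℝ) (k : ℕ → ℝ) (σ : ℝ) (u : ℕ → ℝ) (n : ℕ) : ℝ :=
  up (4 * σ) (hh p k u n) * u n

/-- The capped late part. -/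
noncomputable def xb (p : ℝ) (k : ℕ → ℝ) (σ : ℝ) (u : ℕ → ℝ) (n : ℕ) : ℝ := min (xt p k σ u n) σ

/-- The carrier. -/
noncomputable def wr (p : ℝ) (k : ℕ → ℝ) (σ : ℝ) (u : ℕ → ℝ) (n : ℕ) : ℝ :=
  σ⁻¹ * (dn (2 * σ) (hh p k0 (xb p k σ u) n) * xb p k σ u n)

/-- The recorder. -/
noncomputable def Rmap (p : ℝ) (g t : ℕ) (u : ℕ → ℝ) : ℕ × ℕ → ℝ := fun e =>
  if (2 : ℝ) ^ (Nat.unpair e.2).1 ≤ 4 * Lam p g ^ t then
    wr p (kap p g) (Lam p g ^ t) u e.1 *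
      bump (2 ^ (Nat.unpair e.2).1)
        (fun i => hh p (kap p g) (fun m => qs p (kap p g) (Lam p g ^ t) u m - cc i m) e.1)
        (Nat.unpair e.2).2
  else 0

/-! ## The components and the map -/

/-- The component maps. -/
noncomputable def Fm (p : ℝ) (g : ℕ) : Cp → (ℕ → ℝ) → ℕ × ℕ → ℝ
  | Cp.base => fun u e => if e.2 = 0 then u e.1 else 0
  | Cp.edge t i => Kmap p g t i
  | Cp.rcd t => Rmap p g t

/-- The component families. -/
noncomputable def YN (p : ℝ) (g : ℕ) : Cp → JJ → (ℕ × ℕ → ℝ) → ℝ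
  | Cp.base => LN p
  | Cp.edge _ i => EN p g (GG p i)
  | Cp.rcd _ => LN p

/-- The family of `Y`. -/
noncomputable def YF (p : ℝ) : YI × JJ → (YI × (ℕ × ℕ) → ℝ) → ℝ :=
  sumN (fun c : YI => YN p (c.1 + 1) c.2.2)

/-- The family of `X`. -/
noncomputable def XF (p : ℝ) : ℕ × Finset ℕ → (ℕ × ℕ → ℝ) → ℝ :=
  sumN (fun (g : ℕ) (s : Finset ℕ) (x : ℕ → ℝ) => ga p (kap p (g + 1)) s x)

/-- The map on functions. -/
noncomputable def fr (p : ℝ) (x : ℕ × ℕ → ℝ) : YI × (ℕ × ℕ) → ℝ := fun e =>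
  Fm p (e.1.1 + 1) e.1.2.2 (sgn e.1.2.1 (fun n => x (e.1.1, n))) e.2

/-- The constant of the lower bound. -/
noncomputable def cL (p : ℝ) : ℝ := 3 * qq p * (4096 * (1 + qq p))

/-- The constant of the lower bound. -/
noncomputable def dL (p : ℝ) : ℝ := 3 * qq p * 256

end Pool.Agent.WBp
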