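import Pool.Agent.Lib.MP_c7fb7b_an_p.C2
import Pool.Agent.Lib.MP_c7fb7b_an_p.D5

/-!
# E1 (general exponent): full detection

Same as `MP_c7fb7b_an/E1.lean` (`4 * max (32 (1+q) C' + 1) (32 C' + 2) ≤ 128 (1+q) C' + 8`).
-/

open Finset Filter Topology Pool.Agent.WB

namespace Pool.Agent.WBp

theorem e1_LN_single {p : ℝ} (hp : 1 < p) (n : ℕ) (f : ℕ → ℕ) (m : ℕ) (b : Bool)
    (y : ℕ × ℕ → ℝ) : LN p (b, {n}, m, f) y = |y (n, f n)| := by
  have hp0 : p ≠ 0 := by linarith
  unfold LN
  simp only [Finset.sum_singleton]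
  rw [← Real.rpow_mul (abs_nonneg _), mul_one_div_cancel hp0, Real.rpow_one]

theorem detect {p : ℝ} (hp : 1 < p) (g : ℕ) (hg : 1 ≤ g) (u v : ℕ → ℝ) (hu : ∀ n, 0 ≤ u n)
    (hv : ∀ n, 0 ≤ v n) (J : Finset ℕ) (ζ : ℝ) (hζ : 0 < ζ)
    (hJ : ∀ n ∈ J, v n + ζ ≤ u n) (C' : ℝ)
    (hF : ∀ c, Bd (YN p g c) (Fm p g c u - Fm p g c v) C') :
    ζ * ((J.card : ℝ) ^ (1 / p) * Hg p g J.card) ≤ 128 * (1 + qq p) * C' + 8 := by
  classical
  have hk : ∀ w, 0 ≤ kap p g w := kap_nonneg hp g
  have hq := one_le_qq hp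
  have hp0 : (1 / p) ≠ 0 := by
    have : 0 < 1 / p := by positivity
    exact this.ne'
  have hbase : ∀ n, |u n - v n| ≤ C' := by
    intro n
    have h := hF Cp.base (false, {n}, 0, fun _ => 0)
    have h3 : LN p (false, {n}, 0, fun _ => 0) (Fm p g Cp.base u - Fm p g Cp.base v) ≤ C' := h
    rw [e1_LN_single hp] at h3
    simpa [Pi.sub_apply, Fm] using h3
  have hC : 0 ≤ C' := le_trans (abs_nonneg _) (hbase 0)
  have hqC : 0 ≤ qq p * C' := mul_nonneg (by linarith) hC
  have hqC1 : C' ≤ qq p * C' := by nlinarith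
  -- the gauge bound for a subset of `J`
  have hgl : ∀ A : Finset ℕ, A ⊆ J → ∀ n, (∀ m ∈ A, m ≤ n) →
      ζ * ((A.card : ℝ) ^ (1 / p) * Hg p g A.card) ≤ hh p (kap p g) u n := by
    intro A hA n hn
    unfold hh
    refine gauge_lower hp g A (range (n + 1)) ?_ u ζ ?_
    · intro m hm
      exact Finset.mem_range.2 (Nat.lt_succ_of_le (hn m hm))
    · intro m hm
      have h1 := hJ m (hA hm)
      have h2 := hv m
      rw [abs_of_nonneg (hu m)]
      linarith
  rcases J.eq_empty_or_nonempty with hJe | hJn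
  · subst hJe
    simp only [Finset.card_empty, Nat.cast_zero, Real.zero_rpow hp0, zero_mul, mul_zero]
    nlinarith
  set N := J.max' hJn with hNdef
  have hNJ : ∀ m ∈ J, m ≤ N := fun m hm => Finset.le_max' J m hm
  have hDJ := hgl J (Finset.Subset.refl J) N hNJ
  by_cases hh1 : hh p (kap p g) u N < 1
  · nlinarith
  have hLam : 1 < Lam p g := by
    unfold Lam
    have := one_le_Hm hp g
    linarith
  obtain ⟨s, hs1, hs2⟩ := exists_nat_pow_near (not_lt.1 hh1) hLam
  set t := s - 1 with ht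
  set E := J.filter (fun n => hh p (kap p g) u n < Lam p g ^ t) with hEdef
  set M := J.filter (fun n => ¬ hh p (kap p g) u n < Lam p g ^ t) with hMdef
  have hcard : E.card + M.card = J.card := by
    rw [hEdef, hMdef]
    exact Finset.card_filter_add_card_filter_not _
  have hDM : ζ * ((M.card : ℝ) ^ (1 / p) * Hg p g M.card) ≤ 32 * (1 + qq p) * C' + 1 := by
    refine K_detect hp g hg t u v hu hv M ζ hζ (fun n hn => hJ n (Finset.mem_filter.1 hn).1) ?_ C'
      hbase (fun i => hF (Cp.edge t i))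
    intro n hn
    obtain ⟨hnJ, hn2⟩ := Finset.mem_filter.1 hn
    refine ⟨not_lt.1 hn2, ?_⟩
    have h1 : hh p (kap p g) u n ≤ hh p (kap p g) u N := hh_mono hp hk u (hNJ n hnJ)
    have h2 : Lam p g ^ (s + 1) ≤ Lam p g ^ (t + 2) :=
      pow_le_pow_right₀ hLam.le (by omega)
    linarith
  have hDE : ζ * ((E.card : ℝ) ^ (1 / p) * Hg p g E.card) ≤ 32 * C' + 2 := by
    rcases Nat.eq_zero_or_pos s with hs0 | hspos
    · rcases E.eq_empty_or_nonempty with hEe | hEn
      · rw [hEe]
        simp only [Finset.card_empty, Nat.cast_zero, Real.zero_rpow hp0, zero_mul, mul_zero]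
        linarith
      · have h1 := hgl E (Finset.filter_subset _ _) (E.max' hEn)
          (fun m hm => Finset.le_max' E m hm)
        have h2 := (Finset.mem_filter.1 (E.max'_mem hEn)).2
        have ht0 : t = 0 := by omega
        have h3 : hh p (kap p g) u (E.max' hEn) < 1 := by
          have : Lam p g ^ t = 1 := by rw [ht0, pow_zero]
          rw [this] at h2
          exact h2
        linarith
    · refine R_detect hp g t u v hu hv E ζ hζ (fun n hn => hJ n (Finset.mem_filter.1 hn).1)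
        (fun n hn => (Finset.mem_filter.1 hn).2) N ?_ C' (hF (Cp.rcd t))
      have : t + 1 = s := by omega
      rw [this]
      exact hs1
  rcases le_total E.card M.card with hEM | hME
  · have h1 := sq_double hp g (v := J.card) (w := M.card) (by omega)
    have h2 := mul_le_mul_of_nonneg_left h1 hζ.le
    nlinarith
  · have h1 := sq_double hp g (v := J.card) (w := E.card) (by omega)
    have h2 := mul_le_mul_of_nonneg_left h1 hζ.le
    nlinarith

end Pool.Agent.WBp
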