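import Pool.Agent.Lib.MP_c7fb7b_an_p.A2

/-!
# E2 (general exponent): from level sets to the gauge

As in `MP_c7fb7b_an/E2.lean`, `q = qq p`.  `b v = ∑_{i<v} 1/((i+1)^(1/p) * Hg p g (i+1))`.
`(w+1)^(1/q) - w^(1/q) ≥ (1/q) (w+1)^(-1/p)` (concavity; e.g. Bernoulli
`Real.one_add_mul_self_le_rpow_one_add` / `Real.rpow_one_add_le_one_add_mul_self` for the base
`w/(w+1) = 1 - 1/(w+1)` and the exponent `1/q ∈ (0,1)`: `(w/(w+1))^(1/q) ≤ 1 - (1/q)/(w+1)`).
So `b v ≤ q v^(1/q)`.  Claim `b v * Hg p g v ≤ 3 q v^(1/q)`: if `Hg ≤ 3` clear; otherwise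
`v = w + 1`, `Hg p g w ≥ 2` and `b v Hg v = b w Hg v + v^(-1/p)
≤ b w Hg w + b w (1/q)/v + v^(-1/p) ≤ 3 q w^(1/q) + (3/2) v^(-1/p) + v^(-1/p) ≤ 3 q v^(1/q)`
(`b w ≤ 3 q w^(1/q)/Hg w ≤ (3/2) q w^(1/q)`, `w^(1/q)/v ≤ v^(-1/p)`).
-/

open Finset Filter Topology Pool.Agent.WB

namespace Pool.Agent.WBp

/-- The comparison sums. -/
noncomputable def pe2b (p : ℝ) (g v : ℕ) : ℝ :=
  ∑ i ∈ range v, 1 / (((i : ℝ) + 1) ^ (1 / p) * Hg p g (i + 1))

theorem pe2b_succ (p : ℝ) (g w : ℕ) :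
    pe2b p g (w + 1) = pe2b p g w + 1 / (((w : ℝ) + 1) ^ (1 / p) * Hg p g (w + 1)) := by
  unfold pe2b
  rw [Finset.sum_range_succ]

theorem pe2_exp {p : ℝ} (hp : 1 < p) : 0 < 1 - 1 / p ∧ 1 - 1 / p < 1 := by
  have h0 : 0 < p := by linarith
  have h1 : 1 / p < 1 := by
    rw [div_lt_one h0]
    exact hp
  have h2 : 0 < 1 / p := by positivity
  constructor <;> linarith

theorem pe2_div {p : ℝ} (w : ℕ) :
    ((w : ℝ) + 1) ^ (1 - 1 / p) / ((w : ℝ) + 1) = 1 / ((w : ℝ) + 1) ^ (1 / p) := by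
  have h0 : (0 : ℝ) < (w : ℝ) + 1 := by positivity
  have h1 : 0 < ((w : ℝ) + 1) ^ (1 / p) := Real.rpow_pos_of_pos h0 _
  rw [Real.rpow_sub h0, Real.rpow_one]
  field_simp

theorem pe2_gap {p : ℝ} (hp : 1 < p) (w : ℕ) : 1 / ((w : ℝ) + 1) ^ (1 / p) ≤
    qq p * (((w : ℝ) + 1) ^ (1 - 1 / p) - (w : ℝ) ^ (1 - 1 / p)) := by
  have h0 : (0 : ℝ) < (w : ℝ) + 1 := by positivity
  obtain ⟨he0, he1⟩ := pe2_exp hp
  have hq : 0 < qq p := lt_of_lt_of_le one_pos (one_le_qq hp)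
  have hqe : qq p * (1 - 1 / p) = 1 := by
    rw [inv_qq hp]
    exact mul_inv_cancel₀ hq.ne'
  have h1 : (1 + -(1 / ((w : ℝ) + 1))) ^ (1 - 1 / p) ≤
      1 + (1 - 1 / p) * -(1 / ((w : ℝ) + 1)) := by
    apply rpow_one_add_le_one_add_mul_self _ he0.le he1.le
    have : 1 / ((w : ℝ) + 1) ≤ 1 := by
      rw [div_le_one h0]
      have : (0 : ℝ) ≤ w := by positivity
      linarith
    linarith
  have h2 : (1 + -(1 / ((w : ℝ) + 1))) = (w : ℝ) / ((w : ℝ) + 1) := by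
    field_simp
    ring
  rw [h2, Real.div_rpow (by positivity) h0.le] at h1
  have h3 : 0 < ((w : ℝ) + 1) ^ (1 - 1 / p) := Real.rpow_pos_of_pos h0 _
  rw [div_le_iff₀ h3] at h1
  have h4 := pe2_div (p := p) w
  have h5 : (1 + (1 - 1 / p) * -(1 / ((w : ℝ) + 1))) * ((w : ℝ) + 1) ^ (1 - 1 / p) =
      ((w : ℝ) + 1) ^ (1 - 1 / p) - (1 - 1 / p) * (1 / ((w : ℝ) + 1) ^ (1 / p)) := by
    rw [← h4]
    ring
  rw [h5] at h1
  have h6 : (1 - 1 / p) * (1 / ((w : ℝ) + 1) ^ (1 / p)) ≤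
      ((w : ℝ) + 1) ^ (1 - 1 / p) - (w : ℝ) ^ (1 - 1 / p) := by linarith
  have h7 := mul_le_mul_of_nonneg_left h6 hq.le
  rw [← mul_assoc, hqe, one_mul] at h7
  exact h7

theorem pe2_nonneg {p : ℝ} (hp : 1 < p) (g v : ℕ) : 0 ≤ pe2b p g v := by
  unfold pe2b
  refine Finset.sum_nonneg (fun i _ => ?_)
  have := one_le_Hg hp g (i + 1)
  have h2 : (0 : ℝ) ≤ ((i : ℝ) + 1) ^ (1 / p) := by positivity
  positivity

theorem pe2b_le {p : ℝ} (hp : 1 < p) (g v : ℕ) : pe2b p g v ≤ qq p * (v : ℝ) ^ (1 - 1 / p) := by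
  induction v with
  | zero =>
    have hq : 0 < qq p := lt_of_lt_of_le one_pos (one_le_qq hp)
    simp only [pe2b, Finset.range_zero, Finset.sum_empty]
    positivity
  | succ w ih =>
    rw [pe2b_succ]
    have h0 : (0 : ℝ) < (w : ℝ) + 1 := by positivity
    have h1 : 0 < ((w : ℝ) + 1) ^ (1 / p) := Real.rpow_pos_of_pos h0 _
    have h2 : 1 ≤ Hg p g (w + 1) := one_le_Hg hp g (w + 1)
    have h3 : 1 / (((w : ℝ) + 1) ^ (1 / p) * Hg p g (w + 1)) ≤ 1 / ((w : ℝ) + 1) ^ (1 / p) := by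
      apply one_div_le_one_div_of_le h1
      nlinarith
    have h4 := pe2_gap hp w
    push_cast
    linarith

theorem pe2_Hg_succ {p : ℝ} (hp : 1 < p) (g w : ℕ) :
    Hg p g (w + 1) ≤ Hg p g w + (1 - 1 / p) * (1 / ((w : ℝ) + 1)) := by
  obtain ⟨he0, _⟩ := pe2_exp hp
  unfold Hg
  by_cases h : w + 1 ≤ g
  · rw [min_eq_left h, min_eq_left (by omega : w ≤ g), Hm_succ]
  · rw [min_eq_right (by omega : g ≤ w + 1), min_eq_right (by omega : g ≤ w)]
    have : (0 : ℝ) ≤ (1 - 1 / p) * (1 / ((w : ℝ) + 1)) := by positivity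
    linarith

theorem pe2_claim {p : ℝ} (hp : 1 < p) (g v : ℕ) :
    pe2b p g v * Hg p g v ≤ 3 * qq p * (v : ℝ) ^ (1 - 1 / p) := by
  have hq : 0 < qq p := lt_of_lt_of_le one_pos (one_le_qq hp)
  obtain ⟨he0, he1⟩ := pe2_exp hp
  have hqe : qq p * (1 - 1 / p) = 1 := by
    rw [inv_qq hp]
    exact mul_inv_cancel₀ hq.ne'
  induction v with
  | zero =>
    simp only [pe2b, Finset.range_zero, Finset.sum_empty, zero_mul]
    positivity
  | succ w ih =>
    have hH1 : 1 ≤ Hg p g (w + 1) := one_le_Hg hp g _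
    by_cases h5 : Hg p g (w + 1) ≤ 3
    · have h1 := pe2b_le hp g (w + 1)
      have h0 := pe2_nonneg hp g (w + 1)
      calc pe2b p g (w + 1) * Hg p g (w + 1) ≤ pe2b p g (w + 1) * 3 :=
            mul_le_mul_of_nonneg_left h5 h0
        _ ≤ (qq p * ((w + 1 : ℕ) : ℝ) ^ (1 - 1 / p)) * 3 :=
            mul_le_mul_of_nonneg_right h1 (by norm_num)
        _ = 3 * qq p * ((w + 1 : ℕ) : ℝ) ^ (1 - 1 / p) := by ring
    · push Not at h5
      have hw := pe2_Hg_succ hp g w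
      have hw0 : (0 : ℝ) < (w : ℝ) + 1 := by positivity
      have hw1 : (1 : ℝ) / ((w : ℝ) + 1) ≤ 1 := by
        rw [div_le_one hw0]
        have : (0 : ℝ) ≤ w := by positivity
        linarith
      have hw2 : (0 : ℝ) ≤ 1 / ((w : ℝ) + 1) := by positivity
      have h4 : 2 ≤ Hg p g w := by nlinarith
      have hpos : 0 < Hg p g (w + 1) := by linarith
      have hT : 0 < ((w : ℝ) + 1) ^ (1 / p) := Real.rpow_pos_of_pos hw0 _
      have hb0 := pe2_nonneg hp g w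
      rw [pe2b_succ]
      have e1 : (pe2b p g w + 1 / (((w : ℝ) + 1) ^ (1 / p) * Hg p g (w + 1))) * Hg p g (w + 1) =
          pe2b p g w * Hg p g (w + 1) + 1 / ((w : ℝ) + 1) ^ (1 / p) := by
        field_simp
      rw [e1]
      have e2 : pe2b p g w * Hg p g (w + 1) ≤
          pe2b p g w * Hg p g w + pe2b p g w * ((1 - 1 / p) * (1 / ((w : ℝ) + 1))) := by
        rw [← mul_add]
        exact mul_le_mul_of_nonneg_left hw hb0
      have e3 : pe2b p g w ≤ 3 * qq p * (w : ℝ) ^ (1 - 1 / p) / 2 := by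
        rw [le_div_iff₀ (by norm_num)]
        calc pe2b p g w * 2 ≤ pe2b p g w * Hg p g w := mul_le_mul_of_nonneg_left h4 hb0
          _ ≤ _ := ih
      have hmono : (w : ℝ) ^ (1 - 1 / p) ≤ ((w : ℝ) + 1) ^ (1 - 1 / p) :=
        Real.rpow_le_rpow (by positivity) (by linarith) he0.le
      have e4 : pe2b p g w * ((1 - 1 / p) * (1 / ((w : ℝ) + 1))) ≤
          (3 / 2) * (1 / ((w : ℝ) + 1) ^ (1 / p)) := by
        calc pe2b p g w * ((1 - 1 / p) * (1 / ((w : ℝ) + 1)))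
            ≤ (3 * qq p * (w : ℝ) ^ (1 - 1 / p) / 2) * ((1 - 1 / p) * (1 / ((w : ℝ) + 1))) :=
              mul_le_mul_of_nonneg_right e3 (by positivity)
          _ = (3 / 2) * (qq p * (1 - 1 / p)) * ((w : ℝ) ^ (1 - 1 / p) / ((w : ℝ) + 1)) := by
              ring
          _ = (3 / 2) * ((w : ℝ) ^ (1 - 1 / p) / ((w : ℝ) + 1)) := by rw [hqe, mul_one]
          _ ≤ (3 / 2) * (((w : ℝ) + 1) ^ (1 - 1 / p) / ((w : ℝ) + 1)) := by
              gcongr
          _ = (3 / 2) * (1 / ((w : ℝ) + 1) ^ (1 / p)) := by rw [pe2_div]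
      have e5 := pe2_gap hp w
      have e6 : 0 ≤ 1 / ((w : ℝ) + 1) ^ (1 / p) := by positivity
      push_cast
      nlinarith

theorem pe2_level {p : ℝ} (hp : 1 < p) (g : ℕ) (z : ℕ → ℝ) (M : ℝ) (hM : 0 ≤ M)
    (h : ∀ (J : Finset ℕ) (ζ : ℝ), 0 < ζ → (∀ n ∈ J, ζ ≤ |z n|) →
      ζ * ((J.card : ℝ) ^ (1 / p) * Hg p g J.card) ≤ M) (v : ℕ) :
    ∀ V : Finset ℕ, V.card = v → ∑ n ∈ V, |z n| ≤ M * pe2b p g v := by
  classical
  induction v with
  | zero =>
    intro V hV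
    rw [Finset.card_eq_zero] at hV
    subst hV
    simp [pe2b]
  | succ w ih =>
    intro V hV
    have hne : V.Nonempty := by
      rw [← Finset.card_pos]
      omega
    obtain ⟨n₀, hn₀, hmin⟩ := V.exists_min_image (fun n => |z n|) hne
    rw [← Finset.add_sum_erase V _ hn₀, pe2b_succ]
    have h1 := ih (V.erase n₀) (by rw [Finset.card_erase_of_mem hn₀, hV]; rfl)
    have hH := one_le_Hg hp g (w + 1)
    have hw0 : (0 : ℝ) < (w : ℝ) + 1 := by positivity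
    have hT : 0 < ((w : ℝ) + 1) ^ (1 / p) := Real.rpow_pos_of_pos hw0 _
    have h2 : |z n₀| ≤ M * (1 / (((w : ℝ) + 1) ^ (1 / p) * Hg p g (w + 1))) := by
      rcases (abs_nonneg (z n₀)).eq_or_lt with h0 | h0
      · rw [← h0]
        positivity
      · have h3 := h V |z n₀| h0 (fun n hn => hmin n hn)
        rw [hV] at h3
        push_cast at h3
        rw [mul_one_div]
        have hz : 0 < Hg p g (w + 1) := by linarith
        rw [le_div_iff₀ (mul_pos hT hz)]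
        exact h3
    linarith

theorem level_to_gauge {p : ℝ} (hp : 1 < p) (g : ℕ) (z : ℕ → ℝ) (M : ℝ)
    (h : ∀ (J : Finset ℕ) (ζ : ℝ), 0 < ζ → (∀ n ∈ J, ζ ≤ |z n|) →
      ζ * ((J.card : ℝ) ^ (1 / p) * Hg p g J.card) ≤ M) (V : Finset ℕ) :
    kap p g V.card * ∑ n ∈ V, |z n| ≤ 3 * qq p * M := by
  have hq : 0 < qq p := lt_of_lt_of_le one_pos (one_le_qq hp)
  obtain ⟨he0, he1⟩ := pe2_exp hp
  have hp0 : 1 / p ≠ 0 := by
    have : 0 < 1 / p := by positivity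
    exact this.ne'
  have hM : 0 ≤ M := by
    have := h ∅ 1 one_pos (by simp)
    simp only [Finset.card_empty, Nat.cast_zero, Real.zero_rpow hp0, zero_mul, mul_zero] at this
    exact this
  have h1 := pe2_level hp g z M hM h V.card V rfl
  have h2 := pe2_claim hp g V.card
  rcases Nat.eq_zero_or_pos V.card with h0 | h0
  · rw [Finset.card_eq_zero] at h0
    subst h0
    simp only [Finset.sum_empty, mul_zero]
    positivity
  · have hc : (0 : ℝ) < (V.card : ℝ) := by exact_mod_cast h0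
    have hs : 0 < (V.card : ℝ) ^ (1 - 1 / p) := Real.rpow_pos_of_pos hc _
    have hk := kap_nonneg hp g V.card
    calc kap p g V.card * ∑ n ∈ V, |z n| ≤ kap p g V.card * (M * pe2b p g V.card) :=
          mul_le_mul_of_nonneg_left h1 hk
      _ = M * (pe2b p g V.card * Hg p g V.card) / (V.card : ℝ) ^ (1 - 1 / p) := by
          unfold kap
          ring
      _ ≤ M * (3 * qq p * (V.card : ℝ) ^ (1 - 1 / p)) / (V.card : ℝ) ^ (1 - 1 / p) := by
          apply div_le_div_of_nonneg_right _ hs.le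
          exact mul_le_mul_of_nonneg_left h2 hM
      _ = 3 * qq p * M := by
          field_simp

end Pool.Agent.WBp
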