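import Pool.Agent.Lib.MP_c7fb7b_an_p.E1
import Pool.Agent.Lib.MP_c7fb7b_an_p.E2

/-!
# E3 (general exponent): lower bound for signed vectors

Same as `MP_c7fb7b_an/E3.lean`: level sets of `x - y`: `≤ 32 (128 (1+q) C' + 8) = 4096 (1+q) C' + 256`,
times `3 q` from `level_to_gauge`: `cL p * C' + dL p`.  `l_p` part `≤ 2 C'`.
-/

open Finset Filter Topology Pool.Agent.WB

namespace Pool.Agent.WBp

theorem pe3_YN_sub (p : ℝ) (g : ℕ) (c : Cp) (j : JJ) (y z : ℕ × ℕ → ℝ) :
    YN p g c j (y - z) = YN p g c j (z - y) := by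
  have ha : ∀ e, |(y - z) e| = |(z - y) e| := fun e => abs_sub_comm _ _
  have hLN : LN p j (y - z) = LN p j (z - y) := by
    unfold LN
    simp only [ha]
  cases c with
  | base => exact hLN
  | rcd t => exact hLN
  | edge t i =>
    show EN p g _ j (y - z) = EN p g _ j (z - y)
    unfold EN
    split_ifs with h
    · unfold NV
      simp only [ha]
    · unfold N1
      simp only [ha]

theorem pe3_sgn_nonneg (b : Bool) (x : ℕ → ℝ) (n : ℕ) : 0 ≤ sgn b x n := by
  unfold sgn
  split_ifs <;> exact le_max_right _ _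

theorem pe3_sgn_sub (x : ℕ → ℝ) (n : ℕ) : x n = sgn true x n - sgn false x n := by
  unfold sgn
  simp only [if_true, Bool.false_eq_true, if_false]
  rcases le_total 0 (x n) with h | h
  · rw [max_eq_left h, max_eq_right (by linarith)]; ring
  · rw [max_eq_right h, max_eq_left (by linarith)]; ring

theorem pe3_level {p : ℝ} (hp : 1 < p) (g : ℕ) (hg : 1 ≤ g) (x y : ℕ → ℝ) (C' : ℝ)
    (hF : ∀ (b : Bool) (c : Cp),
      Bd (YN p g c) (Fm p g c (sgn b x) - Fm p g c (sgn b y)) C')
    (J : Finset ℕ) (ζ : ℝ) (hζ : 0 < ζ) (hJ : ∀ n ∈ J, ζ ≤ |(x - y) n|) :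
    ζ * ((J.card : ℝ) ^ (1 / p) * Hg p g J.card) ≤ 4096 * (1 + qq p) * C' + 256 := by
  classical
  have hF' : ∀ (b : Bool) (c : Cp),
      Bd (YN p g c) (Fm p g c (sgn b y) - Fm p g c (sgn b x)) C' := by
    intro b c j
    rw [pe3_YN_sub]
    exact hF b c j
  have hfin : ∀ J' : Finset ℕ, J.card ≤ 4 * J'.card →
      (ζ / 2) * ((J'.card : ℝ) ^ (1 / p) * Hg p g J'.card) ≤ 128 * (1 + qq p) * C' + 8 →
      ζ * ((J.card : ℝ) ^ (1 / p) * Hg p g J.card) ≤ 4096 * (1 + qq p) * C' + 256 := by
    intro J' hc h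
    have h1 := sq_quad hp g hc
    have h2 := mul_le_mul_of_nonneg_left h1 hζ.le
    linarith
  set J1 := J.filter (fun n => sgn true y n + ζ / 2 ≤ sgn true x n) with hJ1
  set J2 := J.filter (fun n => sgn true x n + ζ / 2 ≤ sgn true y n) with hJ2
  set J3 := J.filter (fun n => sgn false y n + ζ / 2 ≤ sgn false x n) with hJ3
  set J4 := J.filter (fun n => sgn false x n + ζ / 2 ≤ sgn false y n) with hJ4
  have hcov : J ⊆ J1 ∪ J2 ∪ J3 ∪ J4 := by
    intro n hn
    have h := hJ n hn
    by_contra hc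
    simp only [hJ1, hJ2, hJ3, hJ4, Finset.mem_union, Finset.mem_filter, not_or, not_and,
      not_le] at hc
    obtain ⟨⟨⟨c1, c2⟩, c3⟩, c4⟩ := hc
    have c1 := c1 hn
    have c2 := c2 hn
    have c3 := c3 hn
    have c4 := c4 hn
    have e : (x - y) n = (sgn true x n - sgn true y n) - (sgn false x n - sgn false y n) := by
      rw [Pi.sub_apply, pe3_sgn_sub x n, pe3_sgn_sub y n]
      ring
    have a1 : |sgn true x n - sgn true y n| < ζ / 2 := by
      rw [abs_lt]; constructor <;> linarith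
    have a2 : |sgn false x n - sgn false y n| < ζ / 2 := by
      rw [abs_lt]; constructor <;> linarith
    have a3 : |(x - y) n| < ζ := by
      rw [e]
      have := abs_sub (sgn true x n - sgn true y n) (sgn false x n - sgn false y n)
      linarith
    linarith
  have hcard : J.card ≤ J1.card + J2.card + J3.card + J4.card := by
    refine (Finset.card_le_card hcov).trans ?_
    have u1 := Finset.card_union_le (J1 ∪ J2 ∪ J3) J4
    have u2 := Finset.card_union_le (J1 ∪ J2) J3
    have u3 := Finset.card_union_le J1 J2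
    omega
  have hor : J.card ≤ 4 * J1.card ∨ J.card ≤ 4 * J2.card ∨ J.card ≤ 4 * J3.card ∨
      J.card ≤ 4 * J4.card := by omega
  rcases hor with h | h | h | h
  · exact hfin J1 h (detect hp g hg (sgn true x) (sgn true y) (pe3_sgn_nonneg _ _)
      (pe3_sgn_nonneg _ _) J1 (ζ / 2) (by linarith) (fun n hn => (Finset.mem_filter.1 hn).2) C'
      (hF true))
  · exact hfin J2 h (detect hp g hg (sgn true y) (sgn true x) (pe3_sgn_nonneg _ _)
      (pe3_sgn_nonneg _ _) J2 (ζ / 2) (by linarith) (fun n hn => (Finset.mem_filter.1 hn).2) C'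
      (hF' true))
  · exact hfin J3 h (detect hp g hg (sgn false x) (sgn false y) (pe3_sgn_nonneg _ _)
      (pe3_sgn_nonneg _ _) J3 (ζ / 2) (by linarith) (fun n hn => (Finset.mem_filter.1 hn).2) C'
      (hF false))
  · exact hfin J4 h (detect hp g hg (sgn false y) (sgn false x) (pe3_sgn_nonneg _ _)
      (pe3_sgn_nonneg _ _) J4 (ζ / 2) (by linarith) (fun n hn => (Finset.mem_filter.1 hn).2) C'
      (hF' false))

theorem lower {p : ℝ} (hp : 1 < p) (g : ℕ) (hg : 1 ≤ g) (x y : ℕ → ℝ) (C' : ℝ)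
    (hF : ∀ (b : Bool) (c : Cp),
      Bd (YN p g c) (Fm p g c (sgn b x) - Fm p g c (sgn b y)) C') :
    Bd (ga p (kap p g)) (x - y) (cL p * C' + dL p) := by
  intro s
  have hq := one_le_qq hp
  have hbase : ∀ b, ga p k0 s (fun n => sgn b x n - sgn b y n) ≤ C' := by
    intro b
    have h := hF b Cp.base (false, s, 0, fun _ => 0)
    rw [ga_k0]
    exact h
  have hC : 0 ≤ C' := (ga_nonneg _ _ _ _).trans (hbase true)
  have hc1 : 2 ≤ cL p := by unfold cL; nlinarith
  have hd1 : 0 ≤ dL p := by unfold dL; positivity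
  refine ga_le ?_ ?_
  · have h1 : ga p k0 s (x - y) ≤ ga p k0 s (fun n => sgn true x n - sgn true y n) +
        ga p k0 s (fun n => sgn false x n - sgn false y n) := by
      refine ga_add hp (fun _ => le_refl _) fun m _ => ?_
      have e : (x - y) m = (sgn true x m - sgn true y m) - (sgn false x m - sgn false y m) := by
        rw [Pi.sub_apply, pe3_sgn_sub x m, pe3_sgn_sub y m]
        ring
      rw [e]
      exact abs_sub _ _
    rw [ga_k0] at h1
    have h2 := hbase true
    have h3 := hbase false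
    nlinarith
  · intro V _
    have h := level_to_gauge hp g (x - y) (4096 * (1 + qq p) * C' + 256)
      (pe3_level hp g hg x y C' hF) V
    refine h.trans (le_of_eq ?_)
    unfold cL dL
    ring

end Pool.Agent.WBp
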