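import Pool.Agent.Lib.MP_c7fb7b_an_p.A1
import Pool.Agent.Lib.MP_c7fb7b_an_p.A2
import Pool.Agent.Lib.MP_c7fb7b_an.Q2

/-!
# Q2 (general exponent): the families are lattice families

Same as `MP_c7fb7b_an/Q2.lean` (`lat_sum` can be taken from there: import it,
`Pool.Agent.WB.lat_sum`).
-/

open Finset Filter Topology Pool.Agent.WB

namespace Pool.Agent.WBp

theorem pq2_ga_zero {p : ℝ} (hp : 1 < p) (k : ℕ → ℝ) (hk : ∀ v, 0 ≤ k v) (hk2 : ∀ v, k v ≤ 2)
    (s : Finset ℕ) (x : ℕ → ℝ) (h : ∀ m ∈ s, x m = 0) : ga p k s x = 0 := by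
  refine le_antisymm ?_ (ga_nonneg p k s x)
  refine (ga_le_sum hp hk hk2 s x).trans (le_of_eq ?_)
  rw [Finset.sum_eq_zero (fun m hm => by rw [h m hm, abs_zero]), mul_zero]

theorem lat_ga {p : ℝ} (hp : 1 < p) (g : ℕ) : LatFam (ga p (kap p g)) where
  add_le j y z := ga_add hp (kap_nonneg hp g) (fun m _ => abs_add_le (y m) (z m))
  smul_eq j a y := ga_smul_eq hp (kap_nonneg hp g) a y
  mono j y z h := ga_mono hp (kap_nonneg hp g) (fun m _ => h m)
  fin j := ⟨j, fun y hy => pq2_ga_zero hp _ (kap_nonneg hp g) (kap_le_two hp g) j y hy⟩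
  single_le j y γ hy := by
    refine (ga_le_sum hp (kap_nonneg hp g) (kap_le_two hp g) j y).trans ?_
    refine mul_le_mul_of_nonneg_left ?_ (by norm_num)
    refine q2_single_sum j (fun m => |y m|) |y γ| (abs_nonneg _) (fun m _ => ?_) ?_
    · by_cases hm : m = γ
      · rw [hm]
      · rw [hy m hm, abs_zero]
        exact abs_nonneg _
    · intro i _ i' _ hi hi'
      have h1 : i = γ := by
        by_contra h
        exact hi (by rw [hy i h, abs_zero])
      have h2 : i' = γ := by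
        by_contra h
        exact hi' (by rw [hy i' h, abs_zero])
      rw [h1, h2]

theorem pq2_LN (p : ℝ) (j : JJ) (y : ℕ × ℕ → ℝ) :
    LN p j y = ga p k0 j.2.1 (fun n => y (n, j.2.2.2 n)) := by
  rw [ga_k0]
  rfl

theorem lat_LN {p : ℝ} (hp : 1 < p) : LatFam (LN p) := by
  have hk : ∀ v, 0 ≤ k0 v := fun v => le_rfl
  have hk2 : ∀ v, k0 v ≤ 2 := fun v => by
    show (0 : ℝ) ≤ 2
    norm_num
  refine ⟨?_, ?_, ?_, ?_, ?_⟩
  · intro j y z
    rw [pq2_LN, pq2_LN, pq2_LN]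
    exact ga_add hp hk (fun m _ => abs_add_le _ _)
  · intro j a y
    rw [pq2_LN, pq2_LN]
    exact ga_smul_eq hp hk a (fun n => y (n, j.2.2.2 n))
  · intro j y z h
    rw [pq2_LN, pq2_LN]
    exact ga_mono hp hk (fun m _ => h _)
  · intro j
    refine ⟨j.2.1.image (fun n => (n, j.2.2.2 n)), fun y hy => ?_⟩
    rw [pq2_LN]
    exact pq2_ga_zero hp _ hk hk2 _ _ (fun m hm => hy _ (mem_image_of_mem _ hm))
  · intro j y γ hy
    rw [pq2_LN]
    refine (ga_le_sum hp hk hk2 _ _).trans ?_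
    refine mul_le_mul_of_nonneg_left ?_ (by norm_num)
    refine q2_single_sum j.2.1 (fun n => |y (n, j.2.2.2 n)|) |y γ| (abs_nonneg _)
      (fun m _ => ?_) ?_
    · by_cases hm : (m, j.2.2.2 m) = γ
      · rw [hm]
      · rw [hy _ hm, abs_zero]
        exact abs_nonneg _
    · intro i _ i' _ hi hi'
      have h1 : (i, j.2.2.2 i) = γ := by
        by_contra h
        exact hi (by rw [hy _ h, abs_zero])
      have h2 : (i', j.2.2.2 i') = γ := by
        by_contra h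
        exact hi' (by rw [hy _ h, abs_zero])
      exact congrArg Prod.fst (h1.trans h2.symm)

theorem pq2_coef {p : ℝ} (hp : 1 < p) (n : ℕ) :
    0 ≤ (1 - 1 / p) * ((n : ℝ) ^ (1 - 1 / p))⁻¹ ∧
      (1 - 1 / p) * ((n : ℝ) ^ (1 - 1 / p))⁻¹ ≤ 1 := by
  have h0 : 0 < p := by linarith
  have h1 : 1 / p < 1 := by
    rw [div_lt_one h0]
    exact hp
  have h2 : 0 < 1 / p := by positivity
  have h3 : 0 ≤ 1 - 1 / p := by linarith
  refine ⟨by positivity, ?_⟩
  rcases Nat.eq_zero_or_pos n with h | h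
  · subst h
    have : 1 - 1 / p ≠ 0 := by
      intro h4
      linarith
    rw [Nat.cast_zero, Real.zero_rpow this, inv_zero, mul_zero]
    exact zero_le_one
  · have h5 : (1 : ℝ) ≤ (n : ℝ) ^ (1 - 1 / p) :=
      Real.one_le_rpow (by exact_mod_cast h) h3
    have h6 : ((n : ℝ) ^ (1 - 1 / p))⁻¹ ≤ 1 := inv_le_one_of_one_le₀ h5
    have h7 : 0 ≤ ((n : ℝ) ^ (1 - 1 / p))⁻¹ := by positivity
    exact mul_le_one₀ (by linarith) h7 h6

theorem pq2_NV {p : ℝ} (hp : 1 < p) (g : ℕ) (V : Finset ℕ) : q2W (NV p g V) := by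
  refine ⟨ℕ × ℕ, V ×ˢ V, fun e => ((1 - 1 / p) * ((V.card : ℝ) ^ (1 - 1 / p))⁻¹) *
    (if e.1 < e.2 ∧ dV V e.1 e.2 ≤ g then 1 / (dV V e.1 e.2 : ℝ) else 0), fun e => e, ?_, ?_, ?_⟩
  · intro e _
    have h1 := pq2_coef hp V.card
    have h2 : (0 : ℝ) ≤ (if e.1 < e.2 ∧ dV V e.1 e.2 ≤ g then 1 / (dV V e.1 e.2 : ℝ) else 0) ∧
        (if e.1 < e.2 ∧ dV V e.1 e.2 ≤ g then 1 / (dV V e.1 e.2 : ℝ) else 0) ≤ 1 := by
      split_ifs with h
      · refine ⟨by positivity, ?_⟩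
        rcases Nat.eq_zero_or_pos (dV V e.1 e.2) with h0 | h0
        · rw [h0]
          simp
        · rw [one_div]
          apply inv_le_one_of_one_le₀
          exact_mod_cast h0
      · exact ⟨le_rfl, zero_le_one⟩
    exact ⟨mul_nonneg h1.1 h2.1, mul_le_one₀ h1.2 h2.1 h2.2⟩
  · intro i _ j _ h
    exact h
  · intro y
    rw [Finset.sum_product]
    unfold NV
    rw [Finset.mul_sum]
    refine Finset.sum_congr rfl (fun b _ => ?_)
    rw [Finset.mul_sum]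
    refine Finset.sum_congr rfl (fun n _ => ?_)
    simp only []
    split_ifs
    · ring
    · ring

theorem lat_EN {p : ℝ} (hp : 1 < p) (g : ℕ) {G : ℝ} (hG : 1 ≤ G) : LatFam (EN p g G) := by
  apply q2_lat
  rintro ⟨b, V, m, nn⟩
  cases b
  · exact q2_N1 hG m nn
  · exact pq2_NV hp g V

theorem one_le_GG {p : ℝ} (hp : 1 < p) (i : ℕ) : 1 ≤ GG p i := by
  unfold GG
  have h1 : (1 : ℝ) ≤ (2 : ℝ) ^ (p * ((i : ℝ) + 1)) :=
    Real.one_le_rpow (by norm_num) (by positivity)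
  linarith

theorem lat_YN {p : ℝ} (hp : 1 < p) (g : ℕ) (c : Cp) : LatFam (YN p g c) := by
  cases c with
  | base => exact lat_LN hp
  | edge t i => exact lat_EN hp g (one_le_GG hp i)
  | rcd t => exact lat_LN hp

theorem lat_sum' {ι J Γ : Type} (N : ι → J → (Γ → ℝ) → ℝ) (h : ∀ c, LatFam (N c)) :
    LatFam (sumN N) := lat_sum N h

theorem lat_YF {p : ℝ} (hp : 1 < p) : LatFam (YF p) := lat_sum' _ (fun _ => lat_YN hp _ _)

theorem lat_XF {p : ℝ} (hp : 1 < p) : LatFam (XF p) := lat_sum' _ (fun _ => lat_ga hp _)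

end Pool.Agent.WBp
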