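import Pool.Agent.Lib.MP_c7fb7b_an_p.B4
import Pool.Agent.Lib.MP_c7fb7b_an_p.D3
import Pool.Agent.Lib.MP_c7fb7b_an_p.E3
import Pool.Agent.Lib.MP_c7fb7b_an_p.Q2

/-!
# M1 (general exponent): Lipschitz and lower bounds for the whole map

Same as `MP_c7fb7b_an/M1.lean`.
-/

open Finset Filter Topology Pool.Agent.WB

namespace Pool.Agent.WBp

theorem m1_sgn_nonneg (b : Bool) (x : ℕ → ℝ) (n : ℕ) : 0 ≤ sgn b x n := by
  unfold sgn
  split_ifs
  · exact le_max_right _ _
  · exact le_max_right _ _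

theorem m1_sgn_sub (b : Bool) (x y : ℕ → ℝ) (n : ℕ) :
    |sgn b x n - sgn b y n| ≤ |x n - y n| := by
  unfold sgn
  cases b
  · simp only [Bool.false_eq_true, if_false]
    refine (abs_max_sub_max_le_abs _ _ _).trans ?_
    rw [show -x n - -y n = -(x n - y n) by ring, abs_neg]
  · simp only [if_true]
    exact abs_max_sub_max_le_abs _ _ _

theorem m1_part {p : ℝ} (hp : 1 < p) {x y : ℕ × ℕ → ℝ} {δ : ℝ} (h : Bd (XF p) (x - y) δ)
    (g : ℕ) (b : Bool) :
    Bd (ga p (kap p (g + 1))) (sgn b (fun n => x (g, n)) - sgn b (fun n => y (g, n))) δ := by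
  intro s
  have h1 : ga p (kap p (g + 1)) s (fun n => (x - y) (g, n)) ≤ δ := h (g, s)
  refine le_trans (ga_mono hp (kap_nonneg hp (g + 1)) ?_) h1
  intro m _
  exact m1_sgn_sub b (fun n => x (g, n)) (fun n => y (g, n)) m

theorem fr_lip {p : ℝ} (hp : 1 < p) (x y : ℕ × ℕ → ℝ) {δ : ℝ} (h : Bd (XF p) (x - y) δ) :
    Bd (YF p) (fr p x - fr p y) (80 * δ) := by
  have hδ : 0 ≤ δ :=
    (ga_nonneg p (kap p (0 + 1)) ∅ (fun n => (x - y) (0, n))).trans (h (0, ∅))
  have hp0 : p ≠ 0 := by linarith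
  rintro ⟨⟨g, b, c⟩, j⟩
  have hpt := m1_part hp h g b
  have hu : ∀ n, 0 ≤ sgn b (fun n => x (g, n)) n := fun n => m1_sgn_nonneg _ _ _
  have hv : ∀ n, 0 ≤ sgn b (fun n => y (g, n)) n := fun n => m1_sgn_nonneg _ _ _
  cases c with
  | base =>
    show LN p j (fun e => (if e.2 = 0 then sgn b (fun n => x (g, n)) e.1 else 0) -
      (if e.2 = 0 then sgn b (fun n => y (g, n)) e.1 else 0)) ≤ 80 * δ
    have h1 := (np_le_ga p (kap p (g + 1)) j.2.1 _).trans (hpt j.2.1)
    refine le_trans ?_ (h1.trans (by linarith : δ ≤ 80 * δ))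
    unfold LN np
    refine Real.rpow_le_rpow (Finset.sum_nonneg fun n _ => by positivity) ?_ (by positivity)
    refine Finset.sum_le_sum fun n _ => ?_
    by_cases hj : j.2.2.2 n = 0
    · simp [hj]
    · simp only [hj, if_false, sub_self, abs_zero]
      rw [Real.zero_rpow hp0]
      positivity
  | edge t i =>
    have h1 := K_lip hp (g + 1) t i _ _ hu hv hpt j
    refine le_trans ?_ (h1.trans (by linarith : 8 * δ ≤ 80 * δ))
    exact le_of_eq rfl
  | rcd t =>
    have h1 := R_lip hp (g + 1) t _ _ hpt j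
    exact h1

theorem fr_lower {p : ℝ} (hp : 1 < p) (x y : ℕ × ℕ → ℝ) {C : ℝ}
    (h : Bd (YF p) (fr p x - fr p y) C) : Bd (XF p) (x - y) (cL p * C + dL p) := by
  rintro ⟨g, s⟩
  have h1 := lower hp (g + 1) (by omega) (fun n => x (g, n)) (fun n => y (g, n)) C
    (fun b c j => h ((g, b, c), j)) s
  exact h1

end Pool.Agent.WBp
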