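import Pool.Agent.Lib.MP_c7fb7b_an_p.A1

/-!
# M2 (general exponent): every coordinate of the map is continuous for pointwise convergence

Same as `MP_c7fb7b_an/M2.lean`.
-/

open Finset Filter Topology Pool.Agent.WB

namespace Pool.Agent.WBp

theorem pm2_hh {p : ℝ} (hp : 1 < p) (k : ℕ → ℝ) (n : ℕ) {X : Type} [TopologicalSpace X]
    {f : X → ℕ → ℝ}
    (hf : ∀ m, Continuous fun x => f x m) : Continuous fun x => hh p k (f x) n :=
  (continuous_hh hp k n).comp (continuous_pi hf)

theorem pm2_qs {p : ℝ} (hp : 1 < p) (k : ℕ → ℝ) (σ : ℝ) (m : ℕ) :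
    Continuous fun u : ℕ → ℝ => qs p k σ u m :=
  ((continuous_dn σ).comp (continuous_hh hp k m)).mul (continuous_apply m)

theorem pm2_xb {p : ℝ} (hp : 1 < p) (k : ℕ → ℝ) (σ : ℝ) (m : ℕ) :
    Continuous fun u : ℕ → ℝ => xb p k σ u m :=
  (((continuous_up (4 * σ)).comp (continuous_hh hp k m)).mul (continuous_apply m)).min
    continuous_const

theorem pm2_wr {p : ℝ} (hp : 1 < p) (k : ℕ → ℝ) (σ : ℝ) (m : ℕ) :
    Continuous fun u : ℕ → ℝ => wr p k σ u m :=
  continuous_const.mul (((continuous_dn (2 * σ)).comp (pm2_hh hp k0 m (pm2_xb hp k σ))).mul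
    (pm2_xb hp k σ m))

theorem continuous_Fm {p : ℝ} (hp : 1 < p) (g : ℕ) (c : Cp) (e : ℕ × ℕ) :
    Continuous (fun u : ℕ → ℝ => Fm p g c u e) := by
  cases c with
  | base =>
    simp only [Fm]
    by_cases h : e.2 = 0
    · simp only [h, if_true]
      exact continuous_apply _
    · simp only [h, if_false]
      exact continuous_const
  | edge t i =>
    simp only [Fm, Kmap]
    by_cases h : e.1 < e.2
    · simp only [h, if_true]
      exact ((continuous_chi _ _).comp (continuous_hh hp (kap p g) e.2)).mul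
        (((continuous_bet _ _).comp (continuous_apply e.1)).min
          ((continuous_bet _ _).comp (continuous_apply e.2)))
    · simp only [h, if_false]
      exact continuous_const
  | rcd t =>
    simp only [Fm, Rmap]
    by_cases h : (2 : ℝ) ^ (Nat.unpair e.2).1 ≤ 4 * Lam p g ^ t
    · simp only [h, if_true]
      refine (pm2_wr hp (kap p g) (Lam p g ^ t) e.1).mul ?_
      exact continuous_bump (X := ℕ → ℝ) (2 ^ (Nat.unpair e.2).1)
        (fun (u : ℕ → ℝ) i =>
          hh p (kap p g) (fun m => qs p (kap p g) (Lam p g ^ t) u m - cc i m) e.1)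
        (fun i => pm2_hh hp (kap p g) e.1 fun m =>
          (pm2_qs hp (kap p g) (Lam p g ^ t) m).sub continuous_const)
        (Nat.unpair e.2).2
    · simp only [h, if_false]
      exact continuous_const

theorem pm2_sgn (b : Bool) (g : ℕ) :
    Continuous fun x : ℕ × ℕ → ℝ => sgn b (fun n => x (g, n)) := by
  refine continuous_pi fun n => ?_
  unfold sgn
  cases b
  · simp only [Bool.false_eq_true, if_false]
    exact (continuous_apply (g, n)).neg.max continuous_const
  · simp only [if_true]
    exact (continuous_apply (g, n)).max continuous_const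

theorem continuous_fr {p : ℝ} (hp : 1 < p) (e : YI × (ℕ × ℕ)) :
    Continuous (fun x : ℕ × ℕ → ℝ => fr p x e) :=
  (continuous_Fm hp (e.1.1 + 1) e.1.2.2 e.2).comp (pm2_sgn e.1.2.1 e.1.1)

end Pool.Agent.WBp
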