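import Pool.Agent.Lib.MP_c7fb7b_an_p.M1
import Pool.Agent.Lib.MP_c7fb7b_an_p.D4

/-!
# M3 (general exponent): the map has values in Y

Same as `MP_c7fb7b_an/M3.lean`.
-/

open Finset Filter Topology Pool.Agent.WB

namespace Pool.Agent.WBp

/-- the function `1` at `d`, `0` elsewhere -/
noncomputable def m3_one (d : YI × (ℕ × ℕ)) : YI × (ℕ × ℕ) → ℝ := by
  classical
  exact fun q => if q = d then 1 else 0

theorem m3_one_self (d : YI × (ℕ × ℕ)) : m3_one d d = 1 := by
  unfold m3_one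
  exact if_pos rfl

theorem m3_one_ne (d q : YI × (ℕ × ℕ)) (h : q ≠ d) : m3_one d q = 0 := by
  unfold m3_one
  exact if_neg h

theorem m3_sqrt_single {p : ℝ} (_hp : 1 < p) (c : YI) (n m : ℕ) :
    LN p (true, {n}, 0, fun _ => m) (fun e => m3_one (c, (n, m)) (c, e)) = 1 := by
  unfold LN
  simp [m3_one_self]

theorem unseen_fr {p : ℝ} (hp : 1 < p) (x : ℕ × ℕ → ℝ) (e : YI × (ℕ × ℕ))
    (h : Unseen (YF p) e) : fr p x e = 0 := by
  obtain ⟨⟨g, b, c⟩, ⟨n, m⟩⟩ := e
  have hne : ∀ δ : YI × (ℕ × ℕ), δ ≠ ((g, b, c), (n, m)) →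
      m3_one ((g, b, c), (n, m)) δ = 0 := fun δ hδ => m3_one_ne _ _ hδ
  cases c with
  | base =>
    have h1 := h ((g, b, Cp.base), (true, {n}, 0, fun _ => m)) _ hne
    have h2 := m3_sqrt_single hp (g, b, Cp.base) n m
    exfalso
    have h3 : LN p (true, {n}, 0, fun _ => m) (fun e =>
      m3_one ((g, b, Cp.base), (n, m)) ((g, b, Cp.base), e)) = 0 := h1
    rw [h2] at h3
    norm_num at h3
  | rcd t =>
    have h1 := h ((g, b, Cp.rcd t), (true, {n}, 0, fun _ => m)) _ hne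
    have h2 := m3_sqrt_single hp (g, b, Cp.rcd t) n m
    exfalso
    have h3 : LN p (true, {n}, 0, fun _ => m) (fun e =>
      m3_one ((g, b, Cp.rcd t), (n, m)) ((g, b, Cp.rcd t), e)) = 0 := h1
    rw [h2] at h3
    norm_num at h3
  | edge t i =>
    by_cases hnm : n < m
    · exfalso
      have h1 := h ((g, b, Cp.edge t i), (false, ∅, m, fun _ => m)) _ hne
      have h3 : N1 (GG p i) m (fun _ => m) (fun e =>
        m3_one ((g, b, Cp.edge t i), (n, m)) ((g, b, Cp.edge t i), e)) = 0 := h1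
      unfold N1 at h3
      have h4 : (0 : ℝ) < (GG p i)⁻¹ := inv_pos.2 (zero_lt_one.trans_le (one_le_GG hp i))
      have h5 := (mul_eq_zero.1 h3).resolve_left h4.ne'
      rw [Finset.sum_eq_zero_iff_of_nonneg (fun _ _ => abs_nonneg _)] at h5
      have h6 := h5 n (Finset.mem_range.2 hnm)
      simp only [max_self, m3_one_self, abs_one] at h6
      norm_num at h6
    · show Kmap p (g + 1) t i _ (n, m) = 0
      unfold Kmap
      rw [if_neg hnm]

theorem m3_hh_le {p : ℝ} (hp : 1 < p) (x : ℕ × ℕ → ℝ) (F : Finset (ℕ × ℕ))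
    (hF : ∀ e, x e ≠ 0 → e ∈ F)
    (g g' : ℕ) (b : Bool) (n : ℕ) :
    hh p (kap p g') (sgn b (fun m => x (g, m))) n ≤ 2 * ∑ e ∈ F, |x e| := by
  unfold hh
  refine (ga_le_sum hp (kap_nonneg hp g') (kap_le_two hp g') _ _).trans ?_
  refine mul_le_mul_of_nonneg_left ?_ (by norm_num)
  have h1 : ∑ m ∈ range (n + 1), |sgn b (fun m => x (g, m)) m| ≤
      ∑ m ∈ range (n + 1), |x (g, m)| := by
    refine Finset.sum_le_sum fun m _ => ?_
    unfold sgn
    cases b
    · simp only [Bool.false_eq_true, if_false]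
      rw [abs_of_nonneg (le_max_right _ _)]
      exact max_le (neg_le_abs _) (abs_nonneg _)
    · simp only [if_true]
      rw [abs_of_nonneg (le_max_right _ _)]
      exact max_le (le_abs_self _) (abs_nonneg _)
  refine h1.trans ?_
  have h2 : ∑ m ∈ range (n + 1), |x (g, m)| =
      ∑ m ∈ (range (n + 1)).filter (fun m => x (g, m) ≠ 0), |x (g, m)| := by
    rw [Finset.sum_filter]
    refine Finset.sum_congr rfl fun m _ => ?_
    by_cases hm : x (g, m) = 0
    · simp [hm]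
    · simp [hm]
  rw [h2]
  have h3 : ∑ m ∈ (range (n + 1)).filter (fun m => x (g, m) ≠ 0), |x (g, m)| =
      ∑ e ∈ ((range (n + 1)).filter (fun m => x (g, m) ≠ 0)).image (fun m => (g, m)), |x e| := by
    rw [Finset.sum_image]
    intro a _ c _ hac
    exact congrArg Prod.snd hac
  rw [h3]
  refine Finset.sum_le_sum_of_subset_of_nonneg ?_ (fun _ _ _ => abs_nonneg _)
  intro e he
  obtain ⟨m, hm, rfl⟩ := Finset.mem_image.1 he
  exact hF _ (Finset.mem_filter.1 hm).2

theorem m3_sgn_ne {x : ℕ × ℕ → ℝ} {g : ℕ} {b : Bool} {n : ℕ}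
    (h : sgn b (fun m => x (g, m)) n ≠ 0) : x (g, n) ≠ 0 := by
  intro h0
  apply h
  unfold sgn
  simp [h0]

theorem m3_Lam {p : ℝ} (hp : 1 < p) (g : ℕ) : 8 ≤ Lam p g := by
  unfold Lam
  have := (zero_le_one.trans (one_le_Hm hp g))
  linarith

theorem m3_Lam_pos {p : ℝ} (hp : 1 < p) (g t : ℕ) : 0 < Lam p g ^ t := pow_pos (by linarith [m3_Lam hp g]) t

theorem m3_lt_pow {p : ℝ} (hp : 1 < p) (g t : ℕ) : (t : ℝ) < Lam p g ^ t := by
  have h1 : (t : ℝ) < (2 : ℝ) ^ t := by exact_mod_cast Nat.lt_two_pow_self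
  have h2 : (2 : ℝ) ^ t ≤ Lam p g ^ t := pow_le_pow_left₀ (by norm_num) (by linarith [m3_Lam hp g]) t
  linarith

theorem m3_tau_pos {p : ℝ} (hp : 1 < p) (g t i : ℕ) : 0 < tau p g t i := by
  unfold tau
  have := m3_Lam_pos hp g (t + 2)
  positivity

theorem m3_Bc_nonneg {p : ℝ} (hp : 1 < p) (g t : ℕ) : 0 ≤ Bc p g t := by
  unfold Bc
  have := m3_Lam_pos hp g (t + 2)
  have := (zero_le_one.trans (one_le_Hm hp g))
  positivity

theorem m3_K {p : ℝ} (hp : 1 < p) (g t i : ℕ) (u : ℕ → ℝ) (Q : ℝ)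
    (hQ : ∀ n, hh p (kap p g) u n ≤ Q) {n m : ℕ} (h : Kmap p g t i u (n, m) ≠ 0) :
    (t : ℝ) < 2 * Q ∧ u n ≠ 0 ∧ u m ≠ 0 := by
  unfold Kmap at h
  by_cases hnm : n < m
  · rw [if_pos hnm] at h
    have hBτ : 0 ≤ Bc p g t * tau p g t i := mul_nonneg (m3_Bc_nonneg hp g t) (m3_tau_pos hp g t i).le
    have hb0 : bet (tau p g t i) (Bc p g t) 0 = 0 := bet_of_le hBτ (m3_tau_pos hp g t i).le
    refine ⟨?_, ?_, ?_⟩
    · by_contra hcon
      push Not at hcon
      apply h
      rw [chi_of_le (m3_Lam_pos hp g t), zero_mul]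
      have h1 := hQ m
      have h2 := m3_lt_pow hp g t
      show hh p (kap p g) u m ≤ Lam p g ^ t / 2
      linarith
    · intro h0
      apply h
      show _ * min (bet (tau p g t i) (Bc p g t) (u n)) (bet (tau p g t i) (Bc p g t) (u m)) = 0
      rw [h0, hb0, min_eq_left (bet_nonneg hBτ _), mul_zero]
    · intro h0
      apply h
      show _ * min (bet (tau p g t i) (Bc p g t) (u n)) (bet (tau p g t i) (Bc p g t) (u m)) = 0
      rw [h0, hb0, min_eq_right (bet_nonneg hBτ _), mul_zero]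
  · exact absurd (if_neg hnm) h

theorem m3_K_le {p : ℝ} (hp : 1 < p) (g t i : ℕ) (u : ℕ → ℝ) (e : ℕ × ℕ) :
    |Kmap p g t i u e| ≤ 4 * Bc p g t * tau p g t i := by
  have hBτ : 0 ≤ Bc p g t * tau p g t i := mul_nonneg (m3_Bc_nonneg hp g t) (m3_tau_pos hp g t i).le
  unfold Kmap
  split_ifs
  · rw [abs_mul, abs_of_nonneg (chi_nonneg _ _ _),
      abs_of_nonneg (le_min (bet_nonneg hBτ _) (bet_nonneg hBτ _))]
    calc _ ≤ 1 * min (bet (tau p g t i) (Bc p g t) (u e.1)) (bet (tau p g t i) (Bc p g t) (u e.2)) :=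
          mul_le_mul_of_nonneg_right (chi_le_one _ _ _)
            (le_min (bet_nonneg hBτ _) (bet_nonneg hBτ _))
      _ ≤ 4 * Bc p g t * tau p g t i := by
          rw [one_mul]
          exact (min_le_left _ _).trans (bet_le_cap _ _ _)
  · rw [abs_zero]
    nlinarith

theorem m3_R {p : ℝ} (hp : 1 < p) (g t : ℕ) (u : ℕ → ℝ) (Q : ℝ)
    (hQ : ∀ n, hh p (kap p g) u n ≤ Q) {n a : ℕ} (h : Rmap p g t u (n, a) ≠ 0) :
    (t : ℝ) < Q ∧ ((Nat.unpair a).1 : ℝ) < Q ∧ u n ≠ 0 ∧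
      bump (2 ^ (Nat.unpair a).1)
        (fun i => hh p (kap p g) (fun m => qs p (kap p g) (Lam p g ^ t) u m - cc i m) n)
        (Nat.unpair a).2 ≠ 0 := by
  unfold Rmap at h
  by_cases hl : (2 : ℝ) ^ (Nat.unpair a).1 ≤ 4 * Lam p g ^ t
  · rw [if_pos hl] at h
    have hw := left_ne_zero_of_mul h
    have hb := right_ne_zero_of_mul h
    have hσ := m3_Lam_pos hp g t
    have h1 := hh_gt_of_wr p (kap p g) hσ u n hw
    have h2 := hQ n
    have h3 := m3_lt_pow hp g t
    have h4 : ((Nat.unpair a).1 : ℝ) < (2 : ℝ) ^ (Nat.unpair a).1 := by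
      exact_mod_cast Nat.lt_two_pow_self
    refine ⟨by linarith, by linarith, ?_, hb⟩
    intro h0
    apply hw
    show wr p (kap p g) (Lam p g ^ t) u n = 0
    unfold wr xb xt
    rw [h0, mul_zero, min_eq_left hσ.le, mul_zero, mul_zero]
  · exact absurd (if_neg hl) h

theorem m3_bump_fin {p : ℝ} (hp : 1 < p) (g t : ℕ) (u : ℕ → ℝ) (n l : ℕ) :
    {i | bump (2 ^ l) (fun i => hh p (kap p g) (fun m => qs p (kap p g) (Lam p g ^ t) u m - cc i m) n)
      i ≠ 0}.Finite := by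
  obtain ⟨j, hj⟩ := cc_dense hp (kap_nonneg hp g) (kap_le_two hp g) (qs p (kap p g) (Lam p g ^ t) u) n
    (ε := 2 ^ l / 2) (by positivity)
  refine (Set.finite_Iic j).subset ?_
  intro i hi
  by_contra hcon
  exact hi (bump_eq_zero (lt_of_not_ge hcon) hj)

theorem appr_fin {p : ℝ} (hp : 1 < p) (x : ℕ × ℕ → ℝ) (h : (Function.support x).Finite) :
    Appr (YF p) (fr p x) := by
  classical
  intro ε hε
  obtain ⟨F, hF⟩ : ∃ F : Finset (ℕ × ℕ), ∀ e, x e ≠ 0 → e ∈ F :=
    ⟨h.toFinset, fun e he => h.mem_toFinset.2 he⟩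
  set Q : ℝ := 2 * ∑ e ∈ F, |x e| with hQdef
  have hQ0 : 0 ≤ Q := by
    have := Finset.sum_nonneg (s := F) (f := fun e => |x e|) (fun _ _ => abs_nonneg _)
    positivity
  have hQ : ∀ g g' b n, hh p (kap p g') (sgn b (fun m => x (g, m))) n ≤ Q := fun g g' b n =>
    m3_hh_le hp x F hF g g' b n
  obtain ⟨T, hT⟩ := exists_nat_gt (2 * Q)
  set F1 : Finset ℕ := F.image Prod.snd with hF1
  set G0 : Finset ℕ := F.image Prod.fst with hG0
  have hmem : ∀ g n, x (g, n) ≠ 0 → g ∈ G0 ∧ n ∈ F1 := fun g n hx =>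
    ⟨Finset.mem_image.2 ⟨_, hF _ hx, rfl⟩, Finset.mem_image.2 ⟨_, hF _ hx, rfl⟩⟩
  set cp : ℕ → ℕ → ℝ := fun g t => 4 * Bc p (g + 1) t * Lam p (g + 1) ^ (t + 2) with hcp
  have hcp0 : ∀ g t, 0 ≤ cp g t := by
    intro g t
    have h1 := m3_Bc_nonneg hp (g + 1) t
    have h2 := m3_Lam_pos hp (g + 1) (t + 2)
    positivity
  set Cst : ℝ := ∑ g ∈ G0, ∑ t ∈ range T, cp g t with hCst
  have hCst0 : 0 ≤ Cst := Finset.sum_nonneg fun g _ => Finset.sum_nonneg fun t _ => hcp0 g t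
  have hcple : ∀ g ∈ G0, ∀ t < T, cp g t ≤ Cst := by
    intro g hg t ht
    calc cp g t ≤ ∑ t ∈ range T, cp g t :=
          Finset.single_le_sum (f := fun t => cp g t) (fun _ _ => hcp0 _ _)
            (Finset.mem_range.2 ht)
      _ ≤ Cst := Finset.single_le_sum (f := fun g => ∑ t ∈ range T, cp g t)
          (fun _ _ => Finset.sum_nonneg fun _ _ => hcp0 _ _) hg
  set W : ℝ := 2 * ((F1 ×ˢ F1).card * Cst) + 1 with hW
  have hW0 : 0 < W := by positivity
  obtain ⟨i₁, hi₁⟩ := exists_pow_lt_of_lt_one (show 0 < ε / W by positivity)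
    (show (1 / 2 : ℝ) < 1 by norm_num)
  have hi₁' : W * (1 / 2) ^ i₁ ≤ ε := by
    rw [lt_div_iff₀ hW0] at hi₁
    linarith
  refine ⟨fun d => if ∃ t i, d.1.2.2 = Cp.edge t i ∧ i₁ ≤ i then 0 else fr p x d, ?_, ?_⟩
  · -- finite support
    have hfin1 : ((fun q : (ℕ × ℕ) × Bool => (((q.1.1, q.2, Cp.base), (q.1.2, 0)) :
        YI × (ℕ × ℕ))) '' ((F : Set (ℕ × ℕ)) ×ˢ (Set.univ : Set Bool))).Finite :=
      (F.finite_toSet.prod Set.finite_univ).image _
    have hfin2 : (⋃ g ∈ (G0 : Set ℕ), ⋃ n ∈ (F1 : Set ℕ), ⋃ b ∈ (Set.univ : Set Bool),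
        ⋃ t ∈ ((range T : Finset ℕ) : Set ℕ), ⋃ l ∈ ((range T : Finset ℕ) : Set ℕ),
        (fun i => (((g, b, Cp.rcd t), (n, Nat.pair l i)) : YI × (ℕ × ℕ))) ''
          {i | bump (2 ^ l) (fun i => hh p (kap p (g + 1)) (fun m => qs p (kap p (g + 1))
            (Lam p (g + 1) ^ t) (sgn b (fun m => x (g, m))) m - cc i m) n) i ≠ 0}).Finite := by
      refine Set.Finite.biUnion (Finset.finite_toSet _) fun g _ => ?_
      refine Set.Finite.biUnion (Finset.finite_toSet _) fun n _ => ?_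
      refine Set.Finite.biUnion Set.finite_univ fun b _ => ?_
      refine Set.Finite.biUnion (Finset.finite_toSet _) fun t _ => ?_
      refine Set.Finite.biUnion (Finset.finite_toSet _) fun l _ => ?_
      exact (m3_bump_fin hp _ _ _ _ _).image _
    have hfin3 : ((fun q : (ℕ × Bool) × (ℕ × ℕ) × (ℕ × ℕ) =>
        (((q.1.1, q.1.2, Cp.edge q.2.1.1 q.2.1.2), q.2.2) : YI × (ℕ × ℕ))) ''
        (((G0 : Set ℕ) ×ˢ (Set.univ : Set Bool)) ×ˢ
          ((((range T : Finset ℕ) : Set ℕ) ×ˢ ((range i₁ : Finset ℕ) : Set ℕ)) ×ˢ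
            ((F1 : Set ℕ) ×ˢ (F1 : Set ℕ))))).Finite :=
      (((Finset.finite_toSet _).prod Set.finite_univ).prod
        (((Finset.finite_toSet _).prod (Finset.finite_toSet _)).prod
          ((Finset.finite_toSet _).prod (Finset.finite_toSet _)))).image _
    refine ((hfin1.union hfin2).union hfin3).subset ?_
    rintro ⟨⟨g, b, c⟩, ⟨n, m⟩⟩ hd
    rw [Function.mem_support] at hd
    by_cases hbig : ∃ t i, c = Cp.edge t i ∧ i₁ ≤ i
    · exact absurd (if_pos hbig) hd
    · have hfr : fr p x ((g, b, c), (n, m)) ≠ 0 := by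
        intro h0
        apply hd
        show (if ∃ t i, c = Cp.edge t i ∧ i₁ ≤ i then 0 else fr p x ((g, b, c), (n, m))) = 0
        rw [if_neg hbig, h0]
      cases c with
      | base =>
        left
        left
        have h1 : (if m = 0 then sgn b (fun n => x (g, n)) n else 0) ≠ 0 := hfr
        by_cases hm : m = 0
        · rw [if_pos hm] at h1
          have h2 := m3_sgn_ne h1
          refine ⟨((g, n), b), ⟨hF _ h2, Set.mem_univ _⟩, ?_⟩
          simp [hm]
        · exact absurd (if_neg hm) h1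
      | rcd t =>
        left
        right
        have h1 : Rmap p (g + 1) t (sgn b (fun n => x (g, n))) (n, m) ≠ 0 := hfr
        obtain ⟨h2, h3, h4, h5⟩ := m3_R hp (g + 1) t _ Q (fun n => hQ g (g + 1) b n) h1
        have h6 := hmem g n (m3_sgn_ne h4)
        simp only [Set.mem_iUnion]
        refine ⟨g, Finset.mem_coe.2 h6.1, n, Finset.mem_coe.2 h6.2, b, Set.mem_univ _, t, ?_,
          (Nat.unpair m).1, ?_, (Nat.unpair m).2, h5, ?_⟩
        · rw [Finset.mem_coe, Finset.mem_range]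
          have : (t : ℝ) < T := by linarith
          exact_mod_cast this
        · rw [Finset.mem_coe, Finset.mem_range]
          have : ((Nat.unpair m).1 : ℝ) < T := by linarith
          exact_mod_cast this
        · simp [Nat.pair_unpair]
      | edge t i =>
        right
        have hi : i < i₁ := by
          by_contra hcon
          exact hbig ⟨t, i, rfl, not_lt.1 hcon⟩
        have h1 : Kmap p (g + 1) t i (sgn b (fun n => x (g, n))) (n, m) ≠ 0 := hfr
        obtain ⟨h2, h3, h4⟩ := m3_K hp (g + 1) t i _ Q (fun n => hQ g (g + 1) b n) h1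
        have h5 := hmem g n (m3_sgn_ne h3)
        have h6 := hmem g m (m3_sgn_ne h4)
        refine ⟨((g, b), (t, i), (n, m)), ?_, rfl⟩
        refine ⟨⟨Finset.mem_coe.2 h5.1, Set.mem_univ _⟩, ⟨?_, ?_⟩,
          ⟨Finset.mem_coe.2 h5.2, Finset.mem_coe.2 h6.2⟩⟩
        · show t ∈ ((range T : Finset ℕ) : Set ℕ)
          rw [Finset.mem_coe, Finset.mem_range]
          have : (t : ℝ) < T := by linarith
          exact_mod_cast this
        · show i ∈ ((range i₁ : Finset ℕ) : Set ℕ)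
          rw [Finset.mem_coe, Finset.mem_range]
          exact hi
  · rintro ⟨⟨g, b, c⟩, j⟩
    show YN p (g + 1) c j (fun e => fr p x ((g, b, c), e) -
      (if ∃ t i, c = Cp.edge t i ∧ i₁ ≤ i then 0 else fr p x ((g, b, c), e))) ≤ ε
    by_cases hbig : ∃ t i, c = Cp.edge t i ∧ i₁ ≤ i
    · obtain ⟨t, i, rfl, hi⟩ := hbig
      have h0 : (fun e => fr p x ((g, b, Cp.edge t i), e) -
          (if ∃ t' i', Cp.edge t i = Cp.edge t' i' ∧ i₁ ≤ i' then 0
            else fr p x ((g, b, Cp.edge t i), e))) =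
          Kmap p (g + 1) t i (sgn b (fun n => x (g, n))) := by
        funext e
        rw [if_pos ⟨t, i, rfl, hi⟩, sub_zero]
        rfl
      rw [h0]
      refine ((lat_YN hp (g + 1) (Cp.edge t i)).le_sum j (F1 ×ˢ F1) _ ?_).trans ?_
      · rintro ⟨n, m⟩ he
        by_contra hne
        obtain ⟨_, h3, h4⟩ := m3_K hp (g + 1) t i _ Q (fun n => hQ g (g + 1) b n) hne
        exact he (Finset.mem_product.2 ⟨(hmem g n (m3_sgn_ne h3)).2,
          (hmem g m (m3_sgn_ne h4)).2⟩)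
      · have hent : ∀ e ∈ F1 ×ˢ F1, |Kmap p (g + 1) t i (sgn b (fun n => x (g, n))) e| ≤
            Cst * (1 / 2) ^ i₁ := by
          rintro ⟨n, m⟩ _
          by_cases hne : Kmap p (g + 1) t i (sgn b (fun n => x (g, n))) (n, m) = 0
          · rw [hne, abs_zero]
            positivity
          · obtain ⟨h2, h3, _⟩ := m3_K hp (g + 1) t i _ Q (fun n => hQ g (g + 1) b n) hne
            have h5 := hmem g n (m3_sgn_ne h3)
            have h6 : t < T := by
              have : (t : ℝ) < T := by linarith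
              exact_mod_cast this
            refine (m3_K_le hp (g + 1) t i _ _).trans ?_
            have h7 : 4 * Bc p (g + 1) t * tau p (g + 1) t i = cp g t * (1 / 2) ^ i := by
              rw [hcp]
              unfold tau
              ring
            rw [h7]
            have h8 : ((1 : ℝ) / 2) ^ i ≤ (1 / 2) ^ i₁ :=
              pow_le_pow_of_le_one (by norm_num) (by norm_num) hi
            exact mul_le_mul (hcple g h5.1 t h6) h8 (by positivity) hCst0
        have h9 := Finset.sum_le_sum hent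
        rw [Finset.sum_const, nsmul_eq_mul] at h9
        have h10 : (0 : ℝ) ≤ (1 / 2) ^ i₁ := by positivity
        calc 2 * ∑ e ∈ F1 ×ˢ F1, |Kmap p (g + 1) t i (sgn b (fun n => x (g, n))) e|
            ≤ 2 * ((F1 ×ˢ F1).card * (Cst * (1 / 2) ^ i₁)) := by linarith
          _ = (W - 1) * (1 / 2) ^ i₁ := by
              rw [hW]
              ring
          _ ≤ W * (1 / 2) ^ i₁ := by nlinarith
          _ ≤ ε := hi₁'
    · have h0 : (fun e => fr p x ((g, b, c), e) -
          (if ∃ t i, c = Cp.edge t i ∧ i₁ ≤ i then 0 else fr p x ((g, b, c), e))) = 0 := by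
        funext e
        rw [if_neg hbig, sub_self]
        rfl
      rw [h0, (lat_YN hp (g + 1) c).zero j]
      exact hε.le

theorem mem_fr {p : ℝ} (hp : 1 < p) (x : ℕ × ℕ → ℝ) (h : Mem (XF p) x) :
    Mem (YF p) (fr p x) := by
  refine ⟨fun e he => unseen_fr hp x e he, ?_⟩
  intro ε hε
  obtain ⟨z, hz, hxz⟩ := h.2 (ε / 160) (by positivity)
  obtain ⟨w, hw, hwz⟩ := appr_fin hp z hz (ε / 2) (by positivity)
  refine ⟨w, hw, ?_⟩
  have h1 : Bd (YF p) (fr p x - fr p z) (ε / 2) := (fr_lip hp x z hxz).mono (by linarith)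
  have h2 := Bd.add (lat_YF hp) h1 hwz
  rw [sub_add_sub_cancel] at h2
  exact h2.mono (by linarith)

end Pool.Agent.WBp
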