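import Pool.Agent.Lib.MP_c7fb7b_an_p.A2
import Pool.Agent.Lib.MP_c7fb7b_an.P2

/-!
# P2 (general exponent): numerical lemmas for the fixed rows

As in `MP_c7fb7b_an/P2.lean`, `q = qq p`, `θ = 1/(2q) = (1 - 1/p)/2`.
`chunk_sum`: for `a ≥ 1`, `a^θ - (a-1)^θ ≥ θ a^(θ-1)` (Bernoulli for `(a-1)/a`), so
`1/a ≤ (1/θ) (a^θ - (a-1)^θ) a^(-θ) ≤ 2q (a^θ - (a-1)^θ) (1+σ)^(-θ)` for `a ≥ 1 + σ`; telescoping.
`num_total`: `s_j^q ≤ (6q)^q 2 v_j (1 + a/S_j)^(1/2) ≤ (6q)^q 2 v_j (1 + √a/√S_j)`,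
`∑ v_j/√S_j ≤ 2√S` (proved in `MP_c7fb7b_an/P2.lean`), so `∑ s_j^q ≤ (6q)^q 4 (S+a)`; Hoelder
`∑ s_j ≤ k^(1/p) (∑ s_j^q)^(1/q) ≤ k^(1/p) 6q 4^(1/q) (S+a)^(1/q)`.
-/

open Finset Filter Topology Pool.Agent.WB

namespace Pool.Agent.WBp

theorem pp2_exp {p : ℝ} (hp : 1 < p) : 0 < 1 - 1 / p ∧ 1 - 1 / p < 1 := by
  have h0 : 0 < p := by linarith
  have h1 : 1 / p < 1 := by
    rw [div_lt_one h0]
    exact hp
  have h2 : 0 < 1 / p := by positivity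
  constructor <;> linarith

theorem pp2_qe {p : ℝ} (hp : 1 < p) : qq p * (1 - 1 / p) = 1 := by
  have hq : 0 < qq p := lt_of_lt_of_le one_pos (one_le_qq hp)
  rw [inv_qq hp]
  exact mul_inv_cancel₀ hq.ne'

theorem pp2_step {p : ℝ} (hp : 1 < p) {a u : ℝ} (ha : 1 ≤ a) (hu : 1 ≤ u) (hua : u ≤ a) :
    1 / a ≤ 2 * qq p * (a ^ ((1 - 1 / p) / 2) - (a - 1) ^ ((1 - 1 / p) / 2)) /
      u ^ ((1 - 1 / p) / 2) := by
  obtain ⟨he0, he1⟩ := pp2_exp hp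
  have hqe := pp2_qe hp
  have hq : 0 < qq p := lt_of_lt_of_le one_pos (one_le_qq hp)
  set θ := (1 - 1 / p) / 2 with hθ
  have hθ0 : 0 < θ := by positivity
  have hθ1 : θ ≤ 1 := by rw [hθ]; linarith
  have ha0 : 0 < a := by linarith
  have h1 : (1 + -(1 / a)) ^ θ ≤ 1 + θ * -(1 / a) := by
    apply rpow_one_add_le_one_add_mul_self _ hθ0.le hθ1
    have : 1 / a ≤ 1 := by
      rw [div_le_one ha0]
      exact ha
    linarith
  have h2 : 1 + -(1 / a) = (a - 1) / a := by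
    field_simp
    ring
  rw [h2, Real.div_rpow (by linarith) ha0.le] at h1
  have haθ : 0 < a ^ θ := Real.rpow_pos_of_pos ha0 _
  have huθ : 0 < u ^ θ := Real.rpow_pos_of_pos (by linarith) _
  rw [div_le_iff₀ haθ] at h1
  have h3 : θ * (a ^ θ / a) ≤ a ^ θ - (a - 1) ^ θ := by
    have : (1 + θ * -(1 / a)) * a ^ θ = a ^ θ - θ * (a ^ θ / a) := by ring
    linarith
  have h4 : u ^ θ ≤ a ^ θ := Real.rpow_le_rpow (by linarith) hua hθ0.le
  have h5 : 2 * qq p * θ = 1 := by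
    rw [hθ]
    linarith
  rw [le_div_iff₀ huθ]
  calc 1 / a * u ^ θ ≤ 1 / a * a ^ θ := mul_le_mul_of_nonneg_left h4 (by positivity)
    _ = (2 * qq p * θ) * (a ^ θ / a) := by rw [h5]; ring
    _ = 2 * qq p * (θ * (a ^ θ / a)) := by ring
    _ ≤ 2 * qq p * (a ^ θ - (a - 1) ^ θ) := mul_le_mul_of_nonneg_left h3 (by positivity)

theorem chunk_sum {p : ℝ} (hp : 1 < p) (n : ℕ) {σ : ℝ} (hσ : 0 ≤ σ) :
    ∑ c ∈ range n, 1 / ((c : ℝ) + 1 + σ) ≤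
      2 * qq p * (((n : ℝ) + σ) / (1 + σ)) ^ ((1 - 1 / p) / 2) := by
  have hq : 0 < qq p := lt_of_lt_of_le one_pos (one_le_qq hp)
  have key : ∀ n : ℕ, ∑ c ∈ range n, 1 / ((c : ℝ) + 1 + σ) ≤
      2 * qq p * (((n : ℝ) + σ) ^ ((1 - 1 / p) / 2) - σ ^ ((1 - 1 / p) / 2)) /
        (1 + σ) ^ ((1 - 1 / p) / 2) := by
    intro n
    induction n with
    | zero => simp
    | succ n ih =>
      rw [Finset.sum_range_succ]
      have h := pp2_step hp (a := (n : ℝ) + 1 + σ) (u := 1 + σ)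
        (by have := Nat.cast_nonneg (α := ℝ) n; linarith) (by linarith)
        (by have := Nat.cast_nonneg (α := ℝ) n; linarith)
      have e1 : (n : ℝ) + 1 + σ - 1 = (n : ℝ) + σ := by ring
      rw [e1] at h
      have e2 : (((n + 1 : ℕ) : ℝ) + σ) = (n : ℝ) + 1 + σ := by push_cast; ring
      rw [e2]
      refine (add_le_add ih h).trans (le_of_eq ?_)
      rw [← add_div]
      congr 1
      ring
  refine (key n).trans ?_
  have hn : (0 : ℝ) ≤ n := Nat.cast_nonneg _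
  rw [Real.div_rpow (by positivity) (by positivity), mul_div_assoc]
  refine mul_le_mul_of_nonneg_left ?_ (by positivity)
  refine div_le_div_of_nonneg_right ?_ (by positivity)
  have : 0 ≤ σ ^ ((1 - 1 / p) / 2) := by positivity
  linarith

theorem pp2_pow {p : ℝ} (hp : 1 < p) {v A S : ℝ} (hv : 0 ≤ v) (hA : 0 ≤ A) (hS : 0 ≤ S) :
    (6 * qq p * (2 * v) ^ (1 - 1 / p) * (1 + A / S) ^ ((1 - 1 / p) / 2)) ^ (qq p) =
      (6 * qq p) ^ (qq p) * (2 * v * √(1 + A / S)) := by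
  have hqe := pp2_qe hp
  have hq : 0 < qq p := lt_of_lt_of_le one_pos (one_le_qq hp)
  have h0 : 0 ≤ 1 + A / S := by positivity
  rw [Real.mul_rpow (by positivity) (by positivity), Real.mul_rpow (by positivity) (by positivity),
    ← Real.rpow_mul (by positivity), ← Real.rpow_mul h0]
  have e1 : (1 - 1 / p) * qq p = 1 := by rw [mul_comm]; exact hqe
  have e2 : (1 - 1 / p) / 2 * qq p = 1 / 2 := by
    have : (1 - 1 / p) / 2 * qq p = (qq p * (1 - 1 / p)) / 2 := by ring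
    rw [this, hqe]
  rw [e1, e2, Real.rpow_one, ← Real.sqrt_eq_rpow]
  ring

theorem num_total {p : ℝ} (hp : 1 < p) (k : ℕ) (F : Finset ℕ) (hF : F.card ≤ k) (v : ℕ → ℕ)
    (a : ℕ) (s : ℕ → ℝ) (hs0 : ∀ j ∈ F, v j = 0 → s j ≤ 0)
    (hs : ∀ j ∈ F, 0 < v j → s j ≤ 6 * qq p * (2 * (v j : ℝ)) ^ (1 - 1 / p) *
      (1 + (a : ℝ) / ((∑ i ∈ F.filter (fun i => i ≤ j), v i : ℕ) : ℝ)) ^ ((1 - 1 / p) / 2)) :
    ∑ j ∈ F, s j ≤ 24 * qq p * (k : ℝ) ^ (1 / p) *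
      ((a : ℝ) + ((∑ j ∈ F, v j : ℕ) : ℝ)) ^ (1 - 1 / p) := by
  obtain ⟨he0, he1⟩ := pp2_exp hp
  have hqe := pp2_qe hp
  have hq : 0 < qq p := lt_of_lt_of_le one_pos (one_le_qq hp)
  have hqi : 1 / qq p = 1 - 1 / p := by
    rw [inv_qq hp, one_div]
  have hS0 : (0 : ℝ) ≤ ((∑ j ∈ F, v j : ℕ) : ℝ) := Nat.cast_nonneg _
  have ha0 : (0 : ℝ) ≤ (a : ℝ) := Nat.cast_nonneg _
  set r : ℕ → ℝ := fun j => 6 * qq p * (2 * (v j : ℝ)) ^ (1 - 1 / p) *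
      (1 + (a : ℝ) / ((∑ i ∈ F.filter (fun i => i ≤ j), v i : ℕ) : ℝ)) ^ ((1 - 1 / p) / 2) with hr
  have hr0 : ∀ j, 0 ≤ r j := fun j => by simp only [hr]; positivity
  have h1 : ∑ j ∈ F, s j ≤ ∑ j ∈ F, r j * 1 := by
    refine Finset.sum_le_sum fun j hj => ?_
    rw [mul_one]
    rcases Nat.eq_zero_or_pos (v j) with h | h
    · exact (hs0 j hj h).trans (hr0 j)
    · exact hs j hj h
  have hconj : (qq p).HolderConjugate p := (Real.HolderConjugate.conjExponent hp).symm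
  have h2 := Real.inner_le_Lp_mul_Lq F r (fun _ => (1 : ℝ)) hconj
  have h3 : ∑ j ∈ F, |r j| ^ qq p ≤
      (6 * qq p) ^ (qq p) * (4 * ((a : ℝ) + ((∑ j ∈ F, v j : ℕ) : ℝ))) := by
    have h4 : ∀ j ∈ F, |r j| ^ qq p ≤ (6 * qq p) ^ (qq p) * (2 * (v j : ℝ) + 2 * √(a : ℝ) *
          ((v j : ℝ) / √((∑ i ∈ F.filter (fun i => i ≤ j), v i : ℕ) : ℝ))) := by
      intro j _
      rw [abs_of_nonneg (hr0 j)]
      simp only [hr]
      rw [pp2_pow hp (Nat.cast_nonneg _) ha0 (Nat.cast_nonneg _)]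
      refine mul_le_mul_of_nonneg_left ?_ (by positivity)
      have h5 := p2_sqrt_add ha0 (Nat.cast_nonneg (α := ℝ)
        (∑ i ∈ F.filter (fun i => i ≤ j), v i))
      have h6 := mul_le_mul_of_nonneg_left h5 (by positivity : (0 : ℝ) ≤ 2 * (v j : ℝ))
      refine h6.trans (le_of_eq ?_)
      ring
    refine (Finset.sum_le_sum h4).trans ?_
    rw [← Finset.mul_sum]
    refine mul_le_mul_of_nonneg_left ?_ (by positivity)
    rw [Finset.sum_add_distrib, ← Finset.mul_sum, ← Finset.mul_sum]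
    have h5 := mul_le_mul_of_nonneg_left (p2_sum F v)
      (by positivity : (0 : ℝ) ≤ 2 * √(a : ℝ))
    have e1 : ∑ j ∈ F, (v j : ℝ) = ((∑ j ∈ F, v j : ℕ) : ℝ) := by push_cast; rfl
    rw [e1]
    have h6 : 2 * (√(a : ℝ) * √((∑ j ∈ F, v j : ℕ) : ℝ)) ≤
        (a : ℝ) + ((∑ j ∈ F, v j : ℕ) : ℝ) := by
      have q1 := Real.sq_sqrt ha0
      have q2 := Real.sq_sqrt hS0
      nlinarith [sq_nonneg (√(a : ℝ) - √((∑ j ∈ F, v j : ℕ) : ℝ))]
    nlinarith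
  have h4 : (∑ j ∈ F, |r j| ^ qq p) ^ (1 / qq p) ≤
      24 * qq p * ((a : ℝ) + ((∑ j ∈ F, v j : ℕ) : ℝ)) ^ (1 - 1 / p) := by
    calc (∑ j ∈ F, |r j| ^ qq p) ^ (1 / qq p)
        ≤ ((6 * qq p) ^ (qq p) * (4 * ((a : ℝ) + ((∑ j ∈ F, v j : ℕ) : ℝ)))) ^ (1 / qq p) :=
          Real.rpow_le_rpow (Finset.sum_nonneg fun j _ => by positivity) h3 (by positivity)
      _ = (6 * qq p) * ((4 : ℝ) ^ (1 - 1 / p) *
            ((a : ℝ) + ((∑ j ∈ F, v j : ℕ) : ℝ)) ^ (1 - 1 / p)) := by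
          rw [Real.mul_rpow (by positivity) (by positivity), ← Real.rpow_mul (by positivity),
            mul_one_div_cancel hq.ne', Real.rpow_one, hqi,
            Real.mul_rpow (by norm_num) (by positivity)]
      _ ≤ (6 * qq p) * (4 * ((a : ℝ) + ((∑ j ∈ F, v j : ℕ) : ℝ)) ^ (1 - 1 / p)) := by
          refine mul_le_mul_of_nonneg_left ?_ (by positivity)
          refine mul_le_mul_of_nonneg_right ?_ (by positivity)
          calc (4 : ℝ) ^ (1 - 1 / p) ≤ (4 : ℝ) ^ (1 : ℝ) :=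
                Real.rpow_le_rpow_of_exponent_le (by norm_num) he1.le
            _ = 4 := Real.rpow_one _
      _ = _ := by ring
  have h5 : (∑ j ∈ F, |(1 : ℝ)| ^ p) ^ (1 / p) ≤ (k : ℝ) ^ (1 / p) := by
    rw [abs_one, Real.one_rpow, Finset.sum_const, nsmul_eq_mul, mul_one]
    exact Real.rpow_le_rpow (by positivity) (by exact_mod_cast hF) (by positivity)
  calc ∑ j ∈ F, s j ≤ ∑ j ∈ F, r j * 1 := h1
    _ ≤ (∑ j ∈ F, |r j| ^ qq p) ^ (1 / qq p) * (∑ j ∈ F, |(1 : ℝ)| ^ p) ^ (1 / p) := h2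
    _ ≤ (24 * qq p * ((a : ℝ) + ((∑ j ∈ F, v j : ℕ) : ℝ)) ^ (1 - 1 / p)) *
          (k : ℝ) ^ (1 / p) :=
        mul_le_mul h4 h5 (by positivity) (by positivity)
    _ = _ := by ring

end Pool.Agent.WBp
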