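import Pool.Agent.Lib.MP_c7fb7b_an.P3
import Pool.Agent.Lib.MP_c7fb7b_an_p.B3
import Pool.Agent.Lib.MP_c7fb7b_an_p.P2

/-!
# P3 (general exponent): one block of columns against fixed rows

Same as `MP_c7fb7b_an/P3.lean`; `NV p g W C ≤ 1` means
`(1-1/p) ∑_{b,n∈W} |C|/d' ≤ |W|^(1-1/p) ≤ (2v)^(1-1/p)`; sum of `m_c = 3/(c+1+σ)` by `chunk_sum`.
-/

open Finset Filter Topology Pool.Agent.WB

namespace Pool.Agent.WBp

theorem p3_one_sub {p : ℝ} (hp : 1 < p) : 0 < 1 - 1 / p := by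
  have : 1 / p < 1 := by rw [div_lt_one (by linarith)]; exact hp
  linarith

theorem p3_NV_sum {p : ℝ} (hp : 1 < p) (g : ℕ) (C : ℕ × ℕ → ℝ) (W : Finset ℕ)
    (h : NV p g W C ≤ 1) :
    (1 - 1 / p) *
      ∑ b ∈ W, ∑ n ∈ W, (if b < n ∧ dV W b n ≤ g then |C (b, n)| / (dV W b n : ℝ) else 0)
      ≤ (W.card : ℝ) ^ (1 - 1 / p) := by
  rcases Nat.eq_zero_or_pos W.card with h0 | h0
  · rw [Finset.card_eq_zero] at h0
    subst h0
    simp only [Finset.sum_empty, mul_zero]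
    positivity
  · have hs : 0 < (W.card : ℝ) ^ (1 - 1 / p) := Real.rpow_pos_of_pos (by exact_mod_cast h0) _
    unfold NV at h
    rw [mul_assoc, mul_left_comm, inv_mul_le_iff₀ hs, mul_one] at h
    exact h

theorem p3_chunk {p : ℝ} (hp : 1 < p) (g : ℕ) (C : ℕ × ℕ → ℝ) (hC : ∀ V, NV p g V C ≤ 1)
    (V V0 Vj : Finset ℕ)
    (hV0 : V0 ⊆ V) (hVj : Vj ⊆ V) (hne : 0 < Vj.card) (T : ℕ)
    (hT : ∀ b ∈ V0, ∀ n ∈ Vj, (V0.filter (fun b' => b < b')).card + T +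
      (Vj.filter (fun m => m ≤ n)).card ≤ dV V b n) (c : ℕ) :
    (1 - 1 / p) * ∑ b ∈ V0.filter (fun b => p3_r V0 b / Vj.card = c),
      ∑ n ∈ Vj, (if b < n ∧ dV V b n ≤ g then |C (b, n)| / (dV V b n : ℝ) else 0) ≤
      (3 * (Vj.card : ℝ) / (((c : ℝ) + 1) * Vj.card + T)) * (2 * (Vj.card : ℝ)) ^ (1 - 1 / p) := by
  classical
  have hp0 : 0 < 1 - 1 / p := p3_one_sub hp
  set v := Vj.card with hv
  set U := V0.filter (fun b => p3_r V0 b / v = c) with hU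
  set W := U ∪ Vj with hW
  have hWV : W ⊆ V := Finset.union_subset ((filter_subset _ _).trans hV0) hVj
  have hWc : W.card ≤ 2 * v := by
    refine (Finset.card_union_le _ _).trans ?_
    have h1 : U.card ≤ v := p3_card_chunk V0 v c hne
    omega
  have hv0 : (0 : ℝ) < v := by exact_mod_cast hne
  have hm0 : (0 : ℝ) ≤ 3 * (v : ℝ) / (((c : ℝ) + 1) * v + T) := by positivity
  have hG0 : ∀ b n, (0 : ℝ) ≤ (if b < n ∧ dV W b n ≤ g then |C (b, n)| / (dV W b n : ℝ) else 0) := by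
    intro b n
    split_ifs
    · positivity
    · exact le_rfl
  have hpt : ∀ b ∈ U, ∀ n ∈ Vj,
      (if b < n ∧ dV V b n ≤ g then |C (b, n)| / (dV V b n : ℝ) else 0) ≤
      (3 * (v : ℝ) / (((c : ℝ) + 1) * v + T)) *
        (if b < n ∧ dV W b n ≤ g then |C (b, n)| / (dV W b n : ℝ) else 0) := by
    intro b hb n hn
    by_cases hc : b < n ∧ dV V b n ≤ g
    · have hmono : dV W b n ≤ dV V b n := dV_mono hWV b n
      rw [if_pos hc, if_pos ⟨hc.1, hmono.trans hc.2⟩]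
      rw [hU, mem_filter] at hb
      have h1 := hT b hb.1 n hn
      have h2 : 0 < (Vj.filter (fun m => m ≤ n)).card :=
        Finset.card_pos.2 ⟨n, mem_filter.2 ⟨hn, le_rfl⟩⟩
      have h3 : c * v ≤ (V0.filter (fun b' => b < b')).card := by
        have := Nat.div_mul_le_self (p3_r V0 b) v
        rw [hb.2] at this
        exact this
      exact p3_coef hne (dV_pos (mem_union_right _ hn) hc.1) hmono
        ((dV_le_card W b n).trans hWc) (by omega) (abs_nonneg _)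
    · rw [if_neg hc]
      exact mul_nonneg hm0 (hG0 b n)
  calc (1 - 1 / p) * ∑ b ∈ U, ∑ n ∈ Vj,
        (if b < n ∧ dV V b n ≤ g then |C (b, n)| / (dV V b n : ℝ) else 0)
      ≤ (1 - 1 / p) * ∑ b ∈ U, ∑ n ∈ Vj, (3 * (v : ℝ) / (((c : ℝ) + 1) * v + T)) *
        (if b < n ∧ dV W b n ≤ g then |C (b, n)| / (dV W b n : ℝ) else 0) :=
        mul_le_mul_of_nonneg_left
          (Finset.sum_le_sum (fun b hb => Finset.sum_le_sum (fun n hn => hpt b hb n hn))) hp0.le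
    _ = (3 * (v : ℝ) / (((c : ℝ) + 1) * v + T)) * ((1 - 1 / p) * ∑ b ∈ U, ∑ n ∈ Vj,
        (if b < n ∧ dV W b n ≤ g then |C (b, n)| / (dV W b n : ℝ) else 0)) := by
        rw [mul_left_comm, Finset.mul_sum (s := U) (a := 3 * (v : ℝ) / (((c : ℝ) + 1) * v + T))]
        congr 1
        exact Finset.sum_congr rfl (fun b _ => (Finset.mul_sum _ _ _).symm)
    _ ≤ (3 * (v : ℝ) / (((c : ℝ) + 1) * v + T)) * ((1 - 1 / p) * ∑ b ∈ W, ∑ n ∈ W,
        (if b < n ∧ dV W b n ≤ g then |C (b, n)| / (dV W b n : ℝ) else 0)) := by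
        refine mul_le_mul_of_nonneg_left (mul_le_mul_of_nonneg_left ?_ hp0.le) hm0
        refine (Finset.sum_le_sum (fun b _ => Finset.sum_le_sum_of_subset_of_nonneg
          (t := W) (subset_union_right) (fun n _ _ => hG0 b n))).trans ?_
        exact Finset.sum_le_sum_of_subset_of_nonneg (subset_union_left)
          (fun b _ _ => Finset.sum_nonneg (fun n _ => hG0 b n))
    _ ≤ (3 * (v : ℝ) / (((c : ℝ) + 1) * v + T)) * (2 * (v : ℝ)) ^ (1 - 1 / p) := by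
        refine mul_le_mul_of_nonneg_left ?_ hm0
        refine (p3_NV_sum hp g C W (hC W)).trans
          (Real.rpow_le_rpow (Nat.cast_nonneg _) ?_ hp0.le)
        exact_mod_cast hWc

theorem chunk_bound {p : ℝ} (hp : 1 < p) (g : ℕ) (C : ℕ × ℕ → ℝ) (hC : ∀ V, NV p g V C ≤ 1)
    (V V0 Vj : Finset ℕ) (hV0 : V0 ⊆ V) (hVj : Vj ⊆ V) (hne : 0 < Vj.card)
    (hlt : ∀ b ∈ V0, ∀ n ∈ Vj, b < n) (T : ℕ)
    (hT : ∀ b ∈ V0, ∀ n ∈ Vj, (V0.filter (fun b' => b < b')).card + T +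
      (Vj.filter (fun m => m ≤ n)).card ≤ dV V b n) :
    (1 - 1 / p) *
      ∑ b ∈ V0, ∑ n ∈ Vj, (if b < n ∧ dV V b n ≤ g then |C (b, n)| / (dV V b n : ℝ) else 0) ≤
      6 * qq p * (2 * (Vj.card : ℝ)) ^ (1 - 1 / p) *
        (1 + (V0.card : ℝ) / ((T + Vj.card : ℕ) : ℝ)) ^ ((1 - 1 / p) / 2) := by
  classical
  have hp0 : 0 < 1 - 1 / p := p3_one_sub hp
  have hq0 : 0 < qq p := by
    unfold qq
    exact div_pos (by linarith) (by linarith)
  set v := Vj.card with hv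
  set nC := V0.card / v + 1 with hnC
  have hv0 : (0 : ℝ) < v := by exact_mod_cast hne
  have hmaps : ∀ b ∈ V0, p3_r V0 b / v ∈ range nC := by
    intro b hb
    rw [mem_range, hnC]
    have := Nat.div_le_div_right (c := v) (p3_r_lt hb).le
    omega
  rw [← Finset.sum_fiberwise_of_maps_to hmaps]
  have hσ : (0 : ℝ) ≤ (T : ℝ) / v := by positivity
  have hsum := Pool.Agent.WBp.chunk_sum hp nC hσ
  have hterm : ∀ c : ℕ, (3 * (v : ℝ) / (((c : ℝ) + 1) * v + T)) * (2 * (v : ℝ)) ^ (1 - 1 / p)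
      = (3 * (2 * (v : ℝ)) ^ (1 - 1 / p)) * (1 / ((c : ℝ) + 1 + (T : ℝ) / v)) := by
    intro c
    have h1 : ((c : ℝ) + 1) * v + T = v * ((c : ℝ) + 1 + (T : ℝ) / v) := by
      field_simp
    have h2 : (0 : ℝ) < (c : ℝ) + 1 + (T : ℝ) / v := by positivity
    rw [h1]
    generalize (2 * (v : ℝ)) ^ (1 - 1 / p) = X
    field_simp
  calc (1 - 1 / p) * ∑ c ∈ range nC, ∑ b ∈ V0 with p3_r V0 b / v = c, ∑ n ∈ Vj,
        (if b < n ∧ dV V b n ≤ g then |C (b, n)| / (dV V b n : ℝ) else 0)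
      ≤ ∑ c ∈ range nC, (3 * (v : ℝ) / (((c : ℝ) + 1) * v + T)) * (2 * (v : ℝ)) ^ (1 - 1 / p) := by
        rw [Finset.mul_sum]
        exact Finset.sum_le_sum (fun c _ => p3_chunk hp g C hC V V0 Vj hV0 hVj hne T hT c)
    _ = (3 * (2 * (v : ℝ)) ^ (1 - 1 / p)) *
        ∑ c ∈ range nC, 1 / ((c : ℝ) + 1 + (T : ℝ) / v) := by
        rw [Finset.mul_sum]
        exact Finset.sum_congr rfl (fun c _ => hterm c)
    _ ≤ (3 * (2 * (v : ℝ)) ^ (1 - 1 / p)) *
        (2 * qq p * (((nC : ℝ) + (T : ℝ) / v) / (1 + (T : ℝ) / v)) ^ ((1 - 1 / p) / 2)) :=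
        mul_le_mul_of_nonneg_left hsum (by positivity)
    _ = 6 * qq p * (2 * (v : ℝ)) ^ (1 - 1 / p) *
        (((nC : ℝ) + (T : ℝ) / v) / (1 + (T : ℝ) / v)) ^ ((1 - 1 / p) / 2) := by ring
    _ ≤ 6 * qq p * (2 * (v : ℝ)) ^ (1 - 1 / p) *
        (1 + (V0.card : ℝ) / ((T + v : ℕ) : ℝ)) ^ ((1 - 1 / p) / 2) := by
        refine mul_le_mul_of_nonneg_left ?_ (by positivity)
        apply Real.rpow_le_rpow (by positivity) _ (by positivity)
        have h1 : (nC : ℝ) ≤ (V0.card : ℝ) / v + 1 := by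
          rw [hnC]
          push_cast
          have := Nat.cast_div_le (α := ℝ) (m := V0.card) (n := v)
          linarith
        have h2 : (0 : ℝ) < 1 + (T : ℝ) / v := by positivity
        rw [div_le_iff₀ h2]
        have h3 : (1 + (V0.card : ℝ) / ((T + v : ℕ) : ℝ)) * (1 + (T : ℝ) / v)
            = (V0.card : ℝ) / v + 1 + (T : ℝ) / v := by
          push_cast
          have h4 : (0 : ℝ) < (T : ℝ) + v := by positivity
          field_simp
          ring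
        rw [h3]
        linarith

end Pool.Agent.WBp
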