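import Pool.Agent.Lib.MP_c7fb7b_an_p.P3
import Pool.Agent.Lib.MP_c7fb7b_an.P4

/-!
# P4 (general exponent): fixed rows and blocks
-/

open Finset Filter Topology Pool.Agent.WB

namespace Pool.Agent.WBp

theorem pp4_theta {p : ℝ} (hp : 1 < p) : 0 < 1 - 1 / p ∧ 1 - 1 / p ≤ 1 := by
  have hp0 : 0 < p := by linarith
  have h1 : 1 / p < 1 := by
    rw [div_lt_one hp0]
    exact hp
  have h2 : 0 < 1 / p := by positivity
  exact ⟨by linarith, by linarith⟩

/-- from a bound of the weighted sum to a bound of the functional -/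
theorem pp4_NV_le {p : ℝ} (hp : 1 < p) (g : ℕ) (V : Finset ℕ) (y : ℕ × ℕ → ℝ) {K : ℝ} (hK : 0 ≤ K)
    (h : (1 - 1 / p) * ∑ b ∈ V, ∑ n ∈ V, (if b < n ∧ dV V b n ≤ g then
      |y (b, n)| / (dV V b n : ℝ) else 0) ≤ K * (V.card : ℝ) ^ (1 - 1 / p)) :
    NV p g V y ≤ K := by
  unfold NV
  rcases Finset.eq_empty_or_nonempty V with h0 | h0
  · subst h0
    simpa using hK
  · have hpos : (0 : ℝ) < (V.card : ℝ) ^ (1 - 1 / p) :=
      Real.rpow_pos_of_pos (by exact_mod_cast Finset.card_pos.2 h0) _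
    rw [mul_comm (1 - 1 / p), mul_assoc, inv_mul_le_iff₀ hpos]
    linarith

theorem pp4_NV_eq {p : ℝ} (hp : 1 < p) (g : ℕ) (W : Finset ℕ) (y : ℕ × ℕ → ℝ) :
    (1 - 1 / p) * ∑ b ∈ W, ∑ n ∈ W, (if b < n ∧ dV W b n ≤ g then
      |y (b, n)| / (dV W b n : ℝ) else 0) = (W.card : ℝ) ^ (1 - 1 / p) * NV p g W y := by
  unfold NV
  rcases Finset.eq_empty_or_nonempty W with h | h
  · subst h
    simp
  · have hpos : (0 : ℝ) < (W.card : ℝ) ^ (1 - 1 / p) :=
      Real.rpow_pos_of_pos (by exact_mod_cast Finset.card_pos.2 h) _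
    field_simp

theorem fixed_rows {p : ℝ} (hp : 1 < p) (g k : ℕ) (F : Finset ℕ) (hF : F.card ≤ k) (m0 : ℕ)
    (I : ℕ → ℕ) (hI : Monotone I) (hm : m0 ≤ I 0) (C : ℕ → ℕ × ℕ → ℝ)
    (hC : ∀ j V, NV p g V (C j) ≤ 1)
    (hs : ∀ j b n, C j (b, n) ≠ 0 → b < m0 ∧ I j ≤ n ∧ n < I (j + 1)) (V : Finset ℕ) :
    NV p g V (∑ j ∈ F, C j) ≤ 24 * qq p * (k : ℝ) ^ (1 / p) := by
  obtain ⟨hθ0, hθ1⟩ := pp4_theta hp
  have hqq : 1 ≤ qq p := one_le_qq hp
  set V0 := V.filter (fun b => b < m0) with hV0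
  set v : ℕ → ℕ := fun j => (p4_blk V I j).card with hv
  set s : ℕ → ℝ := fun j => (1 - 1 / p) * ∑ b ∈ V0, ∑ n ∈ p4_blk V I j,
    (if b < n ∧ dV V b n ≤ g then |C j (b, n)| / (dV V b n : ℝ) else 0) with hsdef
  have hV0V : V0 ⊆ V := Finset.filter_subset _ _
  have hblkV : ∀ j, p4_blk V I j ⊆ V := fun j => Finset.filter_subset _ _
  have hlt : ∀ j, ∀ b ∈ V0, ∀ n ∈ p4_blk V I j, b < n := by
    intro j b hb n hn
    rw [hV0, Finset.mem_filter] at hb
    rw [p4_mem] at hn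
    have := hI (Nat.zero_le j)
    omega
  have h1 : (1 - 1 / p) * ∑ b ∈ V, ∑ n ∈ V, (if b < n ∧ dV V b n ≤ g then
      |(∑ j ∈ F, C j) (b, n)| / (dV V b n : ℝ) else 0) ≤ ∑ j ∈ F, s j := by
    refine (mul_le_mul_of_nonneg_left (p4_tri V F (fun b n => b < n ∧ dV V b n ≤ g)
      (fun b n => (dV V b n : ℝ)) (fun b n => Nat.cast_nonneg _) C) hθ0.le).trans (le_of_eq ?_)
    rw [Finset.mul_sum]
    refine Finset.sum_congr rfl fun j _ => ?_
    simp only [hsdef]
    congr 1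
    refine p4_restrict V V0 (p4_blk V I j) hV0V (hblkV j) _ ?_
    intro b hb n hn hne
    have hCne : C j (b, n) ≠ 0 := by
      intro h0
      apply hne
      rw [h0]
      simp
    obtain ⟨q1, q2, q3⟩ := hs j b n hCne
    exact ⟨Finset.mem_filter.2 ⟨hb, q1⟩, p4_mem.2 ⟨hn, q2, q3⟩⟩
  have h2 : ∑ j ∈ F, s j ≤ 24 * qq p * (k : ℝ) ^ (1 / p) *
      ((V0.card : ℝ) + ((∑ j ∈ F, v j : ℕ) : ℝ)) ^ (1 - 1 / p) := by
    refine num_total hp k F hF v V0.card s ?_ ?_
    · intro j _ hvj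
      have hemp : p4_blk V I j = ∅ := Finset.card_eq_zero.1 hvj
      simp only [hsdef, hemp, Finset.sum_empty, Finset.sum_const_zero, mul_zero]
      exact le_rfl
    · intro j hj hvj
      set T := ∑ i ∈ F.filter (fun i => i < j), v i with hT
      have hTe : ∑ i ∈ F.filter (fun i => i ≤ j), v i = T + (p4_blk V I j).card := by
        have : F.filter (fun i => i ≤ j) = insert j (F.filter (fun i => i < j)) := by
          ext i
          simp only [Finset.mem_filter, Finset.mem_insert]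
          constructor
          · rintro ⟨q1, q2⟩
            rcases Nat.lt_or_eq_of_le q2 with q3 | q3
            · exact Or.inr ⟨q1, q3⟩
            · exact Or.inl q3
          · rintro (q | ⟨q1, q2⟩)
            · rw [q]; exact ⟨hj, le_rfl⟩
            · exact ⟨q1, q2.le⟩
        rw [this, Finset.sum_insert (by simp)]
        rw [add_comm]
      rw [hTe]
      refine chunk_bound hp g (C j) (hC j) V V0 (p4_blk V I j) hV0V (hblkV j) hvj (hlt j) T ?_
      intro b hb n hn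
      have hbm : b < m0 := (Finset.mem_filter.1 hb).2
      have hn' := p4_mem.1 hn
      have hI0 : I 0 ≤ I j := hI (Nat.zero_le j)
      rw [hT, p4_card V hI]
      have d1 : Disjoint (V0.filter (fun b' => b < b'))
          ((F.filter (fun i => i < j)).biUnion (p4_blk V I)) := by
        rw [Finset.disjoint_left]
        intro m q1 q2
        rw [Finset.mem_biUnion] at q2
        obtain ⟨i, _, q3⟩ := q2
        have q4 := (p4_mem.1 q3).2.1
        have q5 := (Finset.mem_filter.1 (Finset.mem_filter.1 q1).1).2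
        have q6 := hI (Nat.zero_le i)
        omega
      rw [← Finset.card_union_of_disjoint d1]
      have d2 : Disjoint (V0.filter (fun b' => b < b') ∪
          (F.filter (fun i => i < j)).biUnion (p4_blk V I))
          ((p4_blk V I j).filter (fun m => m ≤ n)) := by
        rw [Finset.disjoint_left]
        intro m q1 q2
        have q3 := (p4_mem.1 (Finset.mem_filter.1 q2).1).2.1
        rw [Finset.mem_union] at q1
        rcases q1 with q1 | q1
        · have q5 := (Finset.mem_filter.1 (Finset.mem_filter.1 q1).1).2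
          omega
        · rw [Finset.mem_biUnion] at q1
          obtain ⟨i, q6, q7⟩ := q1
          have q8 := (p4_mem.1 q7).2.2
          have q9 := (Finset.mem_filter.1 q6).2
          have q10 := hI (show i + 1 ≤ j from q9)
          omega
      rw [← Finset.card_union_of_disjoint d2]
      refine Finset.card_le_card ?_
      intro m hmem
      rw [Finset.mem_filter]
      rw [Finset.mem_union, Finset.mem_union] at hmem
      rcases hmem with (q1 | q1) | q1
      · have q2 := Finset.mem_filter.1 q1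
        have q3 := Finset.mem_filter.1 q2.1
        exact ⟨q3.1, q2.2, by omega⟩
      · rw [Finset.mem_biUnion] at q1
        obtain ⟨i, q6, q7⟩ := q1
        have q8 := p4_mem.1 q7
        have q9 := (Finset.mem_filter.1 q6).2
        have q10 := hI (show i + 1 ≤ j from q9)
        have q11 := hI (Nat.zero_le i)
        exact ⟨q8.1, by omega, by omega⟩
      · have q2 := Finset.mem_filter.1 q1
        have q3 := p4_mem.1 q2.1
        exact ⟨q3.1, by omega, q2.2⟩
  have h3 : V0.card + ∑ j ∈ F, v j ≤ V.card := by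
    have : ∑ j ∈ F, v j = (F.biUnion (p4_blk V I)).card := p4_card V hI F
    rw [this, ← Finset.card_union_of_disjoint]
    · refine Finset.card_le_card (Finset.union_subset hV0V ?_)
      intro m hm'
      rw [Finset.mem_biUnion] at hm'
      obtain ⟨i, _, q⟩ := hm'
      exact hblkV i q
    · rw [Finset.disjoint_left]
      intro m q1 q2
      rw [Finset.mem_biUnion] at q2
      obtain ⟨i, _, q3⟩ := q2
      exact lt_irrefl _ (hlt i m q1 m q3)
  have h4 : ((V0.card : ℝ) + ((∑ j ∈ F, v j : ℕ) : ℝ)) ^ (1 - 1 / p) ≤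
      (V.card : ℝ) ^ (1 - 1 / p) := by
    have h3' : ((V0.card + ∑ j ∈ F, v j : ℕ) : ℝ) ≤ (V.card : ℝ) := Nat.cast_le.2 h3
    rw [Nat.cast_add] at h3'
    exact Real.rpow_le_rpow (add_nonneg (Nat.cast_nonneg _) (Nat.cast_nonneg _)) h3' hθ0.le
  have hK : 0 ≤ 24 * qq p * (k : ℝ) ^ (1 / p) :=
    mul_nonneg (mul_nonneg (by norm_num) (zero_le_one.trans hqq))
      (Real.rpow_nonneg (Nat.cast_nonneg _) _)
  exact pp4_NV_le hp g V _ hK (h1.trans (h2.trans (mul_le_mul_of_nonneg_left h4 hK)))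

theorem pp4_holder {p : ℝ} (hp : 1 < p) (F : Finset ℕ) (x : ℕ → ℝ) (hx : ∀ j, 0 ≤ x j) :
    ∑ j ∈ F, (x j) ^ (1 - 1 / p) ≤ (F.card : ℝ) ^ (1 / p) * (∑ j ∈ F, x j) ^ (1 - 1 / p) := by
  obtain ⟨hθ0, hθ1⟩ := pp4_theta hp
  have hqq : 1 ≤ qq p := one_le_qq hp
  have hinv : (1 - 1 / p) * qq p = 1 := by
    rw [inv_qq hp]
    exact inv_mul_cancel₀ (by linarith)
  have h1 := Real.rpow_sum_le_const_mul_sum_rpow F (fun j => (x j) ^ (1 - 1 / p)) hqq
  have e1 : ∀ j, |(x j) ^ (1 - 1 / p)| = (x j) ^ (1 - 1 / p) := fun j =>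
    abs_of_nonneg (Real.rpow_nonneg (hx j) _)
  simp only [e1] at h1
  have e2 : ∀ j, ((x j) ^ (1 - 1 / p)) ^ (qq p) = x j := fun j => by
    rw [← Real.rpow_mul (hx j), hinv, Real.rpow_one]
  simp only [e2] at h1
  have hS : 0 ≤ ∑ j ∈ F, (x j) ^ (1 - 1 / p) :=
    Finset.sum_nonneg (fun j _ => Real.rpow_nonneg (hx j) _)
  have hX : 0 ≤ ∑ j ∈ F, x j := Finset.sum_nonneg (fun j _ => hx j)
  have h2 := Real.rpow_le_rpow (Real.rpow_nonneg hS _) h1 hθ0.le
  rw [← Real.rpow_mul hS, mul_comm (qq p), hinv, Real.rpow_one,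
    Real.mul_rpow (Real.rpow_nonneg (Nat.cast_nonneg _) _) hX,
    ← Real.rpow_mul (Nat.cast_nonneg _)] at h2
  have e3 : (qq p - 1) * (1 - 1 / p) = 1 / p := by
    have : (qq p - 1) * (1 - 1 / p) = (1 - 1 / p) * qq p - (1 - 1 / p) := by ring
    rw [this, hinv]
    ring
  rw [e3] at h2
  exact h2

theorem block_sum {p : ℝ} (hp : 1 < p) (g k : ℕ) (F : Finset ℕ) (hF : F.card ≤ k) (I : ℕ → ℕ)
    (hI : Monotone I) (D : ℕ → ℕ × ℕ → ℝ) (hD : ∀ j V, NV p g V (D j) ≤ 1)
    (hs : ∀ j b n, D j (b, n) ≠ 0 → I j ≤ b ∧ I j ≤ n ∧ b < I (j + 1) ∧ n < I (j + 1))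
    (V : Finset ℕ) : NV p g V (∑ j ∈ F, D j) ≤ (k : ℝ) ^ (1 / p) := by
  obtain ⟨hθ0, hθ1⟩ := pp4_theta hp
  have hp0 : 0 < p := by linarith
  have hblkV : ∀ j, p4_blk V I j ⊆ V := fun j => Finset.filter_subset _ _
  have h1 : (1 - 1 / p) * ∑ b ∈ V, ∑ n ∈ V, (if b < n ∧ dV V b n ≤ g then
      |(∑ j ∈ F, D j) (b, n)| / (dV V b n : ℝ) else 0) ≤
      ∑ j ∈ F, ((p4_blk V I j).card : ℝ) ^ (1 - 1 / p) := by
    refine (mul_le_mul_of_nonneg_left (p4_tri V F (fun b n => b < n ∧ dV V b n ≤ g)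
      (fun b n => (dV V b n : ℝ)) (fun b n => Nat.cast_nonneg _) D) hθ0.le).trans ?_
    rw [Finset.mul_sum]
    refine Finset.sum_le_sum fun j _ => ?_
    rw [p4_restrict V (p4_blk V I j) (p4_blk V I j) (hblkV j) (hblkV j)]
    · have e : ∑ b ∈ p4_blk V I j, ∑ n ∈ p4_blk V I j,
          (if b < n ∧ dV V b n ≤ g then |D j (b, n)| / (dV V b n : ℝ) else 0) =
          ∑ b ∈ p4_blk V I j, ∑ n ∈ p4_blk V I j,
          (if b < n ∧ dV (p4_blk V I j) b n ≤ g then
            |D j (b, n)| / (dV (p4_blk V I j) b n : ℝ) else 0) := by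
        refine Finset.sum_congr rfl fun b hb => Finset.sum_congr rfl fun n hn => ?_
        rw [p4_dV V I j b n (p4_mem.1 hb).2.1 (p4_mem.1 hn).2.2]
      rw [e, pp4_NV_eq hp]
      have := mul_le_mul_of_nonneg_left (hD j (p4_blk V I j))
        (Real.rpow_nonneg (Nat.cast_nonneg ((p4_blk V I j).card)) (1 - 1 / p) :
          (0 : ℝ) ≤ ((p4_blk V I j).card : ℝ) ^ (1 - 1 / p))
      linarith
    · intro b hb n hn hne
      have hDne : D j (b, n) ≠ 0 := by
        intro h0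
        apply hne
        rw [h0]
        simp
      obtain ⟨q1, q2, q3, q4⟩ := hs j b n hDne
      exact ⟨p4_mem.2 ⟨hb, q1, q3⟩, p4_mem.2 ⟨hn, q2, q4⟩⟩
  have h2 := pp4_holder hp F (fun j => ((p4_blk V I j).card : ℝ)) (fun j => Nat.cast_nonneg _)
  have e1 : ∑ j ∈ F, ((p4_blk V I j).card : ℝ) = (((F.biUnion (p4_blk V I)).card : ℕ) : ℝ) := by
    rw [← p4_card V hI]
    push_cast
    rfl
  rw [e1] at h2
  have e2 : (F.biUnion (p4_blk V I)).card ≤ V.card := by
    refine Finset.card_le_card ?_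
    intro m hm'
    rw [Finset.mem_biUnion] at hm'
    obtain ⟨i, _, q⟩ := hm'
    exact hblkV i q
  have h3 : (F.card : ℝ) ^ (1 / p) * (((F.biUnion (p4_blk V I)).card : ℕ) : ℝ) ^ (1 - 1 / p)
      ≤ (k : ℝ) ^ (1 / p) * (V.card : ℝ) ^ (1 - 1 / p) := by
    refine mul_le_mul ?_ ?_ (Real.rpow_nonneg (Nat.cast_nonneg _) _)
      (Real.rpow_nonneg (Nat.cast_nonneg _) _)
    · exact Real.rpow_le_rpow (Nat.cast_nonneg _) (by exact_mod_cast hF) (by positivity)
    · exact Real.rpow_le_rpow (Nat.cast_nonneg _) (by exact_mod_cast e2) hθ0.le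
  exact pp4_NV_le hp g V _ (Real.rpow_nonneg (Nat.cast_nonneg _) _) (h1.trans (h2.trans h3))

end Pool.Agent.WBp
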