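import Pool.Agent.Lib.MP_c7fb7b_an.P5
import Pool.Agent.Lib.MP_c7fb7b_an_p.Defs

/-!
# P5 (general exponent): limits of row suprema, in terms of the row functionals only

Copy of `row_limit` of `MP_c7fb7b_an/P5.lean`; `selection` is reused.
-/

open Finset Filter Topology Pool.Agent.WB

namespace Pool.Agent.WBp

theorem row_limit (G : ℝ) (hG : 1 ≤ G) (y : ℕ → ℕ × ℕ → ℝ)
    (hfin : ∀ q, (Function.support (y q)).Finite) (hbd : ∀ q m nn, N1 G m nn (y q) ≤ 1)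
    (hnull : ∀ e, Tendsto (fun q => y q e) atTop (𝓝 0)) (M₀ : Set ℕ) (hM₀ : M₀.Infinite)
    (ε : ℝ) (hε : 0 < ε) :
    ∃ (m0 : ℕ) (ρ : ℕ → ℝ) (M₁ : Set ℕ), M₁ ⊆ M₀ ∧ M₁.Infinite ∧ (∀ b, 0 ≤ ρ b) ∧
      ∑ b ∈ range m0, ρ b ≤ G + 1 ∧
      (∀ q ∈ M₁, ∀ b < m0, ∀ n, b < n → |y q (b, n)| ≤ ρ b) ∧
      ∀ m, ∀ᶠ q in atTop, q ∈ M₁ → (∑ b ∈ range m, ∑ n ∈ range m, |y q (b, n)|) ≤ ε ∧
        ∃ r : ℕ → ℝ, (∀ b, 0 ≤ r b) ∧ (∀ b n, b < n → |y q (b, n)| ≤ r b) ∧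
          ∑ b ∈ Ico m0 m, r b ≤ ε := by
  classical
  have hGpos : 0 < G := lt_of_lt_of_le one_pos hG
  choose nb hnb using fun q m b => p5_row_finite (y q) (hfin q) b m
  -- maxima over `n ≥ m`
  let σ : ℕ → ℕ → ℕ → ℝ := fun q m b => |y q (b, max m (nb q m b))|
  have hσ0 : ∀ q m b, 0 ≤ σ q m b := fun q m b => abs_nonneg _
  have hσ : ∀ q m b n, m ≤ n → |y q (b, n)| ≤ σ q m b := by
    intro q m b n hn
    have := hnb q m b n
    rwa [max_eq_right hn] at this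
  have hT : ∀ q m, ∑ b ∈ range m, σ q m b ≤ G := by
    intro q m
    have h1 := hbd q m (nb q m)
    simp only [N1] at h1
    rw [inv_mul_le_iff₀ hGpos, mul_one] at h1
    exact h1
  let ρq : ℕ → ℕ → ℝ := fun q b => σ q (b + 1) b
  have hρ0 : ∀ q b, 0 ≤ ρq q b := fun q b => hσ0 _ _ _
  have hρG : ∀ q b, ρq q b ≤ G := by
    intro q b
    refine le_trans ?_ (hT q (b + 1))
    exact Finset.single_le_sum (f := fun b' => σ q (b + 1) b') (fun i _ => hσ0 _ _ _)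
      (Finset.mem_range.2 (Nat.lt_succ_self b))
  have hρy : ∀ q b n, b < n → |y q (b, n)| ≤ ρq q b := fun q b n hn => hσ q (b + 1) b n hn
  have hρσ : ∀ q m b, ρq q b ≤ σ q m b + ∑ n ∈ range m, |y q (b, n)| := by
    intro q m b
    have h2 : ρq q b = |y q (b, max (b + 1) (nb q (b + 1) b))| := rfl
    rw [h2]
    by_cases hm : m ≤ max (b + 1) (nb q (b + 1) b)
    · have h3 := hσ q m b _ hm
      have h4 : 0 ≤ ∑ n ∈ range m, |y q (b, n)| := Finset.sum_nonneg (fun _ _ => abs_nonneg _)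
      linarith
    · push Not at hm
      have h3 := Finset.single_le_sum (f := fun n => |y q (b, n)|) (fun i _ => abs_nonneg _)
        (Finset.mem_range.2 hm)
      have h4 := hσ0 q m b
      linarith
  -- tiny squares
  have hsq : ∀ m, Tendsto (fun q => ∑ b ∈ range m, ∑ n ∈ range m, |y q (b, n)|) atTop (𝓝 0) := by
    intro m
    have h1 : Tendsto (fun q => ∑ b ∈ range m, ∑ n ∈ range m, |y q (b, n)|) atTop
        (𝓝 (∑ b ∈ range m, ∑ n ∈ range m, |(0 : ℝ)|)) :=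
      tendsto_finsetSum _ (fun b _ => tendsto_finsetSum _ (fun n _ => (hnull (b, n)).abs))
    simpa using h1
  -- compactness
  have hinf : {n | n ∈ M₀}.Infinite := hM₀
  let e : ℕ → ℕ := Nat.nth (fun n => n ∈ M₀)
  have he : StrictMono e := Nat.nth_strictMono hinf
  have heM : ∀ i, e i ∈ M₀ := fun i => Nat.nth_mem_of_infinite hinf i
  have hcomp : IsCompact (Set.pi Set.univ (fun _ : ℕ => Set.Icc (0 : ℝ) G)) :=
    isCompact_univ_pi (fun _ => isCompact_Icc)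
  obtain ⟨ρ', _, φ, hφ, hlim⟩ := hcomp.tendsto_subseq (x := fun i => ρq (e i))
    (fun i b _ => ⟨hρ0 _ _, hρG _ _⟩)
  let θ : ℕ → ℕ := fun i => e (φ i)
  have hθ : StrictMono θ := he.comp hφ
  have hθt : Tendsto θ atTop atTop := hθ.tendsto_atTop
  have hθM : ∀ i, θ i ∈ M₀ := fun i => heM _
  have hlimb : ∀ b, Tendsto (fun i => ρq (θ i) b) atTop (𝓝 (ρ' b)) := by
    intro b
    exact (tendsto_pi_nhds.1 hlim) b
  have hρ'0 : ∀ b, 0 ≤ ρ' b := fun b => ge_of_tendsto' (hlimb b) (fun i => hρ0 _ _)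
  have hpart : ∀ m, ∑ b ∈ range m, ρ' b ≤ G := by
    intro m
    have h1 : Tendsto (fun i => ∑ b ∈ range m, ρq (θ i) b) atTop (𝓝 (∑ b ∈ range m, ρ' b)) :=
      tendsto_finsetSum _ (fun b _ => hlimb b)
    have h2 : Tendsto (fun i => G + ∑ b ∈ range m, ∑ n ∈ range m, |y (θ i) (b, n)|) atTop
        (𝓝 (G + 0)) := tendsto_const_nhds.add ((hsq m).comp hθt)
    rw [add_zero] at h2
    refine le_of_tendsto_of_tendsto' h1 h2 (fun i => ?_)
    calc ∑ b ∈ range m, ρq (θ i) b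
        ≤ ∑ b ∈ range m, (σ (θ i) m b + ∑ n ∈ range m, |y (θ i) (b, n)|) :=
          Finset.sum_le_sum (fun b _ => hρσ _ _ _)
      _ ≤ G + ∑ b ∈ range m, ∑ n ∈ range m, |y (θ i) (b, n)| := by
          rw [Finset.sum_add_distrib]
          exact add_le_add (hT _ _) le_rfl
  have hsum : Summable ρ' := summable_of_sum_range_le hρ'0 hpart
  have htail : ∃ m0, (∑' b, ρ' b) - ε / 2 < ∑ b ∈ range m0, ρ' b := by
    have h1 := hsum.hasSum.tendsto_sum_nat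
    have h2 : ∀ᶠ m in atTop, (∑' b, ρ' b) - ε / 2 < ∑ b ∈ range m, ρ' b :=
      h1.eventually (lt_mem_nhds (by linarith))
    exact h2.exists
  obtain ⟨m0, hm0⟩ := htail
  have hIco : ∀ m, ∑ b ∈ Ico m0 m, ρ' b ≤ ε / 2 := by
    intro m
    by_cases hm : m0 ≤ m
    · rw [Finset.sum_Ico_eq_sub _ hm]
      have h1 : ∑ b ∈ range m, ρ' b ≤ ∑' b, ρ' b := hsum.sum_le_tsum _ (fun b _ => hρ'0 b)
      linarith
    · rw [Finset.Ico_eq_empty (by omega), Finset.sum_empty]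
      positivity
  -- the sequence from some index on
  have hev : ∀ᶠ i in atTop, ∀ b ∈ range m0, ρq (θ i) b < ρ' b + 1 / ((m0 : ℝ) + 1) := by
    rw [Filter.eventually_all_finset]
    intro b _
    exact (hlimb b).eventually (gt_mem_nhds (by
      have : (0 : ℝ) < 1 / ((m0 : ℝ) + 1) := by positivity
      linarith))
  obtain ⟨i₀, hi₀⟩ := eventually_atTop.1 hev
  refine ⟨m0, fun b => ρ' b + 1 / ((m0 : ℝ) + 1), Set.range (fun i => θ (i + i₀)), ?_, ?_, ?_, ?_,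
    ?_, ?_⟩
  · rintro _ ⟨i, rfl⟩
    exact hθM _
  · apply Set.infinite_range_of_injective
    intro i j hij
    have := hθ.injective hij
    omega
  · intro b
    have := hρ'0 b
    positivity
  · rw [Finset.sum_add_distrib, Finset.sum_const, Finset.card_range, nsmul_eq_mul]
    have h1 := hpart m0
    have h2 : (m0 : ℝ) * (1 / ((m0 : ℝ) + 1)) ≤ 1 := by
      rw [mul_one_div, div_le_one (by positivity)]
      linarith
    linarith
  · rintro _ ⟨i, rfl⟩ b hb n hn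
    refine (hρy _ _ _ hn).trans ?_
    exact (hi₀ (i + i₀) (by omega) b (Finset.mem_range.2 hb)).le
  · intro m
    have h1 : ∀ᶠ q in atTop, ∑ b ∈ range m, ∑ n ∈ range m, |y q (b, n)| < ε :=
      (hsq m).eventually (gt_mem_nhds hε)
    have h2 : Tendsto (fun i => ∑ b ∈ Ico m0 m, ρq (θ i) b) atTop (𝓝 (∑ b ∈ Ico m0 m, ρ' b)) :=
      tendsto_finsetSum _ (fun b _ => hlimb b)
    have h3 : ∀ᶠ i in atTop, ∑ b ∈ Ico m0 m, ρq (θ i) b < ε :=
      h2.eventually (gt_mem_nhds (lt_of_le_of_lt (hIco m) (by linarith)))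
    obtain ⟨i₁, hi₁⟩ := eventually_atTop.1 h3
    filter_upwards [h1, eventually_ge_atTop (θ i₁)] with q hq1 hq2
    rintro ⟨i, rfl⟩
    refine ⟨hq1.le, ρq (θ (i + i₀)), hρ0 _, hρy _, ?_⟩
    exact (hi₁ (i + i₀) (hθ.le_iff_le.1 hq2)).le

end Pool.Agent.WBp
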