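import Pool.Agent.Lib.MP_c7fb7b_an_p.Defs
import Pool.Agent.Lib.MP_c7fb7b_an.Q1

/-!
# Q1 (general exponent): the subsequence property of c_0-sums

Same as `MP_c7fb7b_an/Q1.lean` with `k ^ (1/p)` instead of `√k`.
-/

open Finset Filter Topology Pool.Agent.WB

namespace Pool.Agent.WBp

theorem PP_sum {ι J Γ : Type} {p : ℝ} (hp : 1 < p) (N : ι → J → (Γ → ℝ) → ℝ) {C : ℝ}
    (hC : 0 ≤ C) (hlat : ∀ c, LatFam (N c)) (h : ∀ c, PP p (N c) C) : PP p (sumN N) (C + 1) := by
  classical
  intro y hfin hbd hto k M₀ hM₀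
  have hzero : ∀ c i, N c i 0 = 0 := by
    intro c i
    have := (hlat c).smul_eq i 0 0
    rw [abs_zero, zero_mul, zero_smul] at this
    exact this
  rcases Nat.eq_zero_or_pos k with rfl | hk
  · refine ⟨M₀, le_rfl, hM₀, fun F _ hc j => ?_⟩
    have : F = ∅ := Finset.card_eq_zero.1 (Nat.le_zero.1 hc)
    subst this
    rw [Finset.sum_empty]
    change N j.1 j.2 (fun γ => (0 : ι × Γ → ℝ) (j.1, γ)) ≤ _
    have e : (fun γ => (0 : ι × Γ → ℝ) (j.1, γ)) = 0 := rfl
    rw [e, hzero]
    positivity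
  let yc : ι → ℕ → Γ → ℝ := fun c q γ => y q (c, γ)
  have hcomp : ∀ c (M : Set ℕ), M.Infinite → ∃ M' : Set ℕ, M' ⊆ M ∧ M'.Infinite ∧
      ∀ F : Finset ℕ, (F : Set ℕ) ⊆ M' → F.card ≤ k → Bd (N c) (∑ q ∈ F, yc c q) (C * (k : ℝ) ^ (1 / p)) := by
    intro c M hM
    refine h c (yc c) ?_ ?_ ?_ k M hM
    · intro q
      have h1 : Function.support (yc c q) ⊆ (fun γ => (c, γ)) ⁻¹' (Function.support (y q)) :=
        fun γ hγ => hγ
      refine Set.Finite.subset ((hfin q).preimage ?_) h1
      intro a _ b _ hab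
      exact (Prod.ext_iff.1 hab).2
    · intro q i
      exact hbd q (c, i)
    · intro γ
      exact hto (c, γ)
  -- components met by a support
  let S : ℕ → Finset ι := fun q => (hfin q).toFinset.image Prod.fst
  let P : ℕ → Set ℕ → Prop := fun q M => ∀ c ∈ S q, ∀ F : Finset ℕ, (F : Set ℕ) ⊆ M →
    F.card ≤ k → Bd (N c) (∑ q ∈ F, yc c q) (C * (k : ℝ) ^ (1 / p))
  have hPmono : ∀ q M M', M' ⊆ M → P q M → P q M' := fun q M M' hs hP c hc F hF =>
    hP c hc F (hF.trans hs)
  have hPex : ∀ q (M : Set ℕ), M.Infinite → ∃ M', M' ⊆ M ∧ M'.Infinite ∧ P q M' := by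
    intro q M hM
    have key : ∀ T : Finset ι, ∃ M' : Set ℕ, M' ⊆ M ∧ M'.Infinite ∧ ∀ c ∈ T, ∀ F : Finset ℕ,
        (F : Set ℕ) ⊆ M' → F.card ≤ k → Bd (N c) (∑ q ∈ F, yc c q) (C * (k : ℝ) ^ (1 / p)) := by
      intro T
      induction T using Finset.induction_on with
      | empty => exact ⟨M, le_rfl, hM, fun c hc => absurd hc (Finset.notMem_empty c)⟩
      | insert c T hc ih =>
        obtain ⟨M1, h1, h2, h3⟩ := ih
        obtain ⟨M2, h4, h5, h6⟩ := hcomp c M1 h2
        refine ⟨M2, h4.trans h1, h5, fun c' hc' F hF hcard => ?_⟩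
        rcases Finset.mem_insert.1 hc' with rfl | hc'
        · exact h6 F hF hcard
        · exact h3 c' hc' F (hF.trans h4) hcard
    exact key (S q)
  obtain ⟨M, m1, m2, m3⟩ := q1_diag P hPmono hPex M₀ hM₀
  refine ⟨M, m1, m2, fun F hF hcard j => ?_⟩
  obtain ⟨c, i⟩ := j
  have hsq : (1 : ℝ) ≤ (k : ℝ) ^ (1 / p) := by
    apply Real.one_le_rpow
    · exact_mod_cast hk
    · have : 0 < p := by linarith
      positivity
  have hexp : (fun γ => (∑ q ∈ F, y q) (c, γ)) = ∑ q ∈ F, yc c q := by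
    funext γ
    rw [Finset.sum_apply, Finset.sum_apply]
  change N c i (fun γ => (∑ q ∈ F, y q) (c, γ)) ≤ _
  rw [hexp]
  have hnot : ∀ q, c ∉ S q → yc c q = 0 := by
    intro q hq
    funext γ
    by_contra hne
    apply hq
    refine Finset.mem_image.2 ⟨(c, γ), ?_, rfl⟩
    rw [Set.Finite.mem_toFinset]
    exact hne
  by_cases hex : ∃ q, q ∈ M ∧ c ∈ S q
  · have hq0 := Nat.find_spec hex
    set q0 := Nat.find hex with hq0def
    have hmin : ∀ q, q ∈ M → q < q0 → c ∉ S q := fun q hq hlt hc =>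
      Nat.find_min hex hlt ⟨hq, hc⟩
    have hsplit : ∑ q ∈ F, yc c q = ∑ q ∈ F.filter (· = q0), yc c q +
        ∑ q ∈ F.filter (q0 < ·), yc c q := by
      rw [Finset.sum_filter, Finset.sum_filter, ← Finset.sum_add_distrib]
      refine Finset.sum_congr rfl fun q hq => ?_
      rcases lt_trichotomy q q0 with h1 | h1 | h1
      · rw [if_neg h1.ne, if_neg (not_lt.2 h1.le), add_zero]
        exact hnot q (hmin q (hF hq) h1)
      · rw [if_pos h1, if_neg (by omega), add_zero]
      · rw [if_neg (by omega), if_pos h1, zero_add]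
    rw [hsplit]
    refine ((hlat c).add_le i _ _).trans ?_
    have e1 : N c i (∑ q ∈ F.filter (· = q0), yc c q) ≤ 1 := by
      by_cases hq : q0 ∈ F
      · have : F.filter (· = q0) = {q0} := by
          ext q
          simp only [Finset.mem_filter, Finset.mem_singleton]
          constructor
          · exact fun h => h.2
          · rintro rfl; exact ⟨hq, rfl⟩
        rw [this, Finset.sum_singleton]
        exact hbd q0 (c, i)
      · have : F.filter (· = q0) = ∅ := by
          ext q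
          simp only [Finset.mem_filter, Finset.notMem_empty, iff_false, not_and]
          rintro h1 rfl
          exact hq h1
        rw [this, Finset.sum_empty, hzero]
        exact zero_le_one
    have e2 : N c i (∑ q ∈ F.filter (q0 < ·), yc c q) ≤ C * (k : ℝ) ^ (1 / p) := by
      refine m3 q0 hq0.1 c hq0.2 (F.filter (q0 < ·)) ?_ ?_ i
      · intro q hq
        have h1 := Finset.mem_filter.1 (Finset.mem_coe.1 hq)
        exact ⟨hF h1.1, h1.2⟩
      · exact (Finset.card_filter_le _ _).trans hcard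
    linarith
  · push Not at hex
    have : ∑ q ∈ F, yc c q = 0 := Finset.sum_eq_zero fun q hq => hnot q (hex q (hF hq))
    rw [this, hzero]
    positivity

end Pool.Agent.WBp
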