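import Pool.Agent.Lib.MP_c7fb7b_an_p.P1
import Pool.Agent.Lib.MP_c7fb7b_an_p.P6
import Pool.Agent.Lib.MP_c7fb7b_an_p.Q1
import Pool.Agent.Lib.MP_c7fb7b_an_p.Q2

/-!
# Q3 (general exponent): the subsequence property of the family of Y

Done.
-/

open Finset Filter Topology Pool.Agent.WB

namespace Pool.Agent.WBp

theorem PP_YF {p : ℝ} (hp : 1 < p) : PP p (YF p) (28 * qq p + 1) := by
  have hq := one_le_qq hp
  have h : ∀ c : YI, PP p (YN p (c.1 + 1) c.2.2) (28 * qq p) := by
    rintro ⟨g, b, c⟩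
    cases c with
    | base => exact PP_mono (by linarith) (PP_LN hp)
    | edge t i => exact PP_EN hp _ _ (one_le_GG hp i)
    | rcd t => exact PP_mono (by linarith) (PP_LN hp)
  exact PP_sum hp (fun c : YI => YN p (c.1 + 1) c.2.2) (by linarith) (fun _ => lat_YN hp _ _) h

end Pool.Agent.WBp
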