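import Pool.Agent.Lib.MP_c7fb7b_an_p.Defs

/-!
# S2 (general exponent): from the subsequence property to weak convergence and weak Banach-Saks

Same as `MP_c7fb7b_an/S2.lean` and the second half of `S3.lean` with `k^(1/p)` instead of `√k`
(`k δ ≤ C k^(1/p)` fails for large `k` since `1/p < 1`).
-/

open Finset Filter Topology Pool.Agent.WB

namespace Pool.Agent.WBp

variable {J Γ : Type} {N : J → (Γ → ℝ) → ℝ} {h : LatFam N}

theorem PP_space {p : ℝ} (hp : 1 < p) {C : ℝ} (hC : 0 ≤ C) (hP : PP p N C) (u : ℕ → Sp N h)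
    {R : ℝ} (hR : 0 < R) (hu : ∀ q, ‖u q‖ ≤ R)
    (hc : ∀ γ, Tendsto (fun q => (u q).fn γ) atTop (𝓝 0)) (k : ℕ)
    (M₀ : Set ℕ) (hM₀ : M₀.Infinite) :
    ∃ M : Set ℕ, M ⊆ M₀ ∧ M.Infinite ∧ ∀ F : Finset ℕ, (F : Set ℕ) ⊆ M → F.card ≤ k →
      ‖∑ q ∈ F, u q‖ ≤ (2 * C + 1) * R * (k : ℝ) ^ (1 / p) := by
  classical
  rcases Nat.eq_zero_or_pos k with rfl | hk
  · refine ⟨M₀, le_rfl, hM₀, fun F _ hcard => ?_⟩
    have : F = ∅ := Finset.card_eq_zero.1 (Nat.le_zero.1 hcard)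
    subst this
    rw [Finset.sum_empty, norm_zero]
    exact mul_nonneg (by positivity) (Real.rpow_nonneg (Nat.cast_nonneg _) _)
  -- approximation by finitely supported elements
  have hε : ∀ q : ℕ, 0 < R * (1 / 2 : ℝ) ^ (q + 1) := fun q => by positivity
  have happ : ∀ q, ∃ v : Sp N h, (Function.support v.fn).Finite ∧
      ‖u q - v‖ ≤ R * (1 / 2 : ℝ) ^ (q + 1) := by
    intro q
    obtain ⟨z, hz1, hz2⟩ := (u q).mem.2 _ (hε q)
    let z' : Γ → ℝ := fun γ => if Unseen N γ then 0 else z γ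
    have hz'fin : (Function.support z').Finite := by
      refine hz1.subset fun γ hγ => ?_
      intro h0
      apply hγ
      by_cases hun : Unseen N γ
      · simp [z', hun]
      · simp [z', hun, h0]
    have hmem : Mem N z' := by
      refine ⟨fun γ hγ => by simp [z', hγ], fun ε hε => ⟨z', hz'fin, fun j => ?_⟩⟩
      rw [sub_self, h.zero]
      exact hε.le
    refine ⟨Sp.mk' z' hmem, hz'fin, ?_⟩
    rw [Sp.norm_le_iff _ (hε q).le]
    intro j
    refine le_trans (h.mono j _ _ fun γ => ?_) (hz2 j)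
    change |(u q).fn γ - z' γ| ≤ |(u q).fn γ - z γ|
    by_cases hun : Unseen N γ
    · have h1 : (u q).fn γ = 0 := (u q).mem.1 γ hun
      simp [z', hun, h1]
    · simp [z', hun]
  choose v hv1 hv2 using happ
  have hvn : ∀ q, ‖v q‖ ≤ 2 * R := by
    intro q
    have h1 : v q = u q - (u q - v q) := by abel
    have h2 : (1 / 2 : ℝ) ^ (q + 1) ≤ 1 := pow_le_one₀ (by norm_num) (by norm_num)
    have h3 := norm_sub_le (u q) (u q - v q)
    rw [← h1] at h3
    have h4 := hv2 q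
    have h5 := hu q
    nlinarith
  have h2R : 0 < 2 * R := by linarith
  obtain ⟨M, m1, m2, m3⟩ := hP (fun q => ((2 * R)⁻¹ • v q).fn) (fun q => by
      refine (hv1 q).subset fun γ hγ => ?_
      intro h0
      apply hγ
      change (2 * R)⁻¹ * (v q).fn γ = 0
      rw [h0, mul_zero])
    (fun q => by
      refine (Sp.norm_le_iff _ zero_le_one).1 ?_
      rw [norm_smul, norm_inv, Real.norm_of_nonneg h2R.le, inv_mul_le_one₀ h2R]
      exact hvn q)
    (fun γ => by
      obtain ⟨φ, hφ⟩ := Sp.exists_coord (h := h) γ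
      have h1 : Tendsto (fun q => (v q).fn γ) atTop (𝓝 0) := by
        have h2 : Tendsto (fun q => (u q).fn γ - (v q).fn γ) atTop (𝓝 0) := by
          refine squeeze_zero_norm (a := fun q => ‖φ‖ * (R * (1 / 2 : ℝ) ^ (q + 1))) ?_ ?_
          · intro q
            have h3 : (u q).fn γ - (v q).fn γ = φ (u q - v q) := by
              rw [hφ]; rfl
            rw [h3]
            exact (φ.le_opNorm _).trans (mul_le_mul_of_nonneg_left (hv2 q) (norm_nonneg _))
          · have h4 : Tendsto (fun q : ℕ => (1 / 2 : ℝ) ^ (q + 1)) atTop (𝓝 0) :=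
              (tendsto_pow_atTop_nhds_zero_of_lt_one (by norm_num) (by norm_num)).comp
                (tendsto_add_atTop_nat 1)
            have h5 := (h4.const_mul R).const_mul ‖φ‖
            simpa using h5
        have h6 := (hc γ).sub h2
        simpa using h6
      have h7 := h1.const_mul (2 * R)⁻¹
      rw [mul_zero] at h7
      exact h7) k M₀ hM₀
  refine ⟨M, m1, m2, fun F hF hcard => ?_⟩
  have hsq : (1 : ℝ) ≤ (k : ℝ) ^ (1 / p) := by
    apply Real.one_le_rpow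
    · exact_mod_cast hk
    · have : 0 < p := by linarith
      positivity
  have h1 : ‖∑ q ∈ F, (2 * R)⁻¹ • v q‖ ≤ C * (k : ℝ) ^ (1 / p) := by
    rw [Sp.norm_le_iff _ (by positivity), Sp.fn_sum]
    exact m3 F hF hcard
  rw [← Finset.smul_sum, norm_smul, norm_inv, Real.norm_of_nonneg h2R.le,
    inv_mul_le_iff₀ h2R] at h1
  have h2 : ∑ q ∈ F, u q = ∑ q ∈ F, v q + ∑ q ∈ F, (u q - v q) := by
    rw [← Finset.sum_add_distrib]
    exact Finset.sum_congr rfl fun q _ => by abel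
  have h3 : ‖∑ q ∈ F, (u q - v q)‖ ≤ R := by
    refine (norm_sum_le _ _).trans ?_
    refine (Finset.sum_le_sum fun q _ => hv2 q).trans ?_
    rw [← Finset.mul_sum]
    have := s2_geom F
    nlinarith
  rw [h2]
  refine (norm_add_le _ _).trans ?_
  nlinarith

theorem weaklyNull_of_PP {p : ℝ} (hp : 1 < p) {C : ℝ} (hC : 0 ≤ C) (hP : PP p N C)
    (u : ℕ → Sp N h) {R : ℝ} (hu : ∀ q, ‖u q‖ ≤ R)
    (hc : ∀ γ, Tendsto (fun q => (u q).fn γ) atTop (𝓝 0)) : WeaklyNull u := by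
  classical
  intro φ
  by_contra hcon
  rw [Metric.tendsto_atTop] at hcon
  push Not at hcon
  obtain ⟨δ, hδ, hfreq⟩ := hcon
  have hM₀ : {n | δ ≤ |φ (u n)|}.Infinite := by
    refine Set.infinite_of_forall_exists_gt fun n => ?_
    obtain ⟨m, hm, hd⟩ := hfreq (n + 1)
    refine ⟨m, ?_, by omega⟩
    rw [Real.dist_eq, sub_zero] at hd
    exact hd
  have hR' : 0 < |R| + 1 := by positivity
  let sg : ℕ → ℝ := fun q => if 0 ≤ φ (u q) then 1 else -1
  have hsg : ∀ q, |sg q| = 1 := by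
    intro q
    by_cases h1 : 0 ≤ φ (u q) <;> simp [sg, h1]
  have hsφ : ∀ q, φ (sg q • u q) = |φ (u q)| := by
    intro q
    rw [map_smul, smul_eq_mul]
    by_cases h1 : 0 ≤ φ (u q)
    · simp [sg, h1, abs_of_nonneg h1]
    · simp only [sg, h1, if_false]
      rw [abs_of_neg (not_le.1 h1)]
      ring
  have key : ∀ k : ℕ, (k : ℝ) * δ ≤ ‖φ‖ * ((2 * C + 1) * (|R| + 1) * (k : ℝ) ^ (1 / p)) := by
    intro k
    obtain ⟨M, m1, m2, m3⟩ := PP_space hp hC hP (fun q => sg q • u q) hR' (fun q => by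
        rw [norm_smul, Real.norm_eq_abs, hsg, one_mul]
        exact (hu q).trans ((le_abs_self R).trans (by linarith)))
      (fun γ => by
        refine squeeze_zero_norm (a := fun q => |(u q).fn γ|) (fun q => ?_) ?_
        · change ‖sg q * (u q).fn γ‖ ≤ _
          rw [norm_mul, Real.norm_eq_abs, hsg, one_mul, Real.norm_eq_abs]
        · have := (hc γ).abs
          rwa [abs_zero] at this) k _ hM₀
    obtain ⟨F, hF1, hF2⟩ := m2.exists_subset_card_eq k
    have h1 := m3 F hF1 hF2.le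
    have h2 : (k : ℝ) * δ ≤ φ (∑ q ∈ F, sg q • u q) := by
      rw [map_sum]
      have h3 : ∀ q ∈ F, δ ≤ φ (sg q • u q) := by
        intro q hq
        rw [hsφ]
        exact m1 (hF1 (Finset.mem_coe.2 hq))
      have h4 := Finset.card_nsmul_le_sum _ _ _ h3
      rw [hF2, nsmul_eq_mul] at h4
      exact h4
    refine h2.trans ((le_abs_self _).trans ?_)
    refine (φ.le_opNorm _).trans (mul_le_mul_of_nonneg_left h1 (norm_nonneg _))
  set K : ℝ := ‖φ‖ * ((2 * C + 1) * (|R| + 1)) with hK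
  have hK0 : 0 ≤ K := by positivity
  have hr : 0 < 1 - 1 / p := by
    rw [sub_pos, div_lt_one (by linarith)]
    exact hp
  have ht : Tendsto (fun n : ℕ => (n : ℝ) ^ (1 - 1 / p)) atTop atTop :=
    (tendsto_rpow_atTop hr).comp tendsto_natCast_atTop_atTop
  obtain ⟨n, hn1, hn2⟩ := ((ht.eventually_gt_atTop (K / δ)).and (eventually_ge_atTop 1)).exists
  have hn0 : (0 : ℝ) < n := by exact_mod_cast hn2
  have h1 := key n
  have h2 : ‖φ‖ * ((2 * C + 1) * (|R| + 1) * (n : ℝ) ^ (1 / p)) = K * (n : ℝ) ^ (1 / p) := by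
    rw [hK]; ring
  rw [h2] at h1
  have h3 : (n : ℝ) = (n : ℝ) ^ (1 - 1 / p) * (n : ℝ) ^ (1 / p) := by
    rw [← Real.rpow_add hn0, sub_add_cancel, Real.rpow_one]
  have hs0 : 0 < (n : ℝ) ^ (1 / p) := Real.rpow_pos_of_pos hn0 _
  have h4 : (n : ℝ) ^ (1 - 1 / p) * δ ≤ K := by
    have h5 : ((n : ℝ) ^ (1 - 1 / p) * δ) * (n : ℝ) ^ (1 / p) ≤ K * (n : ℝ) ^ (1 / p) := by
      calc ((n : ℝ) ^ (1 - 1 / p) * δ) * (n : ℝ) ^ (1 / p)
          = ((n : ℝ) ^ (1 - 1 / p) * (n : ℝ) ^ (1 / p)) * δ := by ring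
        _ = n * δ := by rw [← h3]
        _ ≤ _ := h1
    exact le_of_mul_le_mul_right h5 hs0
  have h6 : (n : ℝ) ^ (1 - 1 / p) ≤ K / δ := by rw [le_div_iff₀ hδ]; exact h4
  linarith

theorem weakBS_of_PP {p : ℝ} (hp : 1 < p) {C : ℝ} (hC : 0 ≤ C) (hP : PP p N C) :
    WeakBS p (Sp N h) := by
  refine ⟨2 * C + 1, by linarith, fun x hx hw k => ?_⟩
  obtain ⟨M, -, m2, m3⟩ := PP_space hp hC hP x one_pos hx (fun γ => by
    obtain ⟨φ, hφ⟩ := Sp.exists_coord (h := h) γ
    have := hw φ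
    simpa only [hφ] using this) k Set.univ Set.infinite_univ
  refine ⟨M, m2, fun s hs hcard => ?_⟩
  have h1 := m3 s hs hcard.le
  rw [mul_one] at h1
  exact h1

theorem seqCont_of {J Γ J' Γ' : Type} {N : J → (Γ → ℝ) → ℝ} {h : LatFam N}
    {N' : J' → (Γ' → ℝ) → ℝ} {h' : LatFam N'} {p : ℝ} (hp : 1 < p) {C : ℝ} (hC : 0 ≤ C)
    (hP : PP p N' C) (f : Sp N h → Sp N' h') {L : ℝ} (hL : ∀ x y, ‖f x - f y‖ ≤ L * ‖x - y‖)
    (hc : ∀ (γ' : Γ') (x : ℕ → Sp N h) (a : Sp N h),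
      (∀ γ, Tendsto (fun q => (x q).fn γ) atTop (𝓝 (a.fn γ))) →
      Tendsto (fun q => (f (x q)).fn γ') atTop (𝓝 ((f a).fn γ'))) :
    WeakSeqCont f := by
  intro x a hx ψ
  obtain ⟨R, hR⟩ := bounded_of_weak x a hx
  have hcoord : ∀ γ, Tendsto (fun q => (x q).fn γ) atTop (𝓝 (a.fn γ)) := by
    intro γ
    obtain ⟨φ, hφ⟩ := Sp.exists_coord (h := h) γ
    have := hx φ
    simpa only [hφ] using this
  have h1 : WeaklyNull (fun q => f (x q) - f a) := by
    refine weaklyNull_of_PP hp hC hP _ (R := max L 0 * R) (fun q => ?_) (fun γ' => ?_)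
    · refine (hL _ _).trans ?_
      have h0 : 0 ≤ ‖x q - a‖ := norm_nonneg _
      calc L * ‖x q - a‖ ≤ max L 0 * ‖x q - a‖ :=
            mul_le_mul_of_nonneg_right (le_max_left _ _) h0
        _ ≤ max L 0 * R := mul_le_mul_of_nonneg_left (hR q) (le_max_right _ _)
    · have h2 := (hc γ' x a hcoord).sub_const ((f a).fn γ')
      rw [sub_self] at h2
      exact h2
  have h2 := h1 ψ
  have h3 := h2.add_const (ψ (f a))
  rw [zero_add] at h3
  refine h3.congr (fun q => ?_)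
  rw [map_sub, sub_add_cancel]

end Pool.Agent.WBp
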