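import Pool.Agent.Lib.MP_c7fb7b_an_p.Q2

/-!
# S4 (general exponent): X fails the weak p-Banach-Saks property
-/

open Finset Filter Topology Pool.Agent.WB

namespace Pool.Agent.WBp

theorem ps4_ga_zero {p : ℝ} (hp : 1 < p) (k : ℕ → ℝ) (hk : ∀ v, 0 ≤ k v) (hk2 : ∀ v, k v ≤ 2)
    (s : Finset ℕ) (x : ℕ → ℝ) (h : ∀ m ∈ s, x m = 0) : ga p k s x = 0 := by
  refine le_antisymm ?_ (ga_nonneg p k s x)
  refine (ga_le_sum hp hk hk2 s x).trans (le_of_eq ?_)
  rw [Finset.sum_eq_zero (fun m hm => by rw [h m hm, abs_zero]), mul_zero]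

/-- the unit vector function -/
noncomputable def ps4_f (p0 : ℕ × ℕ) : ℕ × ℕ → ℝ := fun e => if e = p0 then 1 else 0

theorem ps4_seen {p : ℝ} (hp : 1 < p) (p0 : ℕ × ℕ) : ¬ Unseen (XF p) p0 := by
  intro h
  have h1 := h (p0.1, {p0.2}) (ps4_f p0) (fun δ hδ => if_neg hδ)
  have h2 : |(fun n => ps4_f p0 (p0.1, n)) p0.2| ≤
      ga p (kap p (p0.1 + 1)) {p0.2} (fun n => ps4_f p0 (p0.1, n)) :=
    abs_le_ga hp (kap p (p0.1 + 1)) (mem_singleton_self p0.2) (fun n => ps4_f p0 (p0.1, n))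
  have h3 : ga p (kap p (p0.1 + 1)) {p0.2} (fun n => ps4_f p0 (p0.1, n)) = 0 := h1
  have h4 : ps4_f p0 (p0.1, p0.2) = 1 := if_pos rfl
  rw [h3] at h2
  simp only [h4, abs_one] at h2
  linarith

theorem ps4_mem {p : ℝ} (hp : 1 < p) (p0 : ℕ × ℕ) : Mem (XF p) (ps4_f p0) := by
  refine ⟨fun γ hγ => absurd hγ (ps4_seen hp γ), fun ε hε => ⟨ps4_f p0, ?_, ?_⟩⟩
  · refine (Set.finite_singleton p0).subset (fun e he => ?_)
    rw [Function.mem_support] at he
    rw [Set.mem_singleton_iff]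
    by_contra h
    exact he (if_neg h)
  · intro j
    rw [sub_self, (lat_XF hp).zero]
    exact hε.le

/-- the unit vectors -/
noncomputable def ps4_e {p : ℝ} (hp : 1 < p) (g n : ℕ) : Sp (XF p) (lat_XF hp) :=
  Sp.mk' (ps4_f (g, n)) (ps4_mem hp (g, n))

theorem ps4_fn_sum {p : ℝ} (hp : 1 < p) (g : ℕ) (F : Finset ℕ) (a : ℕ → ℝ) (e : ℕ × ℕ) :
    (∑ n ∈ F, a n • ps4_e hp g n).fn e = if e.1 = g ∧ e.2 ∈ F then a e.2 else 0 := by
  rw [Sp.fn_sum, Finset.sum_apply]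
  have h1 : ∀ n, (a n • ps4_e hp g n).fn e = if n = e.2 ∧ e.1 = g then a n else 0 := by
    intro n
    rw [Sp.fn_smul, Pi.smul_apply, smul_eq_mul]
    show a n * ps4_f (g, n) e = _
    unfold ps4_f
    by_cases h : e = (g, n)
    · rw [if_pos h, if_pos ⟨by rw [h], by rw [h]⟩, mul_one]
    · rw [if_neg h, if_neg (fun h2 => h (Prod.ext h2.2 h2.1.symm)), mul_zero]
  rw [Finset.sum_congr rfl (fun n _ => h1 n)]
  by_cases hg : e.1 = g
  · simp only [hg, and_true, true_and]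
    rw [Finset.sum_ite_eq' F e.2 a]
  · simp [hg]

theorem ps4_norm_sum {p : ℝ} (hp : 1 < p) (g : ℕ) (F : Finset ℕ) (a : ℕ → ℝ)
    (ha : ∀ n, |a n| ≤ 1) :
    ‖∑ n ∈ F, a n • ps4_e hp g n‖ ≤ Hm p (g + 1) * (F.card : ℝ) ^ (1 / p) := by
  have hHm0 : 0 ≤ Hm p (g + 1) := zero_le_one.trans (one_le_Hm hp _)
  have hp0 : 0 < p := by linarith
  have hC : 0 ≤ Hm p (g + 1) * (F.card : ℝ) ^ (1 / p) :=
    mul_nonneg hHm0 (Real.rpow_nonneg (Nat.cast_nonneg _) _)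
  rw [Sp.norm_le_iff _ hC]
  rintro ⟨g', s⟩
  show ga p (kap p (g' + 1)) s (fun n => (∑ n ∈ F, a n • ps4_e hp g n).fn (g', n)) ≤ _
  by_cases hg : g' = g
  · subst hg
    refine (gauge_le_np hp (g' + 1) s _).trans ?_
    refine mul_le_mul_of_nonneg_left ?_ hHm0
    unfold np
    refine Real.rpow_le_rpow (Finset.sum_nonneg (fun m _ => Real.rpow_nonneg (abs_nonneg _) p)) ?_
      (by positivity)
    have h1 : ∀ m ∈ s, |(∑ n ∈ F, a n • ps4_e hp g' n).fn (g', m)| ^ p ≤ if m ∈ F then 1 else 0 := by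
      intro m _
      rw [ps4_fn_sum]
      by_cases hm : m ∈ F
      · rw [if_pos ⟨rfl, hm⟩, if_pos hm]
        exact Real.rpow_le_one (abs_nonneg _) (ha m) hp0.le
      · rw [if_neg (fun h => hm h.2), if_neg hm, abs_zero, Real.zero_rpow hp0.ne']
    refine (Finset.sum_le_sum h1).trans ?_
    rw [← Finset.sum_filter, Finset.sum_const, nsmul_eq_mul, mul_one]
    exact_mod_cast Finset.card_le_card (fun x hx => (mem_filter.1 hx).2)
  · have h0 : ga p (kap p (g' + 1)) s (fun n => (∑ n ∈ F, a n • ps4_e hp g n).fn (g', n)) = 0 := by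
      apply ps4_ga_zero hp _ (kap_nonneg hp _) (kap_le_two hp _)
      intro m _
      rw [ps4_fn_sum, if_neg (fun h => hg h.1)]
    rw [h0]
    exact hC

theorem ps4_norm_e {p : ℝ} (hp : 1 < p) (g n : ℕ) : ‖ps4_e hp g n‖ ≤ 2 := by
  rw [Sp.norm_le_iff _ (by norm_num)]
  intro j
  have h := (lat_XF hp).single_le j (ps4_f (g, n)) (g, n) (fun δ hδ => if_neg hδ)
  have h1 : ps4_f (g, n) (g, n) = 1 := if_pos rfl
  rw [h1, abs_one, mul_one] at h
  exact h

theorem ps4_weak {p : ℝ} (hp : 1 < p) (g : ℕ) : WeaklyNull (fun n => ps4_e hp g n) := by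
  have hp0 : 0 < p := by linarith
  intro φ
  rw [Metric.tendsto_atTop]
  intro δ hδ
  have hfin : {n : ℕ | δ ≤ |φ (ps4_e hp g n)|}.Finite := by
    by_contra hinf
    have hinf' : {n : ℕ | δ ≤ |φ (ps4_e hp g n)|}.Infinite := hinf
    have hq : 0 < 1 - 1 / p := by
      have : 1 / p < 1 := by
        rw [div_lt_one hp0]
        exact hp
      linarith
    have hT : Tendsto (fun k : ℕ => (k : ℝ) ^ (1 - 1 / p)) atTop atTop :=
      (tendsto_rpow_atTop hq).comp tendsto_natCast_atTop_atTop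
    obtain ⟨k, hk, hk1⟩ := ((hT.eventually (eventually_gt_atTop (‖φ‖ * Hm p (g + 1) / δ))).and
      (eventually_ge_atTop 1)).exists
    obtain ⟨F, hF, hFk⟩ := hinf'.exists_subset_card_eq k
    set a : ℕ → ℝ := fun n => if 0 ≤ φ (ps4_e hp g n) then 1 else -1 with ha
    have ha1 : ∀ n, |a n| ≤ 1 := by
      intro n
      simp only [ha]
      split_ifs <;> simp
    have ha2 : ∀ n, a n * φ (ps4_e hp g n) = |φ (ps4_e hp g n)| := by
      intro n
      simp only [ha]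
      split_ifs with h
      · rw [one_mul, abs_of_nonneg h]
      · push Not at h
        rw [abs_of_neg h]
        ring
    have h1 : φ (∑ n ∈ F, a n • ps4_e hp g n) = ∑ n ∈ F, |φ (ps4_e hp g n)| := by
      rw [map_sum]
      refine Finset.sum_congr rfl (fun n _ => ?_)
      rw [map_smul, smul_eq_mul, ha2]
    have h2 : (k : ℝ) * δ ≤ ∑ n ∈ F, |φ (ps4_e hp g n)| := by
      have := Finset.card_nsmul_le_sum F (fun n => |φ (ps4_e hp g n)|) δ (fun n hn => hF hn)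
      rw [hFk, nsmul_eq_mul] at this
      exact this
    have h3 : φ (∑ n ∈ F, a n • ps4_e hp g n) ≤ ‖φ‖ * (Hm p (g + 1) * (k : ℝ) ^ (1 / p)) := by
      refine (le_abs_self _).trans ?_
      rw [← Real.norm_eq_abs]
      refine (φ.le_opNorm _).trans ?_
      refine mul_le_mul_of_nonneg_left ?_ (norm_nonneg _)
      have := ps4_norm_sum hp g F a ha1
      rw [hFk] at this
      exact this
    have hk0 : (0 : ℝ) < k := by exact_mod_cast hk1
    have hs0 : 0 < (k : ℝ) ^ (1 / p) := Real.rpow_pos_of_pos hk0 _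
    have hss : (k : ℝ) ^ (1 / p) * (k : ℝ) ^ (1 - 1 / p) = k := by
      rw [← Real.rpow_add hk0]
      have : 1 / p + (1 - 1 / p) = 1 := by ring
      rw [this, Real.rpow_one]
    have h5 : (k : ℝ) ^ (1 - 1 / p) ≤ ‖φ‖ * Hm p (g + 1) / δ := by
      rw [le_div_iff₀ hδ]
      have h6 : (k : ℝ) ^ (1 / p) * ((k : ℝ) ^ (1 - 1 / p) * δ)
          ≤ (k : ℝ) ^ (1 / p) * (‖φ‖ * Hm p (g + 1)) := by
        calc (k : ℝ) ^ (1 / p) * ((k : ℝ) ^ (1 - 1 / p) * δ)
            = ((k : ℝ) ^ (1 / p) * (k : ℝ) ^ (1 - 1 / p)) * δ := by ring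
          _ = k * δ := by rw [hss]
          _ ≤ ‖φ‖ * (Hm p (g + 1) * (k : ℝ) ^ (1 / p)) := by
              rw [← h1] at h2
              exact h2.trans h3
          _ = (k : ℝ) ^ (1 / p) * (‖φ‖ * Hm p (g + 1)) := by ring
      exact le_of_mul_le_mul_left h6 hs0
    exact absurd h5 (not_le.2 hk)
  obtain ⟨N, hN⟩ := hfin.bddAbove
  refine ⟨N + 1, fun n hn => ?_⟩
  rw [dist_zero_right, Real.norm_eq_abs]
  by_contra hcon
  push Not at hcon
  have : n ≤ N := hN hcon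
  omega

theorem X_fails {p : ℝ} (hp : 1 < p) : ¬ WeakBS p (Sp (XF p) (lat_XF hp)) := by
  have hp0 : 0 < p := by linarith
  have hq : 0 < 1 - 1 / p := by
    have : 1 / p < 1 := by
      rw [div_lt_one hp0]
      exact hp
    linarith
  rintro ⟨C, hC, h⟩
  have hT : Tendsto (Hm p) atTop atTop := by
    have h0 : Hm p = fun n : ℕ => 1 + (1 - 1 / p) * ∑ i ∈ range n, 1 / ((i : ℝ) + 1) := rfl
    rw [h0]
    exact tendsto_atTop_add_const_left _ 1
      (Tendsto.const_mul_atTop hq Real.tendsto_sum_range_one_div_nat_succ_atTop)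
  obtain ⟨g0, hg0⟩ := (hT.eventually (eventually_gt_atTop (2 * C))).exists_forall_of_atTop
  set g := g0 with hg
  have hHm : 2 * C < Hm p (g + 1) := hg0 (g + 1) (by omega)
  have hx1 : ∀ n, ‖(1 / 2 : ℝ) • ps4_e hp g n‖ ≤ 1 := by
    intro n
    rw [norm_smul, Real.norm_of_nonneg (by norm_num)]
    have := ps4_norm_e hp g n
    linarith
  have hx2 : WeaklyNull (fun n => (1 / 2 : ℝ) • ps4_e hp g n) := by
    intro φ
    have := (ps4_weak hp g φ).const_mul (1 / 2 : ℝ)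
    rw [mul_zero] at this
    refine this.congr (fun n => ?_)
    rw [map_smul, smul_eq_mul]
  obtain ⟨M, hM, hMs⟩ := h _ hx1 hx2 (g + 1)
  obtain ⟨s, hs, hsk⟩ := hM.exists_subset_card_eq (g + 1)
  have h1 := hMs s hs hsk
  set u := ∑ n ∈ s, (1 / 2 : ℝ) • ps4_e hp g n with hu
  have h2 := Sp.bd_norm u (g, s)
  have h3 : XF p (g, s) u.fn = ga p (kap p (g + 1)) s (fun n => u.fn (g, n)) := rfl
  rw [h3] at h2
  have h4 := V_le_ga p (kap p (g + 1)) (Finset.Subset.refl s) (fun n => u.fn (g, n))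
  have h5 : ∑ m ∈ s, |(fun n => u.fn (g, n)) m| = ((g + 1 : ℕ) : ℝ) * (1 / 2) := by
    rw [← hsk, ← nsmul_eq_mul, ← Finset.sum_const]
    refine Finset.sum_congr rfl (fun m hm => ?_)
    show |u.fn (g, m)| = 1 / 2
    rw [hu, ps4_fn_sum hp g s (fun _ => 1 / 2) (g, m), if_pos ⟨rfl, hm⟩,
      abs_of_nonneg (by norm_num)]
  rw [h5, hsk] at h4
  have h6 := kap_mul_self hp (g + 1) (g + 1)
  have h7 : Hg p (g + 1) (g + 1) = Hm p (g + 1) := by
    unfold Hg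
    rw [min_self]
  rw [h7] at h6
  have h8 : ((g + 1 : ℕ) : ℝ) ^ (1 / p) * Hm p (g + 1) * (1 / 2)
      ≤ C * ((g + 1 : ℕ) : ℝ) ^ (1 / p) := by
    calc ((g + 1 : ℕ) : ℝ) ^ (1 / p) * Hm p (g + 1) * (1 / 2)
        = kap p (g + 1) (g + 1) * (((g + 1 : ℕ) : ℝ) * (1 / 2)) := by rw [← h6]; ring
      _ ≤ ga p (kap p (g + 1)) s (fun n => u.fn (g, n)) := h4
      _ ≤ ‖u‖ := h2
      _ ≤ C * ((g + 1 : ℕ) : ℝ) ^ (1 / p) := h1
  have hs0 : 0 < ((g + 1 : ℕ) : ℝ) ^ (1 / p) := Real.rpow_pos_of_pos (by positivity) _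
  nlinarith

end Pool.Agent.WBp
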