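import Pool.Agent.Lib.MP_c7fb7b_an_p.M2
import Pool.Agent.Lib.MP_c7fb7b_an_p.M3
import Pool.Agent.Lib.MP_c7fb7b_an_p.Q3
import Pool.Agent.Lib.MP_c7fb7b_an_p.S2
import Pool.Agent.Lib.MP_c7fb7b_an_p.S4

/-!
# Z (general exponent): assembly (helper80)

Done.
-/

open Finset Filter Topology Pool.Agent.WB

namespace Pool.Agent.WBp

/-- The map. -/
noncomputable def ff {p : ℝ} (hp : 1 < p) (x : Sp (XF p) (lat_XF hp)) :
    Sp (YF p) (lat_YF hp) := Sp.mk' (fr p x.fn) (mem_fr hp x.fn x.mem)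

theorem ff_lip {p : ℝ} (hp : 1 < p) (x y : Sp (XF p) (lat_XF hp)) :
    ‖ff hp x - ff hp y‖ ≤ 80 * ‖x - y‖ := by
  rw [Sp.norm_le_iff _ (by positivity)]
  have h := Sp.bd_norm (x - y)
  rw [Sp.fn_sub] at h
  exact fr_lip hp _ _ h

theorem ff_lower {p : ℝ} (hp : 1 < p) (x y : Sp (XF p) (lat_XF hp)) :
    ‖x - y‖ ≤ cL p * ‖ff hp x - ff hp y‖ + dL p := by
  have hq := one_le_qq hp
  have hc : 0 ≤ cL p := by unfold cL; positivity
  have hd : 0 ≤ dL p := by unfold dL; positivity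
  rw [Sp.norm_le_iff _ (by positivity)]
  have h := Sp.bd_norm (ff hp x - ff hp y)
  rw [Sp.fn_sub] at h
  exact fr_lower hp _ _ h

theorem ff_coarse {p : ℝ} (hp : 1 < p) : CoarseLip (ff hp) := by
  have hq := one_le_qq hp
  have hc : 4096 ≤ cL p := by unfold cL; nlinarith
  have hd : 0 ≤ dL p := by unfold dL; positivity
  refine ⟨cL p + dL p, by linarith, fun x y => ⟨?_, ?_⟩⟩
  · have h := ff_lower hp x y
    have hpos : 0 < cL p + dL p := by linarith
    have h0 : 0 ≤ ‖ff hp x - ff hp y‖ := norm_nonneg _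
    rw [inv_mul_eq_div, sub_le_iff_le_add, div_le_iff₀ hpos]
    nlinarith
  · have h := ff_lip hp x y
    have h0 : 0 ≤ ‖x - y‖ := norm_nonneg _
    have h1 : 80 * ‖x - y‖ ≤ (cL p + dL p) * ‖x - y‖ :=
      mul_le_mul_of_nonneg_right (by linarith) h0
    linarith

theorem ff_weak {p : ℝ} (hp : 1 < p) : WeakSeqCont (ff hp) := by
  have hq := one_le_qq hp
  refine seqCont_of hp (by linarith : (0 : ℝ) ≤ 28 * qq p + 1) (PP_YF hp) (ff hp) (L := 80)
    (ff_lip hp) ?_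
  intro γ' x a hx
  have hc := (continuous_fr hp γ').tendsto a.fn
  exact hc.comp (tendsto_pi_nhds.2 hx)

/-- The whole theorem. -/
theorem main {p : ℝ} (hp : 1 < p) : ∃ (X Y : Type) (_ : NormedAddCommGroup X)
    (_ : NormedSpace ℝ X) (_ : CompleteSpace X) (_ : NormedAddCommGroup Y)
    (_ : NormedSpace ℝ Y) (_ : CompleteSpace Y),
    WeakBS p Y ∧ ¬ WeakBS p X ∧
      ∃ f : X → Y, CoarseLip f ∧ WeakSeqCont f ∧ ∀ x y, ‖f x - f y‖ ≤ 80 * ‖x - y‖ := by
  have hq := one_le_qq hp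
  exact ⟨Sp (XF p) (lat_XF hp), Sp (YF p) (lat_YF hp), inferInstance, inferInstance,
    inferInstance, inferInstance, inferInstance, inferInstance,
    weakBS_of_PP hp (by linarith : (0 : ℝ) ≤ 28 * qq p + 1) (PP_YF hp), X_fails hp,
    ff hp, ff_coarse hp, ff_weak hp, ff_lip hp⟩

end Pool.Agent.WBp
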